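import Pool.Agent.CS4.Stmts

/-!
Double edges and the number of edges.
-/

open Finset

noncomputable section

namespace Pool.CS4

theorem cls_reps {d : ℕ} (V : Finset (E d)) : (∀ v ∈ V, -v ∈ V) → (0 : E d) ∉ V →
    ∃ X : Finset (E d), X ⊆ V ∧ (∀ x ∈ X, -x ∉ X) ∧ ∀ v ∈ V, v ∈ X ∨ -v ∈ X := by
  classical
  induction V using Finset.strongInduction with
  | H V ih =>
    intro hs h0
    rcases V.eq_empty_or_nonempty with rfl | ⟨v, hv⟩
    · exact ⟨∅, by simp⟩
    · have hv0 : v ≠ 0 := fun h => h0 (h ▸ hv)
      have hvn : -v ≠ v := fun h => hv0 (neg_eq_self.1 h)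
      obtain ⟨X, hX, hX1, hX2⟩ := ih ((V.erase v).erase (-v))
        ((Finset.erase_subset _ _).trans_ssubset (Finset.erase_ssubset hv))
        (by
          intro w hw
          simp only [Finset.mem_erase] at hw ⊢
          exact ⟨fun h => hw.2.1 (neg_injective h), fun h => hw.1 (by rw [← h, neg_neg]),
            hs w hw.2.2⟩)
        (by
          intro h
          simp only [Finset.mem_erase] at h
          exact h0 h.2.2)
      have hvX : v ∉ X := fun h => by
        have := hX h
        simp at this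
      have hvX' : -v ∉ X := fun h => by
        have := hX h
        simp at this
      refine ⟨insert v X, ?_, ?_, ?_⟩
      · intro x hx
        rcases Finset.mem_insert.1 hx with rfl | hx
        · exact hv
        · have := hX hx
          simp only [Finset.mem_erase] at this
          exact this.2.2
      · intro x hx h
        rcases Finset.mem_insert.1 hx with rfl | hx
        · rcases Finset.mem_insert.1 h with h | h
          · exact hvn h
          · exact hvX' h
        · rcases Finset.mem_insert.1 h with h | h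
          · apply hvX'
            rw [← h, neg_neg]
            exact hx
          · exact hX1 x hx h
      · intro w hw
        by_cases h1 : w = v
        · left
          rw [h1]
          exact Finset.mem_insert_self _ _
        by_cases h2 : w = -v
        · right
          rw [h2, neg_neg]
          exact Finset.mem_insert_self _ _
        rcases hX2 w (by simp only [Finset.mem_erase]; exact ⟨h2, h1, hw⟩) with h | h
        · exact Or.inl (Finset.mem_insert_of_mem h)
        · exact Or.inr (Finset.mem_insert_of_mem h)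

theorem cls_zero {d : ℕ} {V : Finset (E d)} (hV : IsCSSimplicial d V) (h3 : 3 ≤ V.card) :
    (0 : E d) ∉ V := by
  classical
  intro h0
  obtain ⟨v, hv, hv0⟩ : ∃ v ∈ V, v ≠ 0 := by
    by_contra h
    push Not at h
    have : V ⊆ {0} := fun v hv => Finset.mem_singleton.2 (h v hv)
    have := Finset.card_le_card this
    rw [Finset.card_singleton] at this
    omega
  have h1 : (0 : E d) ∈ (convexHull ℝ (V : Set (E d))).extremePoints ℝ := by
    rw [hV.ext]
    exact h0
  have h2 : v ∈ convexHull ℝ (V : Set (E d)) := subset_convexHull ℝ _ hv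
  have h2' : -v ∈ convexHull ℝ (V : Set (E d)) := subset_convexHull ℝ _ (hV.symm v hv)
  have h4 : (0 : E d) ∈ openSegment ℝ v (-v) := by
    refine ⟨1 / 2, 1 / 2, by norm_num, by norm_num, by norm_num, ?_⟩
    rw [smul_neg, add_neg_cancel]
  exact hv0 ((mem_extremePoints.1 h1).2 v h2 (-v) h2' h4).1

/-- the negative of a face is a face -/
theorem cls_neg {d : ℕ} [DecidableEq (E d)] {V : Finset (E d)} (hs : ∀ v ∈ V, -v ∈ V) {x y : E d}
    (h : IsFace V {x, y}) : IsFace V {-x, -y} := by
  obtain ⟨h1, l, c, h2, h3⟩ := h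
  refine ⟨?_, -l, c, ?_, ?_⟩
  · intro z hz
    rcases Finset.mem_insert.1 hz with rfl | hz
    · exact hs x (h1 (by simp))
    · rw [Finset.mem_singleton.1 hz]
      exact hs y (h1 (by simp))
  · intro z hz
    rcases Finset.mem_insert.1 hz with rfl | hz
    · rw [LinearMap.neg_apply, map_neg, neg_neg]
      exact h2 x (by simp)
    · rw [Finset.mem_singleton.1 hz, LinearMap.neg_apply, map_neg, neg_neg]
      exact h2 y (by simp)
  · intro z hz hz'
    rw [LinearMap.neg_apply, ← map_neg]
    apply h3 _ (hs z hz)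
    intro h
    apply hz'
    rcases Finset.mem_insert.1 h with h | h
    · rw [← h, neg_neg]
      simp
    · rw [← Finset.mem_singleton.1 h, neg_neg]
      simp

/-- the functional of an edge can be normalised -/
theorem cls_edge {d : ℕ} [DecidableEq (E d)] {V : Finset (E d)} (hs : ∀ v ∈ V, -v ∈ V)
    (h0 : (0 : E d) ∉ V) (h3 : 3 ≤ V.card) {x y : E d} (hF : IsFace V {x, y}) :
    y ≠ -x ∧ ∃ l : E d →ₗ[ℝ] ℝ, l x = 1 ∧ l y = 1 ∧ ∀ v ∈ V, v ≠ x → v ≠ y → l v < 1 := by
  obtain ⟨h1, l, c, h2, h4⟩ := hF
  have hx : x ∈ V := h1 (by simp)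
  have hy : y ∈ V := h1 (by simp)
  have hlx : l x = c := h2 x (by simp)
  have hly : l y = c := h2 y (by simp)
  have hx0 : x ≠ 0 := fun h => h0 (h ▸ hx)
  have hxy : y ≠ -x := by
    rintro rfl
    obtain ⟨v, hv, hv'⟩ : ∃ v ∈ V, v ∉ ({x, -x} : Finset (E d)) := by
      by_contra h
      push Not at h
      have h5 := Finset.card_le_card (show V ⊆ {x, -x} from h)
      have h6 := Finset.card_le_two (a := x) (b := -x)
      omega
    have h5 := h4 v hv hv'
    have h6 := h4 (-v) (hs v hv) (by
      intro h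
      apply hv'
      rcases Finset.mem_insert.1 h with h | h
      · rw [← h, neg_neg]
        simp
      · rw [neg_injective (Finset.mem_singleton.1 h)]
        simp)
    rw [map_neg] at hly h6
    linarith
  have hc : 0 < c := by
    have := h4 (-x) (hs x hx) (by
      intro h
      rcases Finset.mem_insert.1 h with h | h
      · exact hx0 (neg_eq_self.1 h)
      · exact hxy (Finset.mem_singleton.1 h).symm)
    rw [map_neg] at this
    linarith
  refine ⟨hxy, c⁻¹ • l, ?_, ?_, ?_⟩
  · rw [LinearMap.smul_apply, hlx, smul_eq_mul, inv_mul_cancel₀ hc.ne']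
  · rw [LinearMap.smul_apply, hly, smul_eq_mul, inv_mul_cancel₀ hc.ne']
  · intro v hv h5 h6
    have h7 := h4 v hv (by simp [h5, h6])
    rw [LinearMap.smul_apply, smul_eq_mul, inv_mul_lt_iff₀ hc, mul_one]
    exact h7

theorem cls_dbl {d : ℕ} [DecidableEq (E d)] {V X : Finset (E d)} (hs : ∀ v ∈ V, -v ∈ V)
    (h0 : (0 : E d) ∉ V) (h3 : 3 ≤ V.card) (hX : X ⊆ V) (hX1 : ∀ x ∈ X, -x ∉ X)
    {a b : E d} (ha : a ∈ X) (hb : b ∈ X) (h1 : IsFace V {a, b}) (h2 : IsFace V {a, -b}) :
    Dbl X a b := by
  obtain ⟨-, l, hla, hlb, hl⟩ := cls_edge hs h0 h3 h1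
  obtain ⟨-, l', hla', hlb', hl'⟩ := cls_edge hs h0 h3 h2
  refine ⟨⟨l, hla, hlb, ?_⟩, ⟨l', hla', ?_, ?_⟩⟩
  · intro w hw hwa hwb
    have h4 := hl w (hX hw) hwa hwb
    have h5 := hl (-w) (hs w (hX hw)) (fun h => hX1 w hw (h ▸ ha)) (fun h => hX1 w hw (h ▸ hb))
    rw [map_neg] at h5
    exact abs_lt.2 ⟨by linarith, h4⟩
  · rw [map_neg] at hlb'
    linarith
  · intro w hw hwa hwb
    have h4 := hl' w (hX hw) hwa (fun h => hX1 b hb (h ▸ hw))
    have h5 := hl' (-w) (hs w (hX hw)) (fun h => hX1 w hw (h ▸ ha))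
      (fun h => hwb (neg_injective h))
    rw [map_neg] at h5
    exact abs_lt.2 ⟨by linarith, h4⟩

theorem cls_card {d : ℕ} {V X : Finset (E d)} (hs : ∀ v ∈ V, -v ∈ V) (hX : X ⊆ V)
    (hX1 : ∀ x ∈ X, -x ∉ X) (hX2 : ∀ v ∈ V, v ∈ X ∨ -v ∈ X) : V.card = 2 * X.card := by
  classical
  have h1 : V = X ∪ X.image (fun x => -x) := by
    ext v
    rw [Finset.mem_union, Finset.mem_image]
    constructor
    · intro hv
      rcases hX2 v hv with h | h
      · exact Or.inl h
      · exact Or.inr ⟨-v, h, neg_neg v⟩
    · rintro (h | ⟨x, hx, rfl⟩)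
      · exact hX h
      · exact hs x (hX hx)
  have h2 : Disjoint X (X.image (fun x => -x)) := by
    rw [Finset.disjoint_left]
    intro x hx h
    obtain ⟨y, hy, rfl⟩ := Finset.mem_image.1 h
    exact hX1 y hy hx
  rw [h1, Finset.card_union_of_disjoint h2, Finset.card_image_of_injective _ neg_injective]
  omega

theorem cls : Stmt_Cls := by
  classical
  intro d V hV h3
  have h0 := cls_zero hV h3
  have hs := hV.symm
  obtain ⟨X, hX, hX1, hX2⟩ := cls_reps V hs h0
  refine ⟨X, hX, cls_card hs hX hX1 hX2, ?_⟩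
  -- the ordered edges
  set T : Finset (E d × E d) := (V ×ˢ V).filter fun z => z.1 ≠ z.2 ∧ IsFace V {z.1, z.2} with hT
  have hT1 : 2 * fv V 2 ≤ T.card := by
    set S : Finset (Finset (E d)) := V.powerset.filter fun F => IsFace V F ∧ F ≠ V ∧ F.card = 2
      with hS
    have hfv : fv V 2 = S.card := by
      unfold fv
      congr 1
    rw [hfv, Finset.card_eq_sum_card_fiberwise (s := T) (t := S) (f := fun z => {z.1, z.2})]
    · rw [mul_comm, ← smul_eq_mul, ← Finset.sum_const]
      apply Finset.sum_le_sum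
      intro F hF
      rw [hS, Finset.mem_filter] at hF
      obtain ⟨hF1, hF2, -, hF4⟩ := hF
      obtain ⟨x, y, hxy, rfl⟩ := Finset.card_eq_two.1 hF4
      have hx : x ∈ V := hF2.1 (by simp)
      have hy : y ∈ V := hF2.1 (by simp)
      have h5 : ({(x, y), (y, x)} : Finset (E d × E d)).card = 2 := by
        apply Finset.card_pair
        intro h
        exact hxy (congrArg Prod.fst h)
      rw [← h5]
      apply Finset.card_le_card
      intro z hz
      rw [Finset.mem_filter, hT, Finset.mem_filter, Finset.mem_product]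
      rcases Finset.mem_insert.1 hz with rfl | hz
      · exact ⟨⟨⟨hx, hy⟩, hxy, hF2⟩, rfl⟩
      · rw [Finset.mem_singleton.1 hz]
        refine ⟨⟨⟨hy, hx⟩, hxy.symm, ?_⟩, Finset.pair_comm _ _⟩
        rw [Finset.pair_comm]
        exact hF2
    · intro z hz
      rw [Finset.mem_coe, hT, Finset.mem_filter, Finset.mem_product] at hz
      rw [Finset.mem_coe, hS, Finset.mem_filter, Finset.mem_powerset]
      refine ⟨hz.2.2.1, hz.2.2, ?_, Finset.card_pair hz.2.1⟩
      intro h
      have h' : ({z.1, z.2} : Finset (E d)) = V := h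
      have := Finset.card_pair hz.2.1
      rw [h'] at this
      omega
  -- the fibres
  set f : E d × E d → Finset (E d × E d) := fun z =>
    (({z.1, -z.1} : Finset (E d)) ×ˢ ({z.2, -z.2} : Finset (E d))) ∩ T with hf
  have hT2 : T ⊆ (X ×ˢ X).biUnion f := by
    intro z hz
    have hz' := hz
    rw [hT, Finset.mem_filter, Finset.mem_product] at hz'
    rw [Finset.mem_biUnion]
    have key : ∀ v ∈ V, ∃ x ∈ X, v ∈ ({x, -x} : Finset (E d)) := by
      intro v hv
      rcases hX2 v hv with h | h
      · exact ⟨v, h, by simp⟩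
      · exact ⟨-v, h, by simp⟩
    obtain ⟨a, ha, ha'⟩ := key z.1 hz'.1.1
    obtain ⟨b, hb, hb'⟩ := key z.2 hz'.1.2
    refine ⟨(a, b), Finset.mem_product.2 ⟨ha, hb⟩, ?_⟩
    rw [hf, Finset.mem_inter]
    exact ⟨Finset.mem_product.2 ⟨ha', hb'⟩, hz⟩
  have hneg : ∀ x y : E d, IsFace V {x, y} → IsFace V {-x, -y} := fun x y h => cls_neg hs h
  have hneg' : ∀ x y : E d, IsFace V {-x, -y} → IsFace V {x, y} := fun x y h => by
    have := cls_neg hs h
    rwa [neg_neg, neg_neg] at this
  have hf1 : ∀ z ∈ X ×ˢ X, (f z).card ≤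
      2 * ((if z.1 ≠ z.2 then 1 else 0) + (if z.1 ≠ z.2 ∧ Dbl X z.1 z.2 then 1 else 0)) := by
    rintro ⟨a, b⟩ hz
    obtain ⟨ha, hb⟩ := Finset.mem_product.1 hz
    simp only at ha hb ⊢
    by_cases hab : a = b
    · subst hab
      have : f (a, a) = ∅ := by
        rw [Finset.eq_empty_iff_forall_notMem]
        rintro ⟨x, y⟩ h
        rw [hf, Finset.mem_inter, Finset.mem_product, hT, Finset.mem_filter] at h
        obtain ⟨⟨h1, h2⟩, -, h4, h5⟩ := h
        simp only [Finset.mem_insert, Finset.mem_singleton] at h1 h2 h4 h5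
        have h6 := (cls_edge hs h0 h3 h5).1
        rcases h1 with rfl | rfl <;> rcases h2 with rfl | rfl
        · exact h4 rfl
        · exact h6 rfl
        · exact h6 (neg_neg _).symm
        · exact h4 rfl
      rw [this]
      simp
    · by_cases hD : Dbl X a b
      · rw [if_pos hab, if_pos ⟨hab, hD⟩]
        refine (Finset.card_le_card Finset.inter_subset_left).trans ?_
        rw [Finset.card_product]
        have h1 := Finset.card_le_two (a := a) (b := -a)
        have h2 := Finset.card_le_two (a := b) (b := -b)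
        nlinarith
      · rw [if_pos hab, if_neg (fun h => hD h.2)]
        by_cases h1 : IsFace V {a, b}
        · have h2 : ¬ IsFace V {a, -b} := fun h2 => hD (cls_dbl hs h0 h3 hX hX1 ha hb h1 h2)
          have h4 : f (a, b) ⊆ {(a, b), (-a, -b)} := by
            rintro ⟨x, y⟩ h
            rw [hf, Finset.mem_inter, Finset.mem_product, hT, Finset.mem_filter] at h
            obtain ⟨⟨h5, h6⟩, -, -, h7⟩ := h
            simp only [Finset.mem_insert, Finset.mem_singleton] at h5 h6 h7 ⊢
            rcases h5 with rfl | rfl <;> rcases h6 with rfl | rfl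
            · simp
            · exact absurd h7 h2
            · exact absurd (by simpa using hneg _ _ h7) h2
            · simp
          exact (Finset.card_le_card h4).trans Finset.card_le_two
        · have h4 : f (a, b) ⊆ {(a, -b), (-a, b)} := by
            rintro ⟨x, y⟩ h
            rw [hf, Finset.mem_inter, Finset.mem_product, hT, Finset.mem_filter] at h
            obtain ⟨⟨h5, h6⟩, -, -, h7⟩ := h
            simp only [Finset.mem_insert, Finset.mem_singleton] at h5 h6 h7 ⊢
            rcases h5 with rfl | rfl <;> rcases h6 with rfl | rfl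
            · exact absurd h7 h1
            · simp
            · simp
            · exact absurd (hneg' _ _ h7) h1
          exact (Finset.card_le_card h4).trans Finset.card_le_two
  have h4 : T.card ≤ ∑ z ∈ X ×ˢ X,
      2 * ((if z.1 ≠ z.2 then 1 else 0) + (if z.1 ≠ z.2 ∧ Dbl X z.1 z.2 then 1 else 0)) :=
    (Finset.card_le_card hT2).trans (Finset.card_biUnion_le.trans (Finset.sum_le_sum hf1))
  rw [← Finset.mul_sum, Finset.sum_add_distrib, ← Finset.card_filter, ← Finset.card_filter] at h4
  have h5 : ((X ×ˢ X).filter fun z => z.1 ≠ z.2).card + X.card = X.card ^ 2 := by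
    have h6 : ((X ×ˢ X).filter fun z => z.1 ≠ z.2) = X.offDiag := by
      ext z
      simp only [Finset.mem_filter, Finset.mem_product, Finset.mem_offDiag]
      tauto
    rw [h6, Finset.offDiag_card]
    have : X.card ≤ X.card * X.card := Nat.le_mul_self _
    rw [pow_two]
    omega
  convert (show fv V 2 + X.card ≤ X.card ^ 2 +
    ((X ×ˢ X).filter fun z => z.1 ≠ z.2 ∧ Dbl X z.1 z.2).card by omega) using 3

end Pool.CS4
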