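import Pool.Agent.CS4.Stmts

/-!
Number of edges of the construction.
-/

open Finset Matrix

noncomputable section

namespace Pool.CS4

/-- the signed points -/
def cntP (p : ℝ × Bool) : E 4 := if p.2 then -φ p.1 else φ p.1

lemma cnt_add_pi (t : ℝ) : φ (t + Real.pi) = -φ t := by
  have h3 : 3 * (t + Real.pi) = (3 * t + Real.pi) + 2 * Real.pi := by ring
  funext i
  fin_cases i
  · simp [φ, Real.cos_add_pi]
  · simp [φ, Real.sin_add_pi]
  · simp [φ, h3, Real.cos_add_two_pi, Real.cos_add_pi]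
  · simp [φ, h3, Real.sin_add_two_pi, Real.sin_add_pi]

lemma cnt_sub_pi (t : ℝ) : φ (t - Real.pi) = -φ t := by
  have h := cnt_add_pi (t - Real.pi)
  rw [sub_add_cancel] at h
  rw [h, neg_neg]

lemma cnt_zero (t : ℝ) : φ t 0 = Real.cos t := by simp [φ]

lemma cnt_one (t : ℝ) : φ t 1 = Real.sin t := by simp [φ]

lemma cnt_inj {p q : ℝ × Bool} (hp : 0 < p.1 ∧ p.1 < Real.pi) (hq : 0 < q.1 ∧ q.1 < Real.pi)
    (h : cntP p = cntP q) : p = q := by
  have hs1 : 0 < Real.sin p.1 := Real.sin_pos_of_pos_of_lt_pi hp.1 hp.2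
  have hs2 : 0 < Real.sin q.1 := Real.sin_pos_of_pos_of_lt_pi hq.1 hq.2
  obtain ⟨t, b⟩ := p
  obtain ⟨t', b'⟩ := q
  have h0 := congrFun h 0
  have h1 := congrFun h 1
  have key : Real.cos t = Real.cos t' → t = t' := fun hc =>
    Real.injOn_cos ⟨hp.1.le, hp.2.le⟩ ⟨hq.1.le, hq.2.le⟩ hc
  cases b <;> cases b' <;> simp [cntP, cnt_zero, cnt_one] at h0 h1 hs1 hs2 ⊢
  · exact key h0
  · linarith
  · linarith
  · exact key h0

lemma cnt_mem {T : Finset ℝ} {p : ℝ × Bool} (hp : p.1 ∈ T) : cntP p ∈ VT T := by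
  classical
  obtain ⟨t, b⟩ := p
  unfold VT
  rw [Finset.mem_union, Finset.mem_image, Finset.mem_image]
  cases b
  · exact Or.inl ⟨t, hp, by simp [cntP]⟩
  · exact Or.inr ⟨t, hp, by simp [cntP]⟩

lemma cnt_of_mem {T : Finset ℝ} {v : E 4} (hv : v ∈ VT T) : ∃ x : ℝ, v = φ x := by
  classical
  unfold VT at hv
  rw [Finset.mem_union, Finset.mem_image, Finset.mem_image] at hv
  rcases hv with ⟨t, -, rfl⟩ | ⟨t, -, rfl⟩
  · exact ⟨t, rfl⟩
  · exact ⟨t + Real.pi, (cnt_add_pi t).symm⟩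

open Classical in
lemma cnt_face (h : Stmt_Curve) (T : Finset ℝ) {p q : ℝ × Bool} (hp : p.1 ∈ T) (hq : q.1 ∈ T)
    {x y : ℝ} (hx : cntP p = φ x) (hy : cntP q = φ y) (hc : 1 / 2 < Real.cos ((x - y) / 2)) :
    IsFace (VT T) {cntP p, cntP q} := by
  obtain ⟨l, hl1, hl2, hl3⟩ := h x y hc
  refine ⟨?_, l, 1, ?_, ?_⟩
  · intro v hv
    rw [Finset.mem_insert, Finset.mem_singleton] at hv
    rcases hv with rfl | rfl
    · exact cnt_mem hp
    · exact cnt_mem hq
  · intro v hv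
    rw [Finset.mem_insert, Finset.mem_singleton] at hv
    rcases hv with rfl | rfl
    · rw [hx]; exact hl1
    · rw [hy]; exact hl2
  · intro v hv hvF
    obtain ⟨t, rfl⟩ := cnt_of_mem hv
    rw [Finset.mem_insert, Finset.mem_singleton, not_or, hx, hy] at hvF
    exact hl3 t hvF.1 hvF.2

lemma cnt_cos {z : ℝ} (h1 : -(Real.pi / 2 + 1 / 10) < z) (h2 : z < Real.pi / 2 + 1 / 10) :
    1 / 2 < Real.cos (z / 2) := by
  have hpi := Real.pi_gt_three
  rw [← Real.cos_pi_div_three, ← Real.cos_abs (z / 2)]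
  apply Real.cos_lt_cos_of_nonneg_of_le_pi (abs_nonneg _) (by linarith)
  rw [abs_lt]
  constructor <;> linarith

theorem cnt (h : Stmt_Curve) : Stmt_Cnt := by
  classical
  intro T₁ T₂ h5 hT₁ hT₂
  have hpi := Real.pi_gt_three
  set T : Finset ℝ := T₁ ∪ T₂ with hT
  have hT1 : ∀ t ∈ T₁, t ∈ T := fun t ht => Finset.mem_union_left _ ht
  have hT2 : ∀ t ∈ T₂, t ∈ T := fun t ht => Finset.mem_union_right _ ht
  have hrange : ∀ t ∈ T, 0 < t ∧ t < Real.pi := by
    intro t ht
    rw [hT, Finset.mem_union] at ht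
    rcases ht with ht | ht
    · have := hT₁ t ht
      exact ⟨this.1, by linarith [this.2]⟩
    · have := hT₂ t ht
      exact ⟨by linarith [this.1], by linarith [this.2]⟩
  have hdisj : ∀ t, t ∈ T₁ → t ∈ T₂ → False := by
    intro t h1 h2
    have := hT₁ t h1
    have := hT₂ t h2
    linarith [this.1]
  -- the four families of ordered pairs
  set e : (ℝ × ℝ) × Bool → (ℝ × Bool) × (ℝ × Bool) := fun z => ((z.1.1, z.2), (z.1.2, z.2)) with he
  have einj : Function.Injective e := by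
    rintro ⟨⟨a, b⟩, c⟩ ⟨⟨a', b'⟩, c'⟩ hab
    simp only [he, Prod.mk.injEq] at hab
    obtain ⟨⟨h1, h2⟩, h3, -⟩ := hab
    rw [h1, h2, h3]
  set S₁ := (T₁.offDiag ×ˢ (Finset.univ : Finset Bool)).image e with hS₁
  set S₂ := (T₂.offDiag ×ˢ (Finset.univ : Finset Bool)).image e with hS₂
  set S₃ := (T₁ ×ˢ (Finset.univ : Finset Bool)) ×ˢ (T₂ ×ˢ (Finset.univ : Finset Bool)) with hS₃
  set S₄ := (T₂ ×ˢ (Finset.univ : Finset Bool)) ×ˢ (T₁ ×ˢ (Finset.univ : Finset Bool)) with hS₄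
  have c1 : S₁.card = 2 * (T₁.card * (T₁.card - 1)) := by
    rw [hS₁, Finset.card_image_of_injective _ einj, Finset.card_product, Finset.offDiag_card,
      Finset.card_univ, Fintype.card_bool, Nat.mul_sub_one]
    ring
  have c2 : S₂.card = 2 * (T₂.card * (T₂.card - 1)) := by
    rw [hS₂, Finset.card_image_of_injective _ einj, Finset.card_product, Finset.offDiag_card,
      Finset.card_univ, Fintype.card_bool, Nat.mul_sub_one]
    ring
  have c3 : S₃.card = 4 * (T₁.card * T₂.card) := by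
    rw [hS₃]
    simp only [Finset.card_product, Finset.card_univ, Fintype.card_bool]
    ring
  have c4 : S₄.card = 4 * (T₁.card * T₂.card) := by
    rw [hS₄]
    simp only [Finset.card_product, Finset.card_univ, Fintype.card_bool]
    ring
  -- descriptions of the members
  have m1 : ∀ z ∈ S₁, z.1.1 ∈ T₁ ∧ z.2.1 ∈ T₁ ∧ z.1.1 ≠ z.2.1 ∧ z.1.2 = z.2.2 := by
    intro z hz
    rw [hS₁, Finset.mem_image] at hz
    obtain ⟨⟨⟨a, b⟩, c⟩, hw, rfl⟩ := hz
    rw [Finset.mem_product, Finset.mem_offDiag] at hw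
    exact ⟨hw.1.1, hw.1.2.1, hw.1.2.2, rfl⟩
  have m2 : ∀ z ∈ S₂, z.1.1 ∈ T₂ ∧ z.2.1 ∈ T₂ ∧ z.1.1 ≠ z.2.1 ∧ z.1.2 = z.2.2 := by
    intro z hz
    rw [hS₂, Finset.mem_image] at hz
    obtain ⟨⟨⟨a, b⟩, c⟩, hw, rfl⟩ := hz
    rw [Finset.mem_product, Finset.mem_offDiag] at hw
    exact ⟨hw.1.1, hw.1.2.1, hw.1.2.2, rfl⟩
  have m3 : ∀ z ∈ S₃, z.1.1 ∈ T₁ ∧ z.2.1 ∈ T₂ := by
    intro z hz
    rw [hS₃, Finset.mem_product, Finset.mem_product, Finset.mem_product] at hz
    exact ⟨hz.1.1, hz.2.1⟩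
  have m4 : ∀ z ∈ S₄, z.1.1 ∈ T₂ ∧ z.2.1 ∈ T₁ := by
    intro z hz
    rw [hS₄, Finset.mem_product, Finset.mem_product, Finset.mem_product] at hz
    exact ⟨hz.1.1, hz.2.1⟩
  have d12 : Disjoint S₁ S₂ := by
    rw [Finset.disjoint_left]
    intro z h1 h2
    exact hdisj _ (m1 z h1).1 (m2 z h2).1
  have d34 : Disjoint S₃ S₄ := by
    rw [Finset.disjoint_left]
    intro z h1 h2
    exact hdisj _ (m3 z h1).1 (m4 z h2).1
  have d1234 : Disjoint (S₁ ∪ S₂) (S₃ ∪ S₄) := by
    rw [Finset.disjoint_left]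
    intro z h1 h2
    rw [Finset.mem_union] at h1 h2
    rcases h1 with h1 | h1 <;> rcases h2 with h2 | h2
    · exact hdisj _ (m1 z h1).2.1 (m3 z h2).2
    · exact hdisj _ (m1 z h1).1 (m4 z h2).1
    · exact hdisj _ (m3 z h2).1 (m2 z h1).1
    · exact hdisj _ (m4 z h2).2 (m2 z h1).2.1
  set S := (S₁ ∪ S₂) ∪ (S₃ ∪ S₄) with hS
  have cS : S.card = 2 * (T₁.card * (T₁.card - 1) + T₂.card * (T₂.card - 1)
      + 4 * (T₁.card * T₂.card)) := by
    rw [hS, Finset.card_union_of_disjoint d1234, Finset.card_union_of_disjoint d12,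
      Finset.card_union_of_disjoint d34, c1, c2, c3, c4]
    ring
  have memT : ∀ z ∈ S, z.1.1 ∈ T ∧ z.2.1 ∈ T ∧ z.1.1 ≠ z.2.1 := by
    intro z hz
    rw [hS, Finset.mem_union, Finset.mem_union, Finset.mem_union] at hz
    rcases hz with (hz | hz) | (hz | hz)
    · exact ⟨hT1 _ (m1 z hz).1, hT1 _ (m1 z hz).2.1, (m1 z hz).2.2.1⟩
    · exact ⟨hT2 _ (m2 z hz).1, hT2 _ (m2 z hz).2.1, (m2 z hz).2.2.1⟩
    · exact ⟨hT1 _ (m3 z hz).1, hT2 _ (m3 z hz).2,
        fun h' => hdisj _ (m3 z hz).1 (h' ▸ (m3 z hz).2)⟩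
    · exact ⟨hT2 _ (m4 z hz).1, hT1 _ (m4 z hz).2,
        fun h' => hdisj _ (h' ▸ (m4 z hz).2) (m4 z hz).1⟩
  -- all the pairs are faces
  have cross : ∀ p q : ℝ × Bool, p.1 ∈ T₁ → q.1 ∈ T₂ → IsFace (VT T) {cntP p, cntP q} := by
    rintro ⟨s, b⟩ ⟨t, b'⟩ hs ht
    have hs' := hT₁ s hs
    have ht' := hT₂ t ht
    have hs2 := hs'.1
    have hs3 := hs'.2
    have ht2 := ht'.1
    have ht3 := ht'.2
    cases b <;> cases b'
    · exact cnt_face h T (hT1 s hs) (hT2 t ht) (x := s) (y := t) (by simp [cntP])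
        (by simp [cntP]) (cnt_cos (by linarith) (by linarith))
    · exact cnt_face h T (hT1 s hs) (hT2 t ht) (x := s) (y := t - Real.pi) (by simp [cntP])
        (by simp [cntP, cnt_sub_pi]) (cnt_cos (by linarith) (by linarith))
    · exact cnt_face h T (hT1 s hs) (hT2 t ht) (x := s + Real.pi) (y := t)
        (by simp [cntP, cnt_add_pi]) (by simp [cntP]) (cnt_cos (by linarith) (by linarith))
    · exact cnt_face h T (hT1 s hs) (hT2 t ht) (x := s + Real.pi) (y := t + Real.pi)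
        (by simp [cntP, cnt_add_pi]) (by simp [cntP, cnt_add_pi])
        (cnt_cos (by linarith) (by linarith))
  have same : ∀ (s t : ℝ) (b : Bool), s ∈ T → t ∈ T → |s - t| < 1 / 10 →
      IsFace (VT T) {cntP (s, b), cntP (t, b)} := by
    intro s t b hs ht hst
    rw [abs_lt] at hst
    obtain ⟨hst1, hst2⟩ := hst
    cases b
    · exact cnt_face h T hs ht (x := s) (y := t) (by simp [cntP])
        (by simp [cntP]) (cnt_cos (by linarith) (by linarith))
    · exact cnt_face h T hs ht (x := s + Real.pi) (y := t + Real.pi)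
        (by simp [cntP, cnt_add_pi]) (by simp [cntP, cnt_add_pi])
        (cnt_cos (by linarith) (by linarith))
  have faces : ∀ z ∈ S, IsFace (VT T) {cntP z.1, cntP z.2} := by
    intro z hz
    have hm := memT z hz
    rw [hS, Finset.mem_union, Finset.mem_union, Finset.mem_union] at hz
    rcases hz with (hz | hz) | (hz | hz)
    · obtain ⟨h1, h2, -, h4⟩ := m1 z hz
      have e2 : z.2 = (z.2.1, z.1.2) := by rw [h4]
      have e1 : z.1 = (z.1.1, z.1.2) := rfl
      rw [e2, e1]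
      refine same _ _ _ hm.1 hm.2.1 ?_
      have a1 := hT₁ _ h1
      have a2 := hT₁ _ h2
      rw [abs_lt]
      constructor <;> linarith [a1.1, a1.2, a2.1, a2.2]
    · obtain ⟨h1, h2, -, h4⟩ := m2 z hz
      have e2 : z.2 = (z.2.1, z.1.2) := by rw [h4]
      have e1 : z.1 = (z.1.1, z.1.2) := rfl
      rw [e2, e1]
      refine same _ _ _ hm.1 hm.2.1 ?_
      have a1 := hT₂ _ h1
      have a2 := hT₂ _ h2
      rw [abs_lt]
      constructor <;> linarith [a1.1, a1.2, a2.1, a2.2]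
    · exact cross _ _ (m3 z hz).1 (m3 z hz).2
    · rw [Finset.pair_comm]
      exact cross _ _ (m4 z hz).2 (m4 z hz).1
  have hne : ∀ z ∈ S, cntP z.1 ≠ cntP z.2 := by
    intro z hz heq
    have hm := memT z hz
    have := cnt_inj (hrange _ hm.1) (hrange _ hm.2.1) heq
    exact hm.2.2 (congrArg Prod.fst this)
  have hVcard : 5 ≤ (VT T).card := by
    refine h5.trans ?_
    have hinj : Set.InjOn φ (T : Set ℝ) := by
      intro s hs t ht hst
      have := cnt_inj (p := (s, false)) (q := (t, false)) (hrange s hs) (hrange t ht)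
        (by simpa [cntP] using hst)
      exact congrArg Prod.fst this
    rw [← Finset.card_image_of_injOn hinj]
    apply Finset.card_le_card
    unfold VT
    convert Finset.subset_union_left
  have main : S.card ≤ 2 * fv (VT T) 2 := by
    unfold fv
    apply Finset.card_le_mul_card_image_of_maps_to (f := fun z => {cntP z.1, cntP z.2})
    · intro z hz
      rw [Finset.mem_filter, Finset.mem_powerset]
      have hcard : ({cntP z.1, cntP z.2} : Finset (E 4)).card = 2 := Finset.card_pair (hne z hz)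
      refine ⟨(faces z hz).1, faces z hz, ?_, hcard⟩
      intro hEq
      rw [hEq] at hcard
      omega
    · intro F hF
      rw [Finset.mem_filter] at hF
      have hF2 : F.card = 2 := hF.2.2.2
      have : (F.offDiag).card = 2 := by rw [Finset.offDiag_card, hF2]
      rw [← this]
      apply Finset.card_le_card_of_injOn (fun z : (ℝ × Bool) × (ℝ × Bool) => (cntP z.1, cntP z.2))
      · intro z hz
        rw [Finset.mem_coe, Finset.mem_filter] at hz
        rw [Finset.mem_coe, Finset.mem_offDiag]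
        obtain ⟨hzS, hzF⟩ := hz
        refine ⟨?_, ?_, hne z hzS⟩
        · rw [← hzF]; simp
        · rw [← hzF]; simp
      · intro z hz w hw hzw
        rw [Finset.mem_coe, Finset.mem_filter] at hz hw
        have hz' := memT z hz.1
        have hw' := memT w hw.1
        simp only [Prod.mk.injEq] at hzw
        exact Prod.ext (cnt_inj (hrange _ hz'.1) (hrange _ hw'.1) hzw.1)
          (cnt_inj (hrange _ hz'.2.1) (hrange _ hw'.2.1) hzw.2)
  rw [cS] at main
  omega

end Pool.CS4
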