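import Pool.Agent.CS4.Stmts

/-!
The functional which shows that two points of the curve at distance less than `2π/3` span an edge.
-/

open Finset Matrix

noncomputable section

namespace Pool.CS4

/-- the functional -/
def curveL (m c : ℝ) : E 4 →ₗ[ℝ] ℝ :=
  ((3 * c ^ 2 - 3 / 4) * Real.cos m / (2 * c ^ 3)) • LinearMap.proj 0 +
  ((3 * c ^ 2 - 3 / 4) * Real.sin m / (2 * c ^ 3)) • LinearMap.proj 1 +
  (-(1 / 4) * Real.cos (3 * m) / (2 * c ^ 3)) • LinearMap.proj 2 +
  (-(1 / 4) * Real.sin (3 * m) / (2 * c ^ 3)) • LinearMap.proj 3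

theorem curveL_apply (m c t : ℝ) : curveL m c (φ t) =
    (3 * c ^ 2 * Real.cos (t - m) - Real.cos (t - m) ^ 3) / (2 * c ^ 3) := by
  have h3 : Real.cos (3 * (t - m)) =
      Real.cos (3 * t) * Real.cos (3 * m) + Real.sin (3 * t) * Real.sin (3 * m) := by
    rw [mul_sub, Real.cos_sub]
  have h3' := Real.cos_three_mul (t - m)
  have h1 : Real.cos (t - m) = Real.cos t * Real.cos m + Real.sin t * Real.sin m :=
    Real.cos_sub t m
  have e0 : φ t 0 = Real.cos t := rfl
  have e1 : φ t 1 = Real.sin t := rfl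
  have e2 : φ t 2 = Real.cos (3 * t) := rfl
  have e3 : φ t 3 = Real.sin (3 * t) := rfl
  simp only [curveL, LinearMap.add_apply, LinearMap.smul_apply, LinearMap.proj_apply, smul_eq_mul,
    e0, e1, e2, e3]
  have key : (3 * c ^ 2 - 3 / 4) * Real.cos m * Real.cos t +
      (3 * c ^ 2 - 3 / 4) * Real.sin m * Real.sin t +
      -(1 / 4) * Real.cos (3 * m) * Real.cos (3 * t) +
      -(1 / 4) * Real.sin (3 * m) * Real.sin (3 * t) =
      3 * c ^ 2 * Real.cos (t - m) - Real.cos (t - m) ^ 3 := by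
    have h4 : Real.cos (3 * t) * Real.cos (3 * m) + Real.sin (3 * t) * Real.sin (3 * m) =
        4 * Real.cos (t - m) ^ 3 - 3 * Real.cos (t - m) := by rw [← h3, h3']
    linear_combination (-(3 * c ^ 2 - 3 / 4)) * h1 - (1 / 4) * h4
  rw [← key]
  ring

theorem curve_period (t : ℝ) (k : ℤ) : φ (t + k * (2 * Real.pi)) = φ t := by
  have h1 : Real.cos (t + k * (2 * Real.pi)) = Real.cos t := Real.cos_add_int_mul_two_pi t k
  have h2 : Real.sin (t + k * (2 * Real.pi)) = Real.sin t := Real.sin_add_int_mul_two_pi t k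
  have h3 : Real.cos (3 * (t + k * (2 * Real.pi))) = Real.cos (3 * t) := by
    rw [show 3 * (t + k * (2 * Real.pi)) = 3 * t + ((3 * k : ℤ) : ℝ) * (2 * Real.pi) by
      push_cast; ring]
    exact Real.cos_add_int_mul_two_pi _ _
  have h4 : Real.sin (3 * (t + k * (2 * Real.pi))) = Real.sin (3 * t) := by
    rw [show 3 * (t + k * (2 * Real.pi)) = 3 * t + ((3 * k : ℤ) : ℝ) * (2 * Real.pi) by
      push_cast; ring]
    exact Real.sin_add_int_mul_two_pi _ _
  unfold φ
  rw [h1, h2, h3, h4]

theorem curve : Stmt_Curve := by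
  intro a b hc
  set c := Real.cos ((a - b) / 2) with hcdef
  set m := (a + b) / 2 with hm
  have hc0 : 0 < c := by linarith
  have hc3 : 0 < 2 * c ^ 3 := by positivity
  have ha : Real.cos (a - m) = c := by
    rw [hcdef, hm]; congr 1; ring
  have hb : Real.cos (b - m) = c := by
    rw [hcdef, hm, ← Real.cos_neg]; congr 1; ring
  have hval : (3 * c ^ 2 * c - c ^ 3) / (2 * c ^ 3) = 1 := by
    rw [div_eq_one_iff_eq hc3.ne']; ring
  refine ⟨curveL m c, ?_, ?_, ?_⟩
  · rw [curveL_apply, ha, hval]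
  · rw [curveL_apply, hb, hval]
  · intro t hta htb
    rw [curveL_apply, div_lt_one hc3]
    set x := Real.cos (t - m) with hx
    have hx1 : -1 ≤ x := Real.neg_one_le_cos _
    have hxc : x ≠ c := by
      intro h
      rw [hx, hcdef, Real.cos_eq_cos_iff] at h
      obtain ⟨k, hk | hk⟩ := h
      · -- (a - b)/2 = 2 k π + (t - m)
        apply hta
        rw [show t = a + ((-k : ℤ) : ℝ) * (2 * Real.pi) by
          push_cast; rw [hm] at hk; linarith]
        exact curve_period a (-k)
      · apply htb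
        rw [show t = b + (k : ℝ) * (2 * Real.pi) by
          rw [hm] at hk; linarith]
        exact curve_period b k
    have h1 : 0 < (x - c) ^ 2 * (x + 2 * c) := by
      apply mul_pos
      · exact sq_pos_of_ne_zero (sub_ne_zero.2 hxc)
      · linarith
    nlinarith [h1]

end Pool.CS4
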