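import Mathlib

/-!
# Centrally symmetric simplicial polytopes: faces, h-vector, g-vector

A polytope is given by the finite set `V` of its vertices, a face by the set of its vertices.
-/

open Finset

noncomputable section

namespace Pool.CS4

/-- Euclidean space with coordinates. -/
abbrev E (d : ℕ) : Type := Fin d → ℝ

/-- `F` is the vertex set of a face of the polytope `conv V` (the empty face and the whole
polytope included): some linear functional is constant on `F` and smaller on the other vertices. -/
def IsFace {d : ℕ} (V F : Finset (E d)) : Prop :=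
  F ⊆ V ∧ ∃ (l : E d →ₗ[ℝ] ℝ) (c : ℝ), (∀ v ∈ F, l v = c) ∧ ∀ v ∈ V, v ∉ F → l v < c

/-- `conv V` is a centrally symmetric simplicial `d`-polytope with vertex set `V`. -/
structure IsCSSimplicial (d : ℕ) (V : Finset (E d)) : Prop where
  /-- the vertices of `conv V` are the points of `V` -/
  ext : (convexHull ℝ (V : Set (E d))).extremePoints ℝ = (V : Set (E d))
  /-- `conv V` has dimension `d` -/
  full : (interior (convexHull ℝ (V : Set (E d)))).Nonempty
  /-- central symmetry -/
  symm : ∀ v ∈ V, -v ∈ V
  /-- every proper face is a simplex -/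
  simplicial : ∀ F : Finset (E d), IsFace V F → F ≠ V →
    AffineIndependent ℝ (fun v : {x // x ∈ F} => (v : E d))

open Classical in
/-- `fv V j` is the number of the proper faces of `conv V` with exactly `j` vertices. For a
simplicial polytope this is the number `f_{j-1}` of its faces of dimension `j - 1`. -/
def fv {d : ℕ} (V : Finset (E d)) (j : ℕ) : ℕ :=
  (V.powerset.filter fun F => IsFace V F ∧ F ≠ V ∧ F.card = j).card

/-- `h_i = ∑_{j ≤ i} (-1)^(i-j) * binom (d-j) (i-j) * f_{j-1}`. -/
def hv (d : ℕ) (V : Finset (E d)) (i : ℕ) : ℤ :=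
  ∑ j ∈ Finset.range (i + 1), (-1 : ℤ) ^ (i - j) * ((d - j).choose (i - j) : ℤ) * (fv V j : ℤ)

/-- `g_i = h_i - h_{i-1}` for `i ≥ 1`. -/
def gv (d : ℕ) (V : Finset (E d)) (i : ℕ) : ℤ := hv d V i - hv d V (i - 1)

end Pool.CS4
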