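import Pool.Agent.CS4.Stmts

/-!
Erdős-Stone for three classes, from the minimum degree version in Mathlib.
Paper: /team-store/CS4_paper.md, section 4.
-/

open Finset

noncomputable section

namespace Pool.CS4

open Classical in
/-- ordered adjacent pairs inside `Y` -/
def es_P {α : Type} (G : SimpleGraph α) (Y : Finset α) : ℕ :=
  ((Y ×ˢ Y).filter fun z => G.Adj z.1 z.2).card

open Classical in
/-- degree inside `Y` -/
def es_dg {α : Type} (G : SimpleGraph α) (Y : Finset α) (v : α) : ℕ :=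
  (Y.filter fun w => G.Adj v w).card

open Classical in
theorem es_erase {α : Type} (G : SimpleGraph α) (Y : Finset α) (v : α) :
    es_P G Y ≤ es_P G (Y.erase v) + 2 * es_dg G Y v := by
  have hsub : ((Y ×ˢ Y).filter fun z => G.Adj z.1 z.2) ⊆
      (((Y.erase v) ×ˢ (Y.erase v)).filter fun z => G.Adj z.1 z.2) ∪
      ((Y.filter fun w => G.Adj v w).image (fun w => (v, w)) ∪
       (Y.filter fun w => G.Adj v w).image (fun w => (w, v))) := by
    rintro ⟨a, b⟩ hab
    simp only [mem_filter, mem_product] at hab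
    obtain ⟨⟨ha, hb⟩, hadj⟩ := hab
    simp only [mem_union, mem_filter, mem_product, mem_erase, mem_image, Prod.mk.injEq]
    by_cases h1 : a = v
    · right; left
      exact ⟨b, ⟨hb, h1 ▸ hadj⟩, h1.symm, rfl⟩
    · by_cases h2 : b = v
      · right; right
        exact ⟨a, ⟨ha, h2 ▸ hadj.symm⟩, rfl, h2.symm⟩
      · left
        exact ⟨⟨⟨h1, ha⟩, ⟨h2, hb⟩⟩, hadj⟩
  have h1 := card_le_card hsub
  have h2 := card_union_le (((Y.erase v) ×ˢ (Y.erase v)).filter fun z => G.Adj z.1 z.2)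
      ((Y.filter fun w => G.Adj v w).image (fun w => (v, w)) ∪
       (Y.filter fun w => G.Adj v w).image (fun w => (w, v)))
  have h3 := card_union_le ((Y.filter fun w => G.Adj v w).image (fun w => (v, w)))
       ((Y.filter fun w => G.Adj v w).image (fun w => (w, v)))
  have h4 : ((Y.filter fun w => G.Adj v w).image (fun w => (v, w))).card ≤ es_dg G Y v :=
    card_image_le
  have h5 : ((Y.filter fun w => G.Adj v w).image (fun w => (w, v))).card ≤ es_dg G Y v :=
    card_image_le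
  unfold es_P
  omega

theorem es_P_le {α : Type} (G : SimpleGraph α) (Y : Finset α) :
    es_P G Y ≤ Y.card ^ 2 := by
  classical
  unfold es_P
  calc ((Y ×ˢ Y).filter fun z => G.Adj z.1 z.2).card ≤ (Y ×ˢ Y).card := card_filter_le _ _
    _ = Y.card ^ 2 := by rw [card_product, sq]

theorem es_descend {α : Type} (G : SimpleGraph α) (δ : ℝ) (m₀ : ℕ) :
    ∀ n : ℕ, m₀ ≤ n → ∀ Y : Finset α, Y.card = n →
      (∃ Z : Finset α, Z ⊆ Y ∧ m₀ ≤ Z.card ∧
        ∀ v ∈ Z, (1 / 2 + δ) * (Z.card : ℝ) ≤ (es_dg G Z v : ℝ)) ∨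
      (es_P G Y : ℝ) ≤ (m₀ : ℝ) ^ 2 + |1 / 2 + δ| * ((n : ℝ) ^ 2 + n) := by
  classical
  intro n hn
  induction n, hn using Nat.le_induction with
  | base =>
    intro Y hY
    right
    have h := es_P_le G Y
    rw [hY] at h
    have h' : (es_P G Y : ℝ) ≤ (m₀ : ℝ) ^ 2 := by exact_mod_cast h
    have : 0 ≤ |1 / 2 + δ| * ((m₀ : ℝ) ^ 2 + m₀) := by positivity
    linarith
  | succ n hn ih =>
    intro Y hY
    by_cases hdeg : ∀ v ∈ Y, (1 / 2 + δ) * (Y.card : ℝ) ≤ (es_dg G Y v : ℝ)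
    · left
      exact ⟨Y, Subset.refl _, by omega, hdeg⟩
    · push Not at hdeg
      obtain ⟨v, hv, hlt⟩ := hdeg
      have hc : (Y.erase v).card = n := by rw [card_erase_of_mem hv, hY]; rfl
      rcases ih (Y.erase v) hc with ⟨Z, hZ, hm, hd⟩ | hle
      · left
        exact ⟨Z, hZ.trans (erase_subset _ _), hm, hd⟩
      · right
        have h1 : (es_P G Y : ℝ) ≤ (es_P G (Y.erase v) : ℝ) + 2 * (es_dg G Y v : ℝ) := by
          exact_mod_cast es_erase G Y v
        rw [hY] at hlt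
        have h2 : (1 / 2 + δ) * ((n + 1 : ℕ) : ℝ) ≤ |1 / 2 + δ| * ((n + 1 : ℕ) : ℝ) :=
          mul_le_mul_of_nonneg_right (le_abs_self _) (by positivity)
        push_cast at h2 hlt ⊢
        nlinarith

theorem es_minDeg (δ : ℝ) (hδ : 0 < δ) (t : ℕ) : ∃ m₀ : ℕ, ∀ (α : Type) (Z : Finset α)
    (G : SimpleGraph α), m₀ ≤ Z.card →
    (∀ v ∈ Z, (1 / 2 + δ) * (Z.card : ℝ) ≤ (es_dg G Z v : ℝ)) →
    ∃ A : Fin 3 → Finset α, (∀ i, A i ⊆ Z ∧ (A i).card = t) ∧
    ∀ i j, i ≠ j → ∀ x ∈ A i, ∀ y ∈ A j, G.Adj x y := by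
  classical
  obtain ⟨m, hm⟩ := Filter.eventually_atTop.mp
    (SimpleGraph.eventually_completeEquipartiteGraph_isContained_of_minDegree hδ 2 t)
  refine ⟨max m 1, fun α Z G hcard hdeg => ?_⟩
  have hm1 : m ≤ Z.card := le_trans (le_max_left _ _) hcard
  have hm2 : 1 ≤ Z.card := le_trans (le_max_right _ _) hcard
  let e : Fin Z.card ≃ Z := Z.equivFin.symm
  let G' : SimpleGraph (Fin Z.card) := G.comap (fun i => (e i : α))
  have : Nonempty (Fin Z.card) := ⟨⟨0, hm2⟩⟩
  have hmin : (G'.minDegree : ℝ) ≥ (1 - 1 / ((2 : ℕ) : ℝ) + δ) * ((Z.card : ℕ) : ℝ) := by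
    obtain ⟨v, hv⟩ := G'.exists_minimal_degree_vertex
    rw [hv]
    have h1 := hdeg (e v) (e v).2
    have h2 : es_dg G Z (e v) = G'.degree v := by
      unfold es_dg
      rw [← SimpleGraph.card_neighborFinset_eq_degree]
      symm
      apply card_bij (fun i _ => (e i : α))
      · intro i hi
        rw [SimpleGraph.mem_neighborFinset] at hi
        rw [mem_filter]
        exact ⟨(e i).2, hi⟩
      · intro i _ j _ hij
        exact e.injective (Subtype.ext hij)
      · intro w hw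
        rw [mem_filter] at hw
        refine ⟨e.symm ⟨w, hw.1⟩, ?_, ?_⟩
        · rw [SimpleGraph.mem_neighborFinset]
          show G.Adj (e v : α) (e (e.symm ⟨w, hw.1⟩) : α)
          rw [Equiv.apply_symm_apply]
          exact hw.2
        · rw [Equiv.apply_symm_apply]
    rw [h2] at h1
    have : (1 - 1 / ((2 : ℕ) : ℝ) + δ) = 1 / 2 + δ := by norm_num
    rw [this]
    exact h1
  obtain ⟨f⟩ := hm Z.card hm1 (G := G') hmin
  refine ⟨fun i => univ.image (fun j : Fin t => (e (f (i, j)) : α)), fun i => ⟨?_, ?_⟩, ?_⟩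
  · intro x hx
    rw [mem_image] at hx
    obtain ⟨j, _, rfl⟩ := hx
    exact (e (f (i, j))).2
  · rw [card_image_of_injective, card_univ, Fintype.card_fin]
    intro j j' hjj
    have h1 := e.injective (Subtype.ext hjj)
    have h2 := f.injective h1
    exact (Prod.mk.injEq _ _ _ _ ▸ h2).2
  · intro i j hij x hx y hy
    rw [mem_image] at hx hy
    obtain ⟨a, _, rfl⟩ := hx
    obtain ⟨b, _, rfl⟩ := hy
    have : G'.Adj (f (i, a)) (f (j, b)) := by
      apply f.toHom.map_rel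
      rw [SimpleGraph.completeEquipartiteGraph_adj]
      exact hij
    exact this

theorem es : Stmt_ES := by
  classical
  intro ε t hε
  obtain ⟨m₀, hm₀⟩ := es_minDeg (ε / 2) (by positivity) t
  obtain ⟨K, hK⟩ := exists_nat_gt (2 * ((m₀ : ℝ) ^ 2 + 1 / 2 + ε / 2) / ε)
  refine ⟨max (max m₀ 1) K, fun α X G hcard hX => ?_⟩
  have h1 : m₀ ≤ X.card := le_trans (le_trans (le_max_left _ _) (le_max_left _ _)) hcard
  have h2 : 1 ≤ X.card := le_trans (le_trans (le_max_right _ _) (le_max_left _ _)) hcard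
  have h3 : K ≤ X.card := le_trans (le_max_right _ _) hcard
  have hX' : (1 / 2 + ε) * (X.card : ℝ) ^ 2 ≤ (es_P G X : ℝ) := by
    unfold es_P
    convert hX
  rcases es_descend G (ε / 2) m₀ X.card h1 X rfl with ⟨Z, hZ, hm, hd⟩ | hle
  · obtain ⟨A, hA, hA2⟩ := hm₀ α Z G hm hd
    exact ⟨A, fun i => ⟨(hA i).1.trans hZ, (hA i).2⟩, hA2⟩
  · exfalso
    rw [abs_of_pos (by positivity)] at hle
    have h2' : (1 : ℝ) ≤ X.card := by exact_mod_cast h2
    have h3' : (K : ℝ) ≤ X.card := by exact_mod_cast h3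
    have hN : 2 * ((m₀ : ℝ) ^ 2 + 1 / 2 + ε / 2) / ε < X.card := lt_of_lt_of_le hK h3'
    rw [div_lt_iff₀ hε] at hN
    set N : ℝ := (X.card : ℝ) with hNdef
    have h4 : 2 * ((m₀ : ℝ) ^ 2 + 1 / 2 + ε / 2) * N < N * ε * N :=
      mul_lt_mul_of_pos_right hN (by linarith)
    have h5 : (m₀ : ℝ) ^ 2 ≤ (m₀ : ℝ) ^ 2 * N := le_mul_of_one_le_right (by positivity) h2'
    nlinarith

end Pool.CS4
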