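import Pool.Agent.CS4.Stmts

/-!
`g_2` of a centrally symmetric simplicial 4-polytope in terms of the number of edges.
-/

open Finset

noncomputable section

namespace Pool.CS4

/-- the empty face -/
theorem g2_empty {d : ℕ} (V : Finset (E d)) : IsFace V ∅ := by
  refine ⟨Finset.empty_subset _, 0, 1, ?_, ?_⟩
  · intro v hv
    simp at hv
  · intro v _ _
    simp

/-- every vertex is a face -/
theorem g2_vertex {d : ℕ} (V : Finset (E d))
    (hext : (convexHull ℝ (V : Set (E d))).extremePoints ℝ = (V : Set (E d)))
    (v : E d) (hv : v ∈ V) : IsFace V {v} := by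
  classical
  have hnot : v ∉ convexHull ℝ ((V.erase v : Finset (E d)) : Set (E d)) := by
    intro hmem
    have h1 : v ∈ (convexHull ℝ (V : Set (E d))).extremePoints ℝ := by
      rw [hext]
      exact_mod_cast hv
    have hsub : convexHull ℝ ((V.erase v : Finset (E d)) : Set (E d)) ⊆
        convexHull ℝ (V : Set (E d)) := by
      apply convexHull_mono
      intro x hx
      exact_mod_cast Finset.mem_of_mem_erase (by exact_mod_cast hx)
    have h2 : v ∈ (convexHull ℝ ((V.erase v : Finset (E d)) : Set (E d))).extremePoints ℝ := by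
      refine ⟨hmem, ?_⟩
      intro x hx y hy hxy
      exact h1.2 (hsub hx) (hsub hy) hxy
    have h3 := extremePoints_convexHull_subset h2
    simp at h3
  have hcomp : IsCompact (convexHull ℝ ((V.erase v : Finset (E d)) : Set (E d))) :=
    (V.erase v).finite_toSet.isCompact_convexHull ℝ
  obtain ⟨f, u, hf1, hf2⟩ := geometric_hahn_banach_closed_point
    (convex_convexHull ℝ ((V.erase v : Finset (E d)) : Set (E d))) hcomp.isClosed hnot
  refine ⟨by simpa using hv, (f : E d →ₗ[ℝ] ℝ), f v, ?_, ?_⟩
  · intro w hw
    rw [Finset.mem_singleton] at hw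
    rw [hw]
    rfl
  · intro w hw hwv
    have h4 : w ∈ convexHull ℝ ((V.erase v : Finset (E d)) : Set (E d)) := by
      apply subset_convexHull
      have : w ≠ v := by
        intro h
        exact hwv (by simp [h])
      exact_mod_cast Finset.mem_erase.mpr ⟨this, hw⟩
    exact lt_trans (hf1 w h4) hf2

/-- `f_{-1} = 1` -/
theorem g2_fv0 {d : ℕ} (V : Finset (E d)) (hV : 3 ≤ V.card) : fv V 0 = 1 := by
  classical
  unfold fv
  have : (V.powerset.filter fun F => IsFace V F ∧ F ≠ V ∧ F.card = 0) = {∅} := by
    ext F
    simp only [Finset.mem_filter, Finset.mem_powerset, Finset.mem_singleton]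
    constructor
    · rintro ⟨_, _, _, h⟩
      exact Finset.card_eq_zero.mp h
    · rintro rfl
      refine ⟨Finset.empty_subset _, g2_empty V, ?_, Finset.card_empty⟩
      intro h
      rw [← h] at hV
      simp at hV
  calc (V.powerset.filter fun F => IsFace V F ∧ F ≠ V ∧ F.card = 0).card
      = ({∅} : Finset (Finset (E d))).card := by
        rw [← this]
    _ = 1 := Finset.card_singleton _

/-- `f_0` is the number of vertices -/
theorem g2_fv1 {d : ℕ} (V : Finset (E d)) (hV : 3 ≤ V.card)
    (hext : (convexHull ℝ (V : Set (E d))).extremePoints ℝ = (V : Set (E d))) :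
    fv V 1 = V.card := by
  classical
  unfold fv
  have : (V.powerset.filter fun F => IsFace V F ∧ F ≠ V ∧ F.card = 1) =
      V.image (fun v => ({v} : Finset (E d))) := by
    ext F
    simp only [Finset.mem_filter, Finset.mem_powerset, Finset.mem_image]
    constructor
    · rintro ⟨h1, _, _, h⟩
      obtain ⟨v, rfl⟩ := Finset.card_eq_one.mp h
      exact ⟨v, by simpa using h1, rfl⟩
    · rintro ⟨v, hv, rfl⟩
      refine ⟨by simpa using hv, g2_vertex V hext v hv, ?_, Finset.card_singleton _⟩
      intro h
      rw [← h] at hV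
      simp at hV
  calc (V.powerset.filter fun F => IsFace V F ∧ F ≠ V ∧ F.card = 1).card
      = (V.image (fun v => ({v} : Finset (E d)))).card := by
        rw [← this]
    _ = V.card := Finset.card_image_of_injective _ Finset.singleton_injective

theorem g2 : Stmt_g2 := by
  intro V h hV
  have h0 := g2_fv0 V hV
  have h1 := g2_fv1 V hV h.ext
  unfold gv hv
  simp only [Finset.sum_range_succ, Finset.sum_range_zero]
  rw [h0, h1]
  norm_num [Nat.choose]
  ring

end Pool.CS4
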