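import Pool.Agent.CS4.Gap

/-!
Basic facts on configurations: number of points, cross-polytopes, a facet.
-/

open Finset Filter Topology

noncomputable section

namespace Pool.CS4

lemma lexGBase {d : ℕ} (v : E d) (hv : v ≠ 0) :
    (0 < toLex v ∧ ¬ 0 < toLex (-v)) ∨ (¬ 0 < toLex v ∧ 0 < toLex (-v)) := by
  have h1 : toLex (-v) = - toLex v := rfl
  have h2 : toLex v ≠ 0 := by
    intro h
    exact hv h
  rw [h1]
  rcases lt_trichotomy (toLex v) 0 with h | h | h
  · right
    exact ⟨not_lt.2 h.le, neg_pos.2 h⟩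
  · exact absurd h h2
  · left
    exact ⟨h, not_lt.2 (neg_nonpos.2 h.le)⟩

/-- one point of each antipodal pair -/
def halfGBase {d : ℕ} (V : Finset (E d)) : Finset (E d) := by
  classical
  exact V.filter fun v => 0 < toLex v

lemma mem_halfGBase {d : ℕ} {V : Finset (E d)} {v : E d} :
    v ∈ halfGBase V ↔ v ∈ V ∧ 0 < toLex v := by
  classical
  exact Finset.mem_filter

lemma card_halfGBase {d : ℕ} {V : Finset (E d)} (hs : ∀ v ∈ V, -v ∈ V) (h0 : (0 : E d) ∉ V) :
    V.card = 2 * (halfGBase V).card := by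
  classical
  have hne : ∀ v ∈ V, v ≠ 0 := fun v hv h => h0 (h ▸ hv)
  have h1 := Finset.card_filter_add_card_filter_not (s := V) (fun v : E d => 0 < toLex v)
  have h2 : (V.filter fun v : E d => ¬ 0 < toLex v).card
      = (V.filter fun v : E d => 0 < toLex v).card := by
    refine Finset.card_bij (fun v _ => -v) ?_ ?_ ?_
    · intro v hv
      rw [Finset.mem_filter] at hv ⊢
      refine ⟨hs v hv.1, ?_⟩
      rcases lexGBase v (hne v hv.1) with h | h
      · exact absurd h.1 hv.2
      · exact h.2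
    · intro a _ b _ h
      exact neg_injective h
    · intro v hv
      rw [Finset.mem_filter] at hv
      refine ⟨-v, ?_, neg_neg v⟩
      rw [Finset.mem_filter]
      refine ⟨hs v hv.1, ?_⟩
      rcases lexGBase v (hne v hv.1) with h | h
      · exact h.2
      · exact absurd hv.2 h.1
  have h3 : (halfGBase V).card = (V.filter fun v : E d => 0 < toLex v).card := by
    unfold halfGBase
    congr
  rw [h3]
  omega

lemma cover_halfGBase {d : ℕ} {V : Finset (E d)} (hs : ∀ v ∈ V, -v ∈ V) (h0 : (0 : E d) ∉ V)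
    {v : E d} (hv : v ∈ V) : v ∈ halfGBase V ∨ -v ∈ halfGBase V := by
  rw [mem_halfGBase, mem_halfGBase]
  rcases lexGBase v (fun h => h0 (h ▸ hv)) with h | h
  · exact Or.inl ⟨hv, h.1⟩
  · exact Or.inr ⟨hs v hv, h.2⟩

lemma noAnti_halfGBase {d : ℕ} {V : Finset (E d)} (h0 : (0 : E d) ∉ V) :
    NoAnti (halfGBase V) := by
  intro x hx hx'
  rw [mem_halfGBase] at hx hx'
  rcases lexGBase x (fun h => h0 (h ▸ hx.1)) with h | h
  · exact h.2 hx'.2
  · exact h.1 hx.2

lemma span_halfGBase {d : ℕ} {V : Finset (E d)} (hs : ∀ v ∈ V, -v ∈ V) (h0 : (0 : E d) ∉ V)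
    (hsp : Submodule.span ℝ (V : Set (E d)) = ⊤) :
    Submodule.span ℝ (halfGBase V : Set (E d)) = ⊤ := by
  rw [eq_top_iff, ← hsp, Submodule.span_le]
  intro v hv
  rcases cover_halfGBase hs h0 hv with h | h
  · exact Submodule.subset_span h
  · have := Submodule.neg_mem _ (Submodule.subset_span (R := ℝ) h)
    rwa [neg_neg] at this

lemma zeroGBase {d : ℕ} {V : Finset (E d)} (hc : Cvx V) : (0 : E d) ∉ V := by
  intro h
  obtain ⟨l, hl, _⟩ := hc 0 h
  rw [map_zero] at hl
  norm_num at hl

lemma twoGBase {d : ℕ} {V : Finset (E d)} (hc : Cvx V) {v : E d} (hv : v ∈ V) :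
    (2 : ℝ) • v ∉ convexHull ℝ (V : Set (E d)) := by
  intro h
  obtain ⟨l, hl, hl'⟩ := hc v hv
  have h1 : convexHull ℝ (V : Set (E d)) ⊆ {x | l x ≤ 1} := by
    apply convexHull_min
    · intro u hu
      by_cases huv : u = v
      · rw [huv]
        exact hl.le
      · exact (hl' u hu huv).le
    · exact convex_halfSpace_le l.isLinear 1
  have h2 : l ((2 : ℝ) • v) ≤ 1 := h1 h
  rw [map_smul, hl] at h2
  norm_num at h2

lemma edgGBase {d : ℕ} {V : Finset (E d)} (hV : Conf d V) (hc : (halfGBase V).card = d)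
    {x y : E d} (hx : x ∈ V) (hy : y ∈ V) (hxy : x ≠ y) (hxy' : x ≠ -y) : Edg V x y := by
  classical
  have h0 := zeroGBase hV.cvx
  have hsub : halfGBase V ⊆ V := fun v hv => (mem_halfGBase.1 hv).1
  have hli := (hV.gp _ hsub (noAnti_halfGBase h0)).1 hc.le
  have hsp := span_halfGBase hV.symm h0 hV.span
  let b : Module.Basis {v // v ∈ halfGBase V} ℝ (E d) := Module.Basis.mk hli (by
    rw [Subtype.range_coe_subtype]
    exact hsp.ge)
  have hb : ∀ v : {v // v ∈ halfGBase V}, b v = v := fun v => by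
    simp [b]
  let l : E d →ₗ[ℝ] ℝ := b.constr ℝ fun v =>
    if (v : E d) = x ∨ (v : E d) = y then 1 else if (v : E d) = -x ∨ (v : E d) = -y then -1 else 0
  have hl : ∀ v ∈ halfGBase V, l v =
      if v = x ∨ v = y then 1 else if v = -x ∨ v = -y then -1 else 0 := by
    intro v hv
    have := b.constr_basis ℝ (fun v : {v // v ∈ halfGBase V} =>
      (if (v : E d) = x ∨ (v : E d) = y then 1 else
        if (v : E d) = -x ∨ (v : E d) = -y then -1 else 0 : ℝ)) ⟨v, hv⟩
    rw [hb] at this
    exact this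
  have hxn : x ≠ -x := by
    intro h
    apply h0
    have : x = 0 := self_eq_neg.1 h
    rwa [this] at hx
  have hyn : y ≠ -y := by
    intro h
    apply h0
    have : y = 0 := self_eq_neg.1 h
    rwa [this] at hy
  have hyx : y ≠ -x := fun h => hxy' (by rw [h, neg_neg])
  refine ⟨hxy, l, ?_, ?_, ?_⟩
  · rcases cover_halfGBase hV.symm h0 hx with h | h
    · rw [hl x h, if_pos (Or.inl rfl)]
    · have h1 := hl (-x) h
      rw [if_neg, if_pos (Or.inl rfl), map_neg] at h1
      · linarith
      · rintro (h2 | h2)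
        · exact hxn h2.symm
        · exact hyx h2.symm
  · rcases cover_halfGBase hV.symm h0 hy with h | h
    · rw [hl y h, if_pos (Or.inr rfl)]
    · have h1 := hl (-y) h
      rw [if_neg, if_pos (Or.inr rfl), map_neg] at h1
      · linarith
      · rintro (h2 | h2)
        · exact hxy' h2.symm
        · exact hyn h2.symm
  · intro u hu hux huy
    rcases cover_halfGBase hV.symm h0 hu with h | h
    · rw [hl u h, if_neg (by tauto)]
      split_ifs <;> norm_num
    · have h1 := hl (-u) h
      have h2 : ¬ (-u = -x ∨ -u = -y) := by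
        rw [neg_inj, neg_inj]
        tauto
      rw [if_neg h2, map_neg] at h1
      split_ifs at h1 <;> linarith

theorem gbase (h : Stmt_Fac) : Stmt_Base := by
  classical
  intro d V hd hV
  have h0 := zeroGBase hV.cvx
  have hcard := card_halfGBase hV.symm h0
  have hge : d ≤ (halfGBase V).card := by
    have h1 := finrank_span_finset_le_card (R := ℝ) (halfGBase V)
    rw [Set.finrank, span_halfGBase hV.symm h0 hV.span, finrank_top] at h1
    simpa [E] using h1
  refine ⟨by omega, fun hc => ?_, ⟨(halfGBase V).card, by omega⟩, ?_⟩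
  · have hc' : (halfGBase V).card = d := by omega
    unfold ne
    have h1 : ((V ×ˢ V).filter fun z : E d × E d => Edg V z.1 z.2) =
        (V.sigma (fun x => (V.erase x).erase (-x))).map
          (Equiv.sigmaEquivProd _ _).toEmbedding := by
      ext ⟨x, y⟩
      simp only [Finset.mem_filter, Finset.mem_product, Finset.mem_map, Finset.mem_sigma,
        Finset.mem_erase, Sigma.exists]
      constructor
      · rintro ⟨⟨hx, hy⟩, hne, l, hlx, hly, -⟩
        refine ⟨x, y, ⟨hx, ?_, hne.symm, hy⟩, rfl⟩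
        rintro rfl
        rw [map_neg, hlx] at hly
        norm_num at hly
      · rintro ⟨a, b, ⟨ha, hb1, hb2, hb3⟩, heq⟩
        obtain ⟨rfl, rfl⟩ : a = x ∧ b = y := by
          simpa using heq
        refine ⟨⟨ha, hb3⟩, edgGBase hV hc' ha hb3 hb2.symm ?_⟩
        intro h2
        exact hb1 (by rw [h2, neg_neg])
    have h2 : ((V ×ˢ V).filter fun z : E d × E d => Edg V z.1 z.2).card = ∑ x ∈ V, (2 * d - 2) := by
      rw [h1, Finset.card_map, Finset.card_sigma]
      refine Finset.sum_congr rfl fun x hx => ?_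
      rw [Finset.card_erase_of_mem, Finset.card_erase_of_mem hx, hc]
      · omega
      · rw [Finset.mem_erase]
        refine ⟨?_, hV.symm x hx⟩
        intro h3
        apply h0
        have : x = 0 := neg_eq_self.1 h3
        rwa [this] at hx
    have h3 : ((V ×ˢ V).filter fun z : E d × E d => Edg V z.1 z.2).card = 4 * (d * (d - 1)) := by
      rw [h2, Finset.sum_const, hc, smul_eq_mul]
      obtain ⟨e, rfl⟩ : ∃ e, d = e + 1 := ⟨d - 1, by omega⟩
      have e1 : 2 * (e + 1) - 2 = 2 * e := by omega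
      have e2 : e + 1 - 1 = e := by omega
      rw [e1, e2]
      ring
    convert h3
  · have hVne : V.Nonempty := by
      rw [← Finset.card_pos]
      omega
    obtain ⟨v, hv⟩ := hVne
    obtain ⟨l, F, hF, -⟩ := h d V ((2 : ℝ) • v) (by omega) hV (twoGBase hV.cvx hv)
    exact ⟨l, F, hF⟩

end Pool.CS4
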