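import Pool.Agent.CS4.Gap

/-! Module GConf of the MP_54ed1a_co project: configurations are simplicial polytopes. -/

open Finset Filter Topology

noncomputable section

namespace Pool.CS4

/-- a strictly separated point is extreme -/
theorem gconf_extreme {d : ℕ} (V : Finset (E d)) (v : E d) (hv : v ∈ V) (l : E d →ₗ[ℝ] ℝ)
    (h1 : l v = 1) (h2 : ∀ w ∈ V, w ≠ v → l w < 1) :
    v ∈ (convexHull ℝ (V : Set (E d))).extremePoints ℝ := by
  have key : ∀ y ∈ convexHull ℝ (V : Set (E d)), l y ≤ 1 ∧ (1 ≤ l y → y = v) := by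
    intro y hy
    rcases Set.eq_empty_or_nonempty ((V : Set (E d)) \ {v}) with he | hne
    · have hV : (V : Set (E d)) ⊆ {v} := by
        rw [Set.sdiff_eq_empty] at he
        exact he
      have : y ∈ ({v} : Set (E d)) := by
        have := convexHull_mono hV hy
        rwa [convexHull_singleton] at this
      rw [Set.mem_singleton_iff] at this
      rw [this]
      exact ⟨h1.le, fun _ => rfl⟩
    · have hins : (V : Set (E d)) = insert v ((V : Set (E d)) \ {v}) := by
        rw [Set.insert_sdiff_singleton, Set.insert_eq_of_mem]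
        exact hv
      rw [hins, convexHull_insert hne, mem_convexJoin] at hy
      obtain ⟨a, ha, b, hb, hy⟩ := hy
      rw [Set.mem_singleton_iff] at ha
      subst ha
      have hlb : l b < 1 := by
        have hsub : convexHull ℝ ((V : Set (E d)) \ {a}) ⊆ {x | l x < 1} := by
          apply convexHull_min
          · intro w hw
            exact h2 w hw.1 hw.2
          · exact convex_halfSpace_lt l.isLinear 1
        exact hsub hb
      obtain ⟨p, q, hp, hq, hpq, rfl⟩ := hy
      have hl : l (p • a + q • b) = p + q * l b := by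
        rw [map_add, map_smul, map_smul, h1]
        simp
      rw [hl]
      refine ⟨by nlinarith, fun h => ?_⟩
      have hq0 : q = 0 := by
        by_contra hne
        have hqpos : 0 < q := lt_of_le_of_ne hq (Ne.symm hne)
        nlinarith
      have hp1 : p = 1 := by linarith
      rw [hq0, hp1]
      simp
  rw [mem_extremePoints]
  refine ⟨subset_convexHull ℝ _ hv, ?_⟩
  intro x₁ hx₁ x₂ hx₂ hseg
  obtain ⟨p, q, hp, hq, hpq, hx⟩ := hseg
  have hl : p * l x₁ + q * l x₂ = 1 := by
    have := congrArg l hx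
    rw [map_add, map_smul, map_smul, h1] at this
    simpa using this
  obtain ⟨a1, b1⟩ := key x₁ hx₁
  obtain ⟨a2, b2⟩ := key x₂ hx₂
  constructor
  · apply b1
    by_contra hlt
    push Not at hlt
    nlinarith
  · apply b2
    by_contra hlt
    push Not at hlt
    nlinarith

/-- a proper face has a positive level -/
theorem gconf_pos {d : ℕ} {V F : Finset (E d)} (hs : ∀ v ∈ V, -v ∈ V) (hF : F ⊆ V)
    (l : E d →ₗ[ℝ] ℝ) (c : ℝ) (h1 : ∀ v ∈ F, l v = c) (h2 : ∀ v ∈ V, v ∉ F → l v < c)
    (hne : F ≠ V) : 0 < c := by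
  obtain ⟨v, hv, hv'⟩ : ∃ v ∈ V, v ∉ F := by
    by_contra h
    push Not at h
    exact hne (Finset.Subset.antisymm hF h)
  have h3 := h2 v hv hv'
  have h4 : l (-v) ≤ c := by
    by_cases h : -v ∈ F
    · exact (h1 _ h).le
    · exact (h2 _ (hs v hv) h).le
  rw [map_neg] at h4
  linarith

theorem gconf_full {d : ℕ} (hd : 1 ≤ d) (V : Finset (E d)) (hs : ∀ v ∈ V, -v ∈ V)
    (hsp : Submodule.span ℝ (V : Set (E d)) = ⊤) :
    (interior (convexHull ℝ (V : Set (E d)))).Nonempty := by
  rw [interior_convexHull_nonempty_iff_affineSpan_eq_top]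
  have hne : (V : Set (E d)).Nonempty := by
    by_contra h
    rw [Set.not_nonempty_iff_eq_empty] at h
    rw [h, Submodule.span_empty] at hsp
    have : Nontrivial (E d) := by
      have : Nonempty (Fin d) := ⟨⟨0, hd⟩⟩
      infer_instance
    exact bot_ne_top hsp
  obtain ⟨v, hv⟩ := hne
  have h0 : (0 : E d) ∈ affineSpan ℝ (V : Set (E d)) := by
    have h1 : v ∈ affineSpan ℝ (V : Set (E d)) := subset_affineSpan ℝ _ hv
    have h2 : -v ∈ affineSpan ℝ (V : Set (E d)) := subset_affineSpan ℝ _ (hs v hv)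
    have h3 := AffineMap.lineMap_mem (1 / 2 : ℝ) h1 h2
    have h4 : AffineMap.lineMap v (-v) (1 / 2 : ℝ) = (0 : E d) := by
      rw [AffineMap.lineMap_apply_module]
      have : (1 - 1 / 2 : ℝ) = 1 / 2 := by norm_num
      rw [this, smul_neg, add_neg_cancel]
    rwa [h4] at h3
  have h5 : affineSpan ℝ (insert (0 : E d) (V : Set (E d))) = affineSpan ℝ (V : Set (E d)) :=
    affineSpan_insert_eq_affineSpan ℝ h0
  have h6 : (affineSpan ℝ (insert (0 : E d) (V : Set (E d))) : Set (E d))
      = Submodule.span ℝ (V : Set (E d)) := affineSpan_insert_zero _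
  rw [h5, hsp] at h6
  apply SetLike.coe_injective
  rw [h6]
  simp

theorem gconf_face {d : ℕ} (V F : Finset (E d)) (hs : ∀ v ∈ V, -v ∈ V) (hG : GP V)
    (hF : IsFace V F) (hne : F ≠ V) :
    AffineIndependent ℝ (fun v : {x // x ∈ F} => (v : E d)) := by
  obtain ⟨hFV, l, c, h1, h2⟩ := hF
  have hc := gconf_pos hs hFV l c h1 h2 hne
  have hNA : NoAnti F := by
    intro x hx hx'
    have e1 := h1 x hx
    have e2 := h1 _ hx'
    rw [map_neg] at e2
    linarith
  have hcard : F.card ≤ d := by
    by_contra hlt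
    push Not at hlt
    obtain ⟨S, hSF, hS⟩ := Finset.exists_subset_card_eq hlt
    have hSN : NoAnti S := fun x hx hx' => hNA x (hSF hx) (hSF hx')
    have hA := (hG S (hSF.trans hFV) hSN).2 hS.le
    have hfr : Module.finrank ℝ (E d) = d := by simp
    have htop : affineSpan ℝ (Set.range (fun x : {x // x ∈ S} => (x : E d))) = ⊤ := by
      rw [hA.affineSpan_eq_top_iff_card_eq_finrank_add_one, hfr, Fintype.card_coe, hS]
    obtain ⟨p, hp⟩ : S.Nonempty := by
      rw [← Finset.card_pos, hS]
      omega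
    have hle : affineSpan ℝ (Set.range (fun x : {x // x ∈ S} => (x : E d)))
        ≤ AffineSubspace.mk' p (LinearMap.ker l) := by
      rw [affineSpan_le]
      rintro _ ⟨x, rfl⟩
      rw [SetLike.mem_coe, AffineSubspace.mem_mk', LinearMap.mem_ker, vsub_eq_sub, map_sub,
        h1 _ (hSF x.2), h1 _ (hSF hp), sub_self]
    rw [htop] at hle
    have h0 : (0 : E d) ∈ AffineSubspace.mk' p (LinearMap.ker l) := hle trivial
    rw [AffineSubspace.mem_mk', LinearMap.mem_ker, vsub_eq_sub, map_sub, map_zero,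
      h1 _ (hSF hp)] at h0
    linarith
  exact (hG F hFV hNA).2 (by omega)

theorem gconf_edg {d : ℕ} [DecidableEq (E d)] (V : Finset (E d)) (hs : ∀ v ∈ V, -v ∈ V)
    {x y : E d} (hx : x ∈ V) (hy : y ∈ V) :
    Edg V x y ↔ x ≠ y ∧ IsFace V {x, y} ∧ ({x, y} : Finset (E d)) ≠ V := by
  constructor
  · rintro ⟨hxy, l, h1, h2, h3⟩
    refine ⟨hxy, ⟨?_, l, 1, ?_, ?_⟩, ?_⟩
    · intro z hz
      rcases Finset.mem_insert.1 hz with rfl | hz
      · exact hx
      · rw [Finset.mem_singleton.1 hz]; exact hy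
    · intro z hz
      rcases Finset.mem_insert.1 hz with rfl | hz
      · exact h1
      · rw [Finset.mem_singleton.1 hz]; exact h2
    · intro z hz hz'
      have : z ≠ x ∧ z ≠ y := by simpa using hz'
      exact h3 z hz this.1 this.2
    · intro he
      have h4 : -x ∈ ({x, y} : Finset (E d)) := he ▸ hs x hx
      have h5 : l (-x) = 1 := by
        rcases Finset.mem_insert.1 h4 with h | h
        · rw [h, h1]
        · rw [Finset.mem_singleton.1 h, h2]
      rw [map_neg, h1] at h5
      linarith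
  · rintro ⟨hxy, ⟨hF, l, c, h1, h2⟩, hne⟩
    have hc := gconf_pos hs hF l c h1 h2 hne
    refine ⟨hxy, c⁻¹ • l, ?_, ?_, ?_⟩
    · rw [LinearMap.smul_apply, h1 x (by simp), smul_eq_mul, inv_mul_cancel₀ hc.ne']
    · rw [LinearMap.smul_apply, h1 y (by simp), smul_eq_mul, inv_mul_cancel₀ hc.ne']
    · intro u hu h3 h4
      have h5 := h2 u hu (by simp [h3, h4])
      rw [LinearMap.smul_apply, smul_eq_mul, inv_mul_lt_iff₀ hc, mul_one]
      exact h5

theorem gconf_count {d : ℕ} (V : Finset (E d)) (hs : ∀ v ∈ V, -v ∈ V) :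
    ne V = 2 * fv V 2 := by
  classical
  unfold ne fv
  set A := (V ×ˢ V).filter fun z => Edg V z.1 z.2 with hA
  set B := V.powerset.filter fun F => IsFace V F ∧ F ≠ V ∧ F.card = 2 with hB
  have hmap : ∀ z ∈ A, ({z.1, z.2} : Finset (E d)) ∈ B := by
    intro z hz
    rw [hA, Finset.mem_filter, Finset.mem_product] at hz
    obtain ⟨⟨hx, hy⟩, he⟩ := hz
    obtain ⟨h1, h2, h3⟩ := (gconf_edg V hs hx hy).1 he
    rw [hB, Finset.mem_filter, Finset.mem_powerset]
    exact ⟨h2.1, h2, h3, Finset.card_pair h1⟩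
  have hfib : ∀ F ∈ B, (A.filter fun z => ({z.1, z.2} : Finset (E d)) = F).card = 2 := by
    intro F hF
    rw [hB, Finset.mem_filter, Finset.mem_powerset] at hF
    obtain ⟨hFV, h1, h2, h3⟩ := hF
    obtain ⟨x, y, hxy, rfl⟩ := Finset.card_eq_two.1 h3
    have hx : x ∈ V := hFV (by simp)
    have hy : y ∈ V := hFV (by simp)
    have : A.filter (fun z => ({z.1, z.2} : Finset (E d)) = {x, y}) = {(x, y), (y, x)} := by
      ext z
      rw [Finset.mem_filter, hA, Finset.mem_filter, Finset.mem_product, Finset.mem_insert,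
        Finset.mem_singleton]
      constructor
      · rintro ⟨⟨-, he⟩, hz⟩
        have hz1 : z.1 ∈ ({x, y} : Finset (E d)) := hz ▸ (by simp)
        have hz2 : z.2 ∈ ({x, y} : Finset (E d)) := hz ▸ (by simp)
        have hne := he.1
        rcases Finset.mem_insert.1 hz1 with h | h
        · rcases Finset.mem_insert.1 hz2 with h' | h'
          · exact absurd (h.trans h'.symm) hne
          · left
            exact Prod.ext h (Finset.mem_singleton.1 h')
        · rcases Finset.mem_insert.1 hz2 with h' | h'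
          · right
            exact Prod.ext (Finset.mem_singleton.1 h) h'
          · exact absurd ((Finset.mem_singleton.1 h).trans (Finset.mem_singleton.1 h').symm) hne
      · rintro (rfl | rfl)
        · exact ⟨⟨⟨hx, hy⟩, (gconf_edg V hs hx hy).2 ⟨hxy, h1, h2⟩⟩, rfl⟩
        · have e : ({y, x} : Finset (E d)) = {x, y} := Finset.pair_comm y x
          exact ⟨⟨⟨hy, hx⟩, (gconf_edg V hs hy hx).2 ⟨hxy.symm, by rwa [e], by rwa [e]⟩⟩, e⟩
    rw [this, Finset.card_pair]
    intro h
    exact hxy (Prod.ext_iff.1 h).1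
  rw [Finset.card_eq_sum_card_fiberwise hmap, Finset.sum_congr rfl hfib, Finset.sum_const,
    smul_eq_mul, mul_comm]

theorem gconf : Stmt_Conf := by
  intro d V hd hV
  refine ⟨⟨?_, gconf_full (by omega) V hV.symm hV.span, hV.symm,
    fun F hF hne => gconf_face V F hV.symm hV.gp hF hne⟩, gconf_count V hV.symm⟩
  apply Set.Subset.antisymm extremePoints_convexHull_subset
  intro v hv
  obtain ⟨l, h1, h2⟩ := hV.cvx v hv
  exact gconf_extreme V v hv l h1 h2

end Pool.CS4
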