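import Pool.Agent.CS4.Gap

/-! At most one antipodal pair of segments is weakly supported but not an edge. -/

open Finset Filter Topology Classical

noncomputable section

namespace Pool.CS4

/-- linear functionals with prescribed values on a linearly independent set -/
lemma gexcep_ext {d : ℕ} {S : Finset (E d)}
    (hS : LinearIndependent ℝ (fun x : {x // x ∈ S} => (x : E d))) (μ : E d → ℝ) :
    ∃ m : E d →ₗ[ℝ] ℝ, ∀ v ∈ S, m v = μ v := by
  let b := Module.Basis.span hS
  obtain ⟨g, hg⟩ := LinearMap.exists_extend (b.constr ℝ (fun x : {x // x ∈ S} => μ x))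
  refine ⟨g, fun v hv => ?_⟩
  have h1 := congrArg (fun f => f (b ⟨v, hv⟩)) hg
  simp only [LinearMap.comp_apply, Submodule.subtype_apply, Module.Basis.constr_basis] at h1
  rw [← h1, Module.Basis.span_apply]

lemma gexcep_mem_add {d : ℕ} {V : Finset (E d)} {w u : E d} :
    u ∈ add V w ↔ u = w ∨ u = -w ∨ u ∈ V := by
  unfold add
  rw [Finset.mem_insert, Finset.mem_insert]

lemma gexcep_neg_mem {d : ℕ} {V : Finset (E d)} (hV : ∀ v ∈ V, -v ∈ V) {w u : E d}
    (hu : u ∈ add V w) : -u ∈ add V w := by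
  rw [gexcep_mem_add] at hu ⊢
  rcases hu with rfl | rfl | h
  · exact Or.inr (Or.inl rfl)
  · exact Or.inl (neg_neg _)
  · exact Or.inr (Or.inr (hV _ h))

/-- perturbing a weak functional -/
lemma gexcep_edge {d : ℕ} {W : Finset (E d)} {x y : E d} (hxy : x ≠ y) {l m : E d →ₗ[ℝ] ℝ}
    (hx : l x = 1) (hy : l y = 1) (hl : ∀ u ∈ W, l u ≤ 1) (mx : m x = 0) (my : m y = 0)
    (hm : ∀ u ∈ W, l u = 1 → u ≠ x → u ≠ y → 0 < m u) : Edg W x y := by
  have h1 : ∃ η : ℝ, 0 < η ∧ ∀ u ∈ W, u ≠ x → u ≠ y → l u - η * m u < 1 := by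
    have h2 : ∀ u ∈ W, ∀ᶠ η in 𝓝[>] (0 : ℝ), u ≠ x → u ≠ y → l u - η * m u < 1 := by
      intro u hu
      rcases (hl u hu).lt_or_eq with h3 | h3
      · have h4 : Tendsto (fun η : ℝ => l u - η * m u) (𝓝 0) (𝓝 (l u - 0 * m u)) := by
          apply Continuous.tendsto
          fun_prop
        rw [zero_mul, sub_zero] at h4
        have h5 := h4.eventually (gt_mem_nhds h3)
        exact (h5.filter_mono nhdsWithin_le_nhds).mono fun η h _ _ => h
      · filter_upwards [self_mem_nhdsWithin] with η hη h4 h5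
        have h6 := hm u hu h3 h4 h5
        have h7 : 0 < η * m u := mul_pos hη h6
        linarith
    have h3 := (Filter.eventually_all_finset W).2 h2
    obtain ⟨η, h4, h5⟩ := (h3.and self_mem_nhdsWithin).exists
    exact ⟨η, h5, h4⟩
  obtain ⟨η, -, h2⟩ := h1
  refine ⟨hxy, l - η • m, ?_, ?_, ?_⟩
  · simp [hx, mx]
  · simp [hy, my]
  · intro u hu h3 h4
    have := h2 u hu h3 h4
    simpa using this

/-- a subset without antipodal pairs extends to one with `d` elements -/
lemma gexcep_extend {d : ℕ} {V S : Finset (E d)} (hV : Conf d V) (hS : S ⊆ V) (hA : NoAnti S)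
    (hc : S.card ≤ d) : ∃ T, S ⊆ T ∧ T ⊆ V ∧ NoAnti T ∧ T.card = d := by
  let P : Finset (Finset (E d)) := V.powerset.filter fun T => S ⊆ T ∧ NoAnti T
  have hP : S ∈ P := by
    rw [Finset.mem_filter, Finset.mem_powerset]
    exact ⟨hS, Finset.Subset.refl _, hA⟩
  obtain ⟨T, hT, hmax⟩ := Finset.exists_max_image P Finset.card ⟨S, hP⟩
  rw [Finset.mem_filter, Finset.mem_powerset] at hT
  obtain ⟨hTV, hST, hTA⟩ := hT
  have hall : ∀ v ∈ V, v ∈ T ∨ -v ∈ T := by
    intro v hv
    by_contra hno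
    push Not at hno
    have h1 : insert v T ∈ P := by
      rw [Finset.mem_filter, Finset.mem_powerset]
      refine ⟨Finset.insert_subset hv hTV, hST.trans (Finset.subset_insert _ _), ?_⟩
      intro x hx hx2
      rw [Finset.mem_insert] at hx hx2
      rcases hx with rfl | hx
      · rcases hx2 with hx2 | hx2
        · obtain ⟨l, hl, -⟩ := hV.cvx x hv
          have := congrArg l hx2
          rw [map_neg, hl] at this
          linarith
        · exact hno.2 hx2
      · rcases hx2 with hx2 | hx2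
        · apply hno.2
          rw [← hx2, neg_neg]
          exact hx
        · exact hTA x hx hx2
    have h2 := hmax _ h1
    rw [Finset.card_insert_of_notMem hno.1] at h2
    omega
  have hspan : Submodule.span ℝ (T : Set (E d)) = ⊤ := by
    rw [eq_top_iff, ← hV.span, Submodule.span_le]
    intro v hv
    rcases hall v hv with h | h
    · exact Submodule.subset_span h
    · have := Submodule.neg_mem _ (Submodule.subset_span (R := ℝ) h)
      rwa [neg_neg] at this
  have hcard : d ≤ T.card := by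
    have h1 := finrank_span_finset_le_card (R := ℝ) T
    rw [Set.finrank, hspan, finrank_top, Module.finrank_fin_fun] at h1
    exact h1
  obtain ⟨T', h1, h2, h3⟩ := Finset.exists_subsuperset_card_eq hST hc hcard
  exact ⟨T', h1, h2.trans hTV, fun x hx hx2 => hTA x (h2 hx) (h2 hx2), h3⟩

/-- `w` is not in the affine span of fewer than `d` points -/
lemma gexcep_few {d : ℕ} {V S : Finset (E d)} {w : E d} (hV : Conf d V) (hS : S ⊆ V)
    (hA : NoAnti S) (hc : S.card < d) (hO : One V w)
    (hw : w ∈ affineSpan ℝ (S : Set (E d))) : False := by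
  obtain ⟨T, h1, h2, h3, h4⟩ := gexcep_extend hV hS hA hc.le
  obtain ⟨v, hv, hvS⟩ : ∃ v ∈ T, v ∉ S := by
    by_contra hno
    push Not at hno
    have := Finset.card_le_card hno
    omega
  have hv0 : -v ∉ T := h3 v hv
  let T' : Finset (E d) := insert (-v) (T.erase v)
  have h5 : T' ⊆ V := Finset.insert_subset (hV.symm v (h2 hv))
    ((Finset.erase_subset _ _).trans h2)
  have h6 : -v ∉ T.erase v := fun h => hv0 (Finset.mem_of_mem_erase h)
  have h7 : T'.card = d := by
    rw [Finset.card_insert_of_notMem h6, Finset.card_erase_of_mem hv, h4]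
    omega
  have h8 : NoAnti T' := by
    intro x hx hx2
    rw [Finset.mem_insert] at hx hx2
    rcases hx with rfl | hx
    · rcases hx2 with hx2 | hx2
      · apply hv0
        rw [← hx2, neg_neg]
        exact hv
      · rw [neg_neg] at hx2
        exact (Finset.notMem_erase v T) hx2
    · rcases hx2 with hx2 | hx2
      · have : x = v := neg_injective hx2
        rw [this] at hx
        exact (Finset.notMem_erase v T) hx
      · exact h3 x (Finset.mem_of_mem_erase hx) (Finset.mem_of_mem_erase hx2)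
  have h9 : S ⊆ T' := by
    intro x hx
    rw [Finset.mem_insert, Finset.mem_erase]
    right
    refine ⟨?_, h1 hx⟩
    rintro rfl
    exact hvS hx
  have h10 := hO T T' h2 h5 h4 h7 h3 h8 (affineSpan_mono ℝ (by exact_mod_cast h1) hw)
    (affineSpan_mono ℝ (by exact_mod_cast h9) hw)
  apply hv0
  rw [h10]
  exact Finset.mem_insert_self _ _

/-- points of `V` in a hyperplane `l = 1` are at most `d` -/
lemma gexcep_card {d : ℕ} {V S : Finset (E d)} (hV : Conf d V) (hS : S ⊆ V)
    (hA : NoAnti S) {l : E d →ₗ[ℝ] ℝ} (hl : ∀ v ∈ S, l v = 1) : S.card ≤ d := by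
  by_contra hno
  push Not at hno
  obtain ⟨T, h1, h2⟩ := Finset.exists_subset_card_eq (s := S) (n := d + 1) (by omega)
  have hTA : NoAnti T := fun x hx hx2 => hA x (h1 hx) (h1 hx2)
  have h3 := (hV.gp T (h1.trans hS) hTA).2 (by omega)
  obtain ⟨f, h4, x, hx, h5⟩ := Module.exists_nontrivial_relation_of_finrank_lt_card
    (R := ℝ) (t := T) (by rw [Module.finrank_fin_fun]; omega)
  have h6 : ∑ u ∈ T, f u = 0 := by
    have h7 := congrArg l h4
    rw [map_sum, map_zero] at h7
    rw [← h7]
    apply Finset.sum_congr rfl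
    intro u hu
    rw [map_smul, hl u (h1 hu), smul_eq_mul, mul_one]
  rw [affineIndependent_iff] at h3
  have h8 := h3 Finset.univ (fun u => f u) (by
    rw [← h6]
    exact Finset.sum_coe_sort T f) (by
    rw [← h4]
    exact Finset.sum_coe_sort T (fun u => f u • u)) ⟨x, hx⟩ (Finset.mem_univ _)
  exact h5 h8

/-- at least two of each sign -/
lemma gexcep_two {d : ℕ} {V F : Finset (E d)} {w : E d} (hC : Cvx (add V w))
    (hF : F ⊆ add V w) (hF2 : 2 ≤ F.card) {c : E d → ℝ} (h0 : ∑ u ∈ F, c u = 0)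
    (h1 : ∑ u ∈ F, c u • u = 0) {x : E d} (hx : x ∈ F) (hneg : ∀ u ∈ F, u ≠ x → c u < 0) :
    False := by
  obtain ⟨l, hl, hl2⟩ := hC x (hF hx)
  have h2 : ∑ u ∈ F, c u * (l u - 1) = 0 := by
    have h3 := congrArg l h1
    rw [map_sum, map_zero] at h3
    have h4 : ∑ u ∈ F, c u * (l u - 1) = ∑ u ∈ F, l (c u • u) - ∑ u ∈ F, c u := by
      rw [← Finset.sum_sub_distrib]
      apply Finset.sum_congr rfl
      intro u _
      rw [map_smul, smul_eq_mul]
      ring
    rw [h4, h3, h0, sub_zero]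
  obtain ⟨z, hz, hzx⟩ := Finset.exists_mem_ne (by omega : 1 < F.card) x
  have h5 : 0 < ∑ u ∈ F, c u * (l u - 1) := by
    apply Finset.sum_pos'
    · intro u hu
      by_cases hux : u = x
      · rw [hux, hl]
        simp
      · exact (mul_pos_of_neg_of_neg (hneg u hu hux)
          (by linarith [hl2 u (hF hu) hux])).le
    · exact ⟨z, hz, mul_pos_of_neg_of_neg (hneg z hz hzx) (by linarith [hl2 z (hF hz) hzx])⟩
  linarith

/-- the sign class -/
lemma gexcep_cls {d : ℕ} {V F : Finset (E d)} {w : E d} (hC : Cvx (add V w))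
    (hF : F ⊆ add V w) (hF2 : 2 ≤ F.card) {c : E d → ℝ} (h0 : ∑ u ∈ F, c u = 0)
    (h1 : ∑ u ∈ F, c u • u = 0) (hne : ∀ u ∈ F, c u ≠ 0) {x y : E d} (hx : x ∈ F) (hy : y ∈ F)
    (hneg : ∀ u ∈ F, u ≠ x → u ≠ y → c u < 0) :
    F.filter (fun u => 0 < c u) = {x, y} := by
  have hxp : 0 < c x := by
    by_contra hno
    have h2 : c x < 0 := lt_of_le_of_ne (not_lt.1 hno) (hne x hx)
    apply gexcep_two hC hF hF2 h0 h1 hy
    intro u hu huy
    by_cases hux : u = x
    · rw [hux]; exact h2
    · exact hneg u hu hux huy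
  have hyp : 0 < c y := by
    by_contra hno
    have h2 : c y < 0 := lt_of_le_of_ne (not_lt.1 hno) (hne y hy)
    apply gexcep_two hC hF hF2 h0 h1 hx
    intro u hu hux
    by_cases huy : u = y
    · rw [huy]; exact h2
    · exact hneg u hu hux huy
  ext u
  rw [Finset.mem_filter, Finset.mem_insert, Finset.mem_singleton]
  constructor
  · rintro ⟨hu, hu2⟩
    by_contra hno
    push Not at hno
    have := hneg u hu hno.1 hno.2
    linarith
  · rintro (rfl | rfl)
    · exact ⟨hx, hxp⟩
    · exact ⟨hy, hyp⟩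

/-- prescribed values on an independent set and one more vector outside its span -/
lemma gexcep_ext2 {d : ℕ} {S : Finset (E d)}
    (hS : LinearIndependent ℝ (fun x : {x // x ∈ S} => (x : E d))) (μ : E d → ℝ) {w : E d}
    (hw : w ∉ Submodule.span ℝ (S : Set (E d))) (r : ℝ) :
    ∃ m : E d →ₗ[ℝ] ℝ, (∀ v ∈ S, m v = μ v) ∧ m w = r := by
  obtain ⟨m, hm⟩ := gexcep_ext hS μ
  obtain ⟨k, hk, hk2⟩ := Submodule.exists_le_ker_of_notMem hw
  refine ⟨m + ((r - m w) / k w) • k, ?_, ?_⟩
  · intro v hv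
    have : k v = 0 := LinearMap.mem_ker.1 (hk2 (Submodule.subset_span hv))
    simp [this, hm v hv]
  · simp only [LinearMap.add_apply, LinearMap.smul_apply, smul_eq_mul]
    field_simp
    ring

/-- weakly supported segments without `w` are edges -/
lemma gexcep_A {d : ℕ} {V : Finset (E d)} {w x y : E d} (hV : Conf d V) (hxy : x ≠ y)
    (hx : x ∈ add V w) (hy : y ∈ add V w) {l : E d →ₗ[ℝ] ℝ} (lx : l x = 1) (ly : l y = 1)
    (hl : ∀ u ∈ add V w, l u ≤ 1) (hw : l w ≠ 1) (hw2 : l (-w) ≠ 1) :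
    Edg (add V w) x y := by
  let S := V.filter fun u => l u = 1
  have hSV : S ⊆ V := Finset.filter_subset _ _
  have hSl : ∀ v ∈ S, l v = 1 := fun v hv => (Finset.mem_filter.1 hv).2
  have hSA : NoAnti S := by
    intro v hv hv2
    have h1 := hSl v hv
    have h2 := hSl _ hv2
    rw [map_neg, h1] at h2
    linarith
  have hS : LinearIndependent ℝ (fun x : {x // x ∈ S} => (x : E d)) :=
    (hV.gp S hSV hSA).1 (gexcep_card hV hSV hSA hSl)
  have hF : ∀ u ∈ add V w, l u = 1 → u ∈ S := by
    intro u hu hu2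
    rw [gexcep_mem_add] at hu
    rcases hu with rfl | rfl | hu
    · exact absurd hu2 hw
    · exact absurd hu2 hw2
    · exact Finset.mem_filter.2 ⟨hu, hu2⟩
  obtain ⟨m, hm⟩ := gexcep_ext hS (fun u => if u = x then 0 else if u = y then 0 else 1)
  apply gexcep_edge hxy lx ly hl
  · rw [hm x (hF x hx lx), if_pos rfl]
  · rw [hm y (hF y hy ly), if_neg (Ne.symm hxy), if_pos rfl]
  · intro u hu hu2 h3 h4
    rw [hm u (hF u hu hu2), if_neg h3, if_neg h4]
    exact one_pos

/-- structure of the exceptional segments -/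
lemma gexcep_B {d : ℕ} {V : Finset (E d)} {w x y : E d} (hd : 4 ≤ d) (hV : Conf d V)
    (hwV : w ∉ V)
    (hC : Cvx (add V w)) (hO : One V w) (hxy : x ≠ y)
    (hx : x ∈ add V w) (hy : y ∈ add V w) {l : E d →ₗ[ℝ] ℝ} (lx : l x = 1) (ly : l y = 1)
    (hl : ∀ u ∈ add V w, l u ≤ 1) (hw : l w = 1) (hE : ¬ Edg (add V w) x y) :
    ∃ (S : Finset (E d)) (a : E d → ℝ), S ⊆ V ∧ NoAnti S ∧ S.card = d ∧ ∑ v ∈ S, a v = 1 ∧
      ∑ v ∈ S, a v • v = w ∧ (∀ u ∈ insert w S, (if u = w then -1 else a u : ℝ) ≠ 0) ∧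
      ((insert w S).filter (fun u => 0 < if u = w then -1 else a u) = {x, y} ∨
       (insert w S).filter (fun u => (if u = w then -1 else a u) < 0) = {x, y}) := by
  let S := V.filter fun u => l u = 1
  have hSV : S ⊆ V := Finset.filter_subset _ _
  have hSl : ∀ v ∈ S, l v = 1 := fun v hv => (Finset.mem_filter.1 hv).2
  have hSA : NoAnti S := by
    intro v hv hv2
    have h1 := hSl v hv
    have h2 := hSl _ hv2
    rw [map_neg, h1] at h2
    linarith
  have hcard := gexcep_card hV hSV hSA hSl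
  have hS : LinearIndependent ℝ (fun x : {x // x ∈ S} => (x : E d)) :=
    (hV.gp S hSV hSA).1 hcard
  have hwS : w ∉ S := fun h => hwV (hSV h)
  have hF : ∀ u ∈ add V w, l u = 1 → u = w ∨ u ∈ S := by
    intro u hu hu2
    rw [gexcep_mem_add] at hu
    rcases hu with rfl | rfl | hu
    · exact Or.inl rfl
    · rw [map_neg, hw] at hu2
      linarith
    · exact Or.inr (Finset.mem_filter.2 ⟨hu, hu2⟩)
  -- a functional with prescribed values on `F` gives an edge
  have key : ∀ m : E d →ₗ[ℝ] ℝ, m x = 0 → m y = 0 →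
      (∀ u ∈ insert w S, u ≠ x → u ≠ y → 0 < m u) → False := by
    intro m mx my hm
    apply hE
    apply gexcep_edge hxy lx ly hl mx my
    intro u hu hu2 h3 h4
    apply hm u _ h3 h4
    rw [Finset.mem_insert]
    exact hF u hu hu2
  have hwspan : w ∈ Submodule.span ℝ (S : Set (E d)) := by
    by_contra hno
    obtain ⟨m, hm, hmw⟩ := gexcep_ext2 hS
      (fun u => if u = x then 0 else if u = y then 0 else 1) hno
      (if w = x then 0 else if w = y then 0 else 1)
    have hall : ∀ u ∈ insert w S, m u = if u = x then 0 else if u = y then 0 else 1 := by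
      intro u hu
      rw [Finset.mem_insert] at hu
      rcases hu with rfl | hu
      · exact hmw
      · exact hm u hu
    apply key m
    · rw [hall x (Finset.mem_insert.2 (hF x hx lx)), if_pos rfl]
    · rw [hall y (Finset.mem_insert.2 (hF y hy ly)), if_neg (Ne.symm hxy), if_pos rfl]
    · intro u hu h3 h4
      rw [hall u hu, if_neg h3, if_neg h4]
      exact one_pos
  obtain ⟨a, -, ha⟩ := Submodule.mem_span_finset.1 hwspan
  have ha1 : ∑ v ∈ S, a v = 1 := by
    have h1 := congrArg l ha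
    rw [hw, map_sum] at h1
    rw [← h1]
    apply Finset.sum_congr rfl
    intro v hv
    rw [map_smul, hSl v hv, smul_eq_mul, mul_one]
  have haff : ∀ T : Finset (E d), T ⊆ S → (∀ v ∈ S, v ∉ T → a v = 0) →
      w ∈ affineSpan ℝ (T : Set (E d)) := by
    intro T hT hT0
    have h1 : ∑ v ∈ T, a v = 1 := by
      rw [← ha1]
      exact Finset.sum_subset hT hT0
    have h2 : ∑ v ∈ T, a v • v = w := by
      rw [← ha]
      apply Finset.sum_subset hT
      intro v hv hv2
      rw [hT0 v hv hv2, zero_smul]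
    have h1' : ∑ v ∈ (Finset.univ : Finset {x // x ∈ T}), a v = 1 := by
      rw [← h1]
      exact Finset.sum_coe_sort T a
    have h3 := affineCombination_mem_affineSpan (k := ℝ) (P := E d) h1'
      (fun v : {x // x ∈ T} => (v : E d))
    rw [Finset.affineCombination_eq_linear_combination _ _ _ h1',
      Finset.sum_coe_sort T (fun v => a v • v), h2] at h3
    rwa [Subtype.range_coe_subtype] at h3
  have hcardS : S.card = d := by
    by_contra hno
    exact gexcep_few hV hSV hSA (by omega) hO (haff S (Finset.Subset.refl _)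
      (fun v hv hv2 => absurd hv hv2))
  have hane : ∀ v ∈ S, a v ≠ 0 := by
    intro v hv h0
    apply gexcep_few hV ((Finset.erase_subset v S).trans hSV)
      (fun z hz hz2 => hSA z (Finset.mem_of_mem_erase hz) (Finset.mem_of_mem_erase hz2))
      (by rw [Finset.card_erase_of_mem hv]; omega) hO
    apply haff _ (Finset.erase_subset v S)
    intro z hz hz2
    rw [Finset.mem_erase] at hz2
    push Not at hz2
    by_cases h : z = v
    · rw [h]; exact h0
    · exact absurd hz (hz2 h)
  have hane2 : ∀ u ∈ insert w S, (if u = w then -1 else a u : ℝ) ≠ 0 := by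
    intro u hu
    by_cases h : u = w
    · rw [if_pos h]
      norm_num
    · rw [if_neg h]
      exact hane u ((Finset.mem_insert.1 hu).resolve_left h)
  refine ⟨S, a, hSV, hSA, hcardS, ha1, ha, hane2, ?_⟩
  set c : E d → ℝ := fun u => if u = w then -1 else a u with hc
  have hcS : ∀ v ∈ S, c v = a v := by
    intro v hv
    rw [hc]
    simp only
    rw [if_neg]
    rintro rfl
    exact hwS hv
  have hcw : c w = -1 := by rw [hc]; simp
  have hsum : ∀ f : E d → ℝ, ∑ u ∈ insert w S, c u * f u = -f w + ∑ v ∈ S, a v * f v := by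
    intro f
    rw [Finset.sum_insert hwS, hcw, neg_one_mul]
    congr 1
    apply Finset.sum_congr rfl
    intro v hv
    rw [hcS v hv]
  have hc0 : ∑ u ∈ insert w S, c u = 0 := by
    rw [Finset.sum_insert hwS, hcw, Finset.sum_congr rfl hcS, ha1]
    ring
  have hc1 : ∑ u ∈ insert w S, c u • u = 0 := by
    rw [Finset.sum_insert hwS, hcw, Finset.sum_congr rfl (fun v hv => by rw [hcS v hv]), ha]
    rw [neg_smul, one_smul, neg_add_cancel]
  have hcne : ∀ u ∈ insert w S, c u ≠ 0 := by
    intro u hu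
    rw [Finset.mem_insert] at hu
    rcases hu with rfl | hu
    · rw [hcw]; norm_num
    · rw [hcS u hu]; exact hane u hu
  have hFW : insert w S ⊆ add V w := by
    intro u hu
    rw [gexcep_mem_add]
    rw [Finset.mem_insert] at hu
    rcases hu with rfl | hu
    · exact Or.inl rfl
    · exact Or.inr (Or.inr (hSV hu))
  have hFc : 2 ≤ (insert w S).card := by
    rw [Finset.card_insert_of_notMem hwS]
    omega
  have hxF : x ∈ insert w S := Finset.mem_insert.2 (hF x hx lx)
  have hyF : y ∈ insert w S := Finset.mem_insert.2 (hF y hy ly)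
  -- no both signs
  have hboth : ∀ t₁ ∈ insert w S, ∀ t₂ ∈ insert w S, t₁ ≠ x → t₁ ≠ y → t₂ ≠ x → t₂ ≠ y →
      0 < c t₁ → c t₂ < 0 → False := by
    intro t₁ ht₁ t₂ ht₂ h1x h1y h2x h2y hp hn
    have h12 : t₁ ≠ t₂ := by
      rintro rfl
      linarith
    let g : E d → ℝ := fun u => if u = x then 0 else if u = y then 0 else 1
    let R : ℝ := ∑ u ∈ ((insert w S).erase t₁).erase t₂, c u * g u
    let K₂ : ℝ := (|R| + 1) / (-c t₂)
    let K₁ : ℝ := (|R| + 1 - R) / c t₁
    have hK₂ : 0 < K₂ := div_pos (by positivity) (by linarith)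
    have hK₁ : 0 < K₁ := div_pos (by linarith [le_abs_self R]) hp
    let μ : E d → ℝ := fun u => if u = t₁ then K₁ else if u = t₂ then K₂ else g u
    have hμ : ∑ u ∈ insert w S, c u * μ u = 0 := by
      have ht₂' : t₂ ∈ (insert w S).erase t₁ := Finset.mem_erase.2 ⟨Ne.symm h12, ht₂⟩
      rw [← Finset.add_sum_erase _ _ ht₁, ← Finset.add_sum_erase _ _ ht₂']
      have h1 : ∑ u ∈ ((insert w S).erase t₁).erase t₂, c u * μ u = R := by
        apply Finset.sum_congr rfl
        intro u hu
        rw [Finset.mem_erase, Finset.mem_erase] at hu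
        simp only [μ]
        rw [if_neg hu.2.1, if_neg hu.1]
      have h2 : μ t₁ = K₁ := if_pos rfl
      have h3 : μ t₂ = K₂ := by
        show (if t₂ = t₁ then K₁ else if t₂ = t₂ then K₂ else g t₂) = K₂
        rw [if_neg (Ne.symm h12), if_pos rfl]
      rw [h1, h2, h3]
      have h4 : c t₁ * K₁ = |R| + 1 - R := by
        simp only [K₁]
        field_simp
      have h5 : c t₂ * K₂ = -(|R| + 1) := by
        simp only [K₂]
        have h6 : c t₂ ≠ 0 := hn.ne
        field_simp
      rw [h4, h5]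
      ring
    obtain ⟨m, hm⟩ := gexcep_ext hS μ
    have hmw : m w = μ w := by
      rw [hsum μ] at hμ
      rw [← ha, map_sum]
      have : ∑ v ∈ S, m (a v • v) = ∑ v ∈ S, a v * μ v := by
        apply Finset.sum_congr rfl
        intro v hv
        rw [map_smul, hm v hv, smul_eq_mul]
      rw [this, ha]
      linarith
    have hmF : ∀ u ∈ insert w S, m u = μ u := by
      intro u hu
      rw [Finset.mem_insert] at hu
      rcases hu with rfl | hu
      · exact hmw
      · exact hm u hu
    apply key m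
    · rw [hmF x hxF]
      show (if x = t₁ then K₁ else if x = t₂ then K₂ else
        if x = x then 0 else if x = y then 0 else 1) = 0
      rw [if_neg (Ne.symm h1x), if_neg (Ne.symm h2x), if_pos rfl]
    · rw [hmF y hyF]
      show (if y = t₁ then K₁ else if y = t₂ then K₂ else
        if y = x then 0 else if y = y then 0 else 1) = 0
      rw [if_neg (Ne.symm h1y), if_neg (Ne.symm h2y), if_neg (Ne.symm hxy), if_pos rfl]
    · intro u hu h3 h4
      rw [hmF u hu]
      simp only [μ, g]
      split_ifs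
      · exact hK₁
      · exact hK₂
      · exact one_pos
  by_cases hpos : ∃ t₁ ∈ insert w S, t₁ ≠ x ∧ t₁ ≠ y ∧ 0 < c t₁
  · obtain ⟨t₁, ht₁, h1x, h1y, hp⟩ := hpos
    right
    have h1 := gexcep_cls (c := fun u => -c u) hC hFW hFc (by
      rw [Finset.sum_neg_distrib, hc0, neg_zero]) (by
      rw [Finset.sum_congr rfl (fun u _ => neg_smul (c u) u), Finset.sum_neg_distrib, hc1,
        neg_zero]) (fun u hu => neg_ne_zero.2 (hcne u hu)) hxF hyF (by
      intro u hu hux huy
      have h2 : ¬ c u < 0 := fun h => hboth t₁ ht₁ u hu h1x h1y hux huy hp h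
      have h3 := lt_of_le_of_ne (not_lt.1 h2) (Ne.symm (hcne u hu))
      linarith)
    rw [← h1]
    apply Finset.filter_congr
    intro u _
    exact Left.neg_pos_iff.symm
  · left
    apply gexcep_cls hC hFW hFc hc0 hc1 hcne hxF hyF
    intro u hu hux huy
    have h2 : ¬ 0 < c u := fun h => hpos ⟨u, hu, hux, huy, h⟩
    exact lt_of_le_of_ne (not_lt.1 h2) (hcne u hu)

/-- an edge of a symmetric set gives the opposite edge -/
lemma gexcep_edg_neg {d : ℕ} {V : Finset (E d)} (hV : ∀ v ∈ V, -v ∈ V) {x y : E d}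
    (h : Edg V (-x) (-y)) : Edg V x y := by
  obtain ⟨h1, l, h2, h3, h4⟩ := h
  refine ⟨fun h => h1 (by rw [h]), -l, ?_, ?_, ?_⟩
  · rw [LinearMap.neg_apply, ← map_neg]; exact h2
  · rw [LinearMap.neg_apply, ← map_neg]; exact h3
  · intro u hu hux huy
    rw [LinearMap.neg_apply, ← map_neg]
    exact h4 (-u) (hV u hu) (fun h => hux (neg_injective h)) (fun h => huy (neg_injective h))

lemma gexcep_pair {α : Type*} [DecidableEq α] {x y x' y' : α} (hxy : x ≠ y)
    (h : ({x, y} : Finset α) = {x', y'}) : (x' = x ∧ y' = y) ∨ (x' = y ∧ y' = x) := by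
  have h1 : x ∈ ({x', y'} : Finset α) := by rw [← h]; simp
  have h2 : y ∈ ({x', y'} : Finset α) := by rw [← h]; simp
  rw [Finset.mem_insert, Finset.mem_singleton] at h1 h2
  rcases h1 with rfl | rfl
  · rcases h2 with rfl | rfl
    · exact absurd rfl hxy
    · exact Or.inl ⟨rfl, rfl⟩
  · rcases h2 with rfl | rfl
    · exact Or.inr ⟨rfl, rfl⟩
    · exact absurd rfl hxy

/-- uniqueness -/
lemma gexcep_uniq {d : ℕ} {V : Finset (E d)} {w x y x' y' : E d} (hd : 4 ≤ d) (hV : Conf d V)
    (hwV : w ∉ V)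
    (hC : Cvx (add V w)) (hO : One V w) (hxy : x ≠ y)
    (hx : x ∈ add V w) (hy : y ∈ add V w)
    (h : ∃ l : E d →ₗ[ℝ] ℝ, l x = 1 ∧ l y = 1 ∧ (∀ u ∈ add V w, l u ≤ 1) ∧ l w = 1)
    (hE : ¬ Edg (add V w) x y) (hxy' : x' ≠ y')
    (hx' : x' ∈ add V w) (hy' : y' ∈ add V w)
    (h' : ∃ l : E d →ₗ[ℝ] ℝ, l x' = 1 ∧ l y' = 1 ∧ (∀ u ∈ add V w, l u ≤ 1) ∧ l w = 1)
    (hE' : ¬ Edg (add V w) x' y') : (x' = x ∧ y' = y) ∨ (x' = y ∧ y' = x) := by
  obtain ⟨l, lx, ly, hl, hw⟩ := h
  obtain ⟨l', lx', ly', hl', hw'⟩ := h'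
  obtain ⟨S, a, hSV, hSA, hSc, ha1, ha, hane, hS⟩ := gexcep_B hd hV hwV hC hO hxy hx hy lx ly hl hw hE
  obtain ⟨T, b, hTV, hTA, hTc, hb1, hb, -, hT⟩ :=
    gexcep_B hd hV hwV hC hO hxy' hx' hy' lx' ly' hl' hw' hE'
  have haff : ∀ (T : Finset (E d)) (a : E d → ℝ), ∑ v ∈ T, a v = 1 → ∑ v ∈ T, a v • v = w →
      w ∈ affineSpan ℝ (T : Set (E d)) := by
    intro T a h1 h2
    have h1' : ∑ v ∈ (Finset.univ : Finset {x // x ∈ T}), a v = 1 := by
      rw [← h1]
      exact Finset.sum_coe_sort T a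
    have h3 := affineCombination_mem_affineSpan (k := ℝ) (P := E d) h1'
      (fun v : {x // x ∈ T} => (v : E d))
    rw [Finset.affineCombination_eq_linear_combination _ _ _ h1',
      Finset.sum_coe_sort T (fun v => a v • v), h2] at h3
    rwa [Subtype.range_coe_subtype] at h3
  have hST : S = T := hO S T hSV hTV hSc hTc hSA hTA (haff S a ha1 ha) (haff T b hb1 hb)
  subst hST
  have hwS : w ∉ S := fun h => hwV (hSV h)
  have hli := (hV.gp S hSV hSA).1 hSc.le
  have hab : ∀ v ∈ S, a v = b v := by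
    intro v hv
    have h1 : ∑ u ∈ S, (a u - b u) • u = 0 := by
      rw [Finset.sum_congr rfl (fun u _ => sub_smul (a u) (b u) u), Finset.sum_sub_distrib,
        ha, hb, sub_self]
    rw [Fintype.linearIndependent_iff] at hli
    have h2 := hli (fun u => a u - b u) (by
      rw [← h1]
      exact Finset.sum_coe_sort S (fun u => (a u - b u) • u)) ⟨v, hv⟩
    simp only at h2
    linarith
  have hc : ∀ u ∈ insert w S, (if u = w then -1 else a u : ℝ) = if u = w then -1 else b u := by
    intro u hu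
    by_cases h : u = w
    · rw [if_pos h, if_pos h]
    · rw [if_neg h, if_neg h]
      rw [Finset.mem_insert] at hu
      exact hab u (hu.resolve_left h)
  have hp : (insert w S).filter (fun u => (0 : ℝ) < if u = w then -1 else b u) =
      (insert w S).filter (fun u => (0 : ℝ) < if u = w then -1 else a u) :=
    Finset.filter_congr (fun u hu => by rw [hc u hu])
  have hn : (insert w S).filter (fun u => (if u = w then -1 else b u : ℝ) < 0) =
      (insert w S).filter (fun u => (if u = w then -1 else a u : ℝ) < 0) :=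
    Finset.filter_congr (fun u hu => by rw [hc u hu])
  rw [hp, hn] at hT
  have hcard : (insert w S).card = d + 1 := by
    rw [Finset.card_insert_of_notMem hwS, hSc]
  have hsplit : ((insert w S).filter (fun u => (0 : ℝ) < if u = w then -1 else a u)).card +
      ((insert w S).filter (fun u => (if u = w then -1 else a u : ℝ) < 0)).card = d + 1 := by
    rw [← hcard, ← Finset.card_filter_add_card_filter_not (s := insert w S)
      (fun u => (0 : ℝ) < if u = w then -1 else a u)]
    congr 2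
    apply Finset.filter_congr
    intro u hu
    constructor
    · intro h; linarith
    · intro h; exact lt_of_le_of_ne (not_lt.1 h) (hane u hu)
  have h2 : ∀ x y : E d, ({x, y} : Finset (E d)).card ≤ 2 := fun x y => Finset.card_le_two
  rcases hS with hS | hS
  · rcases hT with hT | hT
    · rw [hS] at hT
      exact gexcep_pair hxy hT
    · rw [hS, hT] at hsplit
      have := h2 x y
      have := h2 x' y'
      omega
  · rcases hT with hT | hT
    · rw [hS, hT] at hsplit
      have := h2 x y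
      have := h2 x' y'
      omega
    · rw [hS] at hT
      exact gexcep_pair hxy hT

theorem gexcep : Stmt_Excep := by
  intro d V w hd hV hwV hC hO
  have hsym : ∀ u ∈ add V w, -u ∈ add V w := fun u hu => gexcep_neg_mem hV.symm hu
  -- reduction to functionals with `l w = 1`
  have hred : ∀ x ∈ add V w, ∀ y ∈ add V w, x ≠ y →
      (∃ l : E d →ₗ[ℝ] ℝ, l x = 1 ∧ l y = 1 ∧ ∀ u ∈ add V w, l u ≤ 1) → ¬ Edg (add V w) x y →
      (∃ l : E d →ₗ[ℝ] ℝ, l x = 1 ∧ l y = 1 ∧ (∀ u ∈ add V w, l u ≤ 1) ∧ l w = 1) ∨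
      (∃ l : E d →ₗ[ℝ] ℝ, l (-x) = 1 ∧ l (-y) = 1 ∧ (∀ u ∈ add V w, l u ≤ 1) ∧ l w = 1) := by
    rintro x hx y hy hxy ⟨l, lx, ly, hl⟩ hE
    by_cases h1 : l w = 1
    · exact Or.inl ⟨l, lx, ly, hl, h1⟩
    by_cases h2 : l (-w) = 1
    · right
      refine ⟨-l, ?_, ?_, ?_, ?_⟩
      · rw [LinearMap.neg_apply, map_neg, neg_neg]; exact lx
      · rw [LinearMap.neg_apply, map_neg, neg_neg]; exact ly
      · intro u hu
        rw [LinearMap.neg_apply, ← map_neg]
        exact hl _ (hsym u hu)
      · rw [LinearMap.neg_apply, ← map_neg]; exact h2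
    · exact absurd (gexcep_A hV hxy hx hy lx ly hl h1 h2) hE
  by_cases hex : ∃ x ∈ add V w, ∃ y ∈ add V w, x ≠ y ∧
      (∃ l : E d →ₗ[ℝ] ℝ, l x = 1 ∧ l y = 1 ∧ (∀ u ∈ add V w, l u ≤ 1) ∧ l w = 1) ∧
      ¬ Edg (add V w) x y
  · obtain ⟨p, hp, q, hq, hpq, h1, h2⟩ := hex
    refine ⟨p, q, ?_⟩
    intro x hx y hy hxy h3 h4
    rcases hred x hx y hy hxy h3 h4 with h5 | h5
    · rcases gexcep_uniq hd hV hwV hC hO hpq hp hq h1 h2 hxy hx hy h5 h4 with h6 | h6
      · exact Or.inl h6
      · exact Or.inr (Or.inl h6)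
    · have h7 : ¬ Edg (add V w) (-x) (-y) := fun h => h4 (gexcep_edg_neg hsym h)
      have h8 : -x ≠ -y := fun h => hxy (neg_injective h)
      rcases gexcep_uniq hd hV hwV hC hO hpq hp hq h1 h2 h8 (hsym x hx) (hsym y hy) h5 h7
        with h6 | h6
      · exact Or.inr (Or.inr (Or.inl ⟨by rw [← h6.1, neg_neg], by rw [← h6.2, neg_neg]⟩))
      · exact Or.inr (Or.inr (Or.inr ⟨by rw [← h6.1, neg_neg], by rw [← h6.2, neg_neg]⟩))
  · refine ⟨0, 0, ?_⟩
    intro x hx y hy hxy h3 h4
    exfalso
    apply hex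
    rcases hred x hx y hy hxy h3 h4 with h5 | h5
    · exact ⟨x, hx, y, hy, hxy, h5, h4⟩
    · exact ⟨-x, hsym x hx, -y, hsym y hy, fun h => hxy (neg_injective h), h5,
        fun h => h4 (gexcep_edg_neg hsym h)⟩

end Pool.CS4
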