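import Pool.Agent.CS4.Gap

/-!
A point outside the polytope lies beyond a facet.
-/

open Finset Filter Topology

noncomputable section

namespace Pool.CS4

/-- evaluation of functionals on `V` -/
def evGFac {d : ℕ} (V : Finset (E d)) : (E d →L[ℝ] ℝ) →ₗ[ℝ] ({x // x ∈ V} → ℝ) where
  toFun l := fun v => l v
  map_add' l m := by
    funext v
    simp
  map_smul' c l := by
    funext v
    simp

lemma evGFac_inj {d : ℕ} {V : Finset (E d)} (h : Submodule.span ℝ (V : Set (E d)) = ⊤) :
    Function.Injective (evGFac V) := by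
  rw [← LinearMap.ker_eq_bot, LinearMap.ker_eq_bot']
  intro l hl
  have h1 : Submodule.span ℝ (V : Set (E d)) ≤ LinearMap.ker (l : E d →ₗ[ℝ] ℝ) := by
    rw [Submodule.span_le]
    intro v hv
    have := congrFun hl ⟨v, hv⟩
    simpa [evGFac] using this
  rw [h] at h1
  refine ContinuousLinearMap.ext fun x => ?_
  exact h1 (show x ∈ (⊤ : Submodule ℝ (E d)) from trivial)

/-- the polar set -/
def polGFac {d : ℕ} (V : Finset (E d)) : Set (E d →L[ℝ] ℝ) := {l | ∀ v ∈ V, l v ≤ 1}

lemma polGFac_compact {d : ℕ} {V : Finset (E d)} (hs : ∀ v ∈ V, -v ∈ V)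
    (h : Submodule.span ℝ (V : Set (E d)) = ⊤) : IsCompact (polGFac V) := by
  have h1 : IsCompact (Set.pi Set.univ fun _ : {x // x ∈ V} => Set.Icc (-1 : ℝ) 1) :=
    isCompact_univ_pi fun _ => isCompact_Icc
  have h2 := (LinearMap.isClosedEmbedding_of_injective
    (LinearMap.ker_eq_bot.2 (evGFac_inj h))).isCompact_preimage h1
  convert h2 using 1
  ext l
  simp only [polGFac, Set.mem_ofPred_eq, Set.mem_preimage, Set.mem_pi, Set.mem_univ,
    forall_true_left, Set.mem_Icc, Subtype.forall]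
  constructor
  · intro hl v hv
    refine ⟨?_, hl v hv⟩
    have := hl (-v) (hs v hv)
    rw [map_neg] at this
    show -1 ≤ l v
    linarith
  · intro hl v hv
    exact (hl v hv).2

lemma exGFac {d : ℕ} {V : Finset (E d)} {w : E d} (hs : ∀ v ∈ V, -v ∈ V)
    (hne : V.Nonempty) (hw : w ∉ convexHull ℝ (V : Set (E d))) :
    ∃ l ∈ polGFac V, 1 < l w := by
  have hc : IsClosed (convexHull ℝ (V : Set (E d))) :=
    (Set.Finite.isCompact_convexHull ℝ V.finite_toSet).isClosed
  obtain ⟨f, u, hfw, hfb⟩ := geometric_hahn_banach_point_closed (convex_convexHull ℝ _) hc hw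
  obtain ⟨v, hv⟩ := hne
  have h0 : u < f v := hfb v (subset_convexHull ℝ _ hv)
  have h0' : u < f (-v) := hfb (-v) (subset_convexHull ℝ _ (hs v hv))
  rw [map_neg] at h0'
  have hu : u < 0 := by linarith
  refine ⟨u⁻¹ • f, ?_, ?_⟩
  · intro x hx
    have h1 : u < f x := hfb x (subset_convexHull ℝ _ hx)
    show u⁻¹ * f x ≤ 1
    rw [inv_mul_eq_div, div_le_one_of_neg hu]
    exact h1.le
  · show 1 < u⁻¹ * f w
    rw [inv_mul_eq_div, one_lt_div_of_neg hu]
    exact hfw

lemma tGFac {d : ℕ} {V : Finset (E d)} {l m : E d →L[ℝ] ℝ} (hl : l ∈ polGFac V)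
    (hm : ∀ v ∈ V, l v = 1 → m v = 0) : ∃ t : ℝ, 0 < t ∧ ∀ s : ℝ, |s| ≤ t →
      l + s • m ∈ polGFac V := by
  classical
  have h1 : ∀ v ∈ V, ∃ t : ℝ, 0 < t ∧ ∀ s : ℝ, |s| ≤ t → l v + s * m v ≤ 1 := by
    intro v hv
    by_cases hv1 : l v = 1
    · refine ⟨1, one_pos, fun s _ => ?_⟩
      rw [hm v hv hv1, hv1]
      simp
    · have h2 : l v < 1 := lt_of_le_of_ne (hl v hv) hv1
      have h3 : 0 < |m v| + 1 := by positivity
      refine ⟨(1 - l v) / (|m v| + 1), div_pos (by linarith) h3, fun s hs => ?_⟩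
      have h4 : s * m v ≤ |s| * |m v| := by
        rw [← abs_mul]
        exact le_abs_self _
      have h5 : |s| * |m v| ≤ (1 - l v) / (|m v| + 1) * (|m v| + 1) := by
        apply mul_le_mul hs (by linarith) (abs_nonneg _)
        exact (div_pos (by linarith) h3).le
      rw [div_mul_cancel₀ _ h3.ne'] at h5
      linarith
  choose! t ht1 ht2 using h1
  by_cases hV : V.Nonempty
  · refine ⟨V.inf' hV t, ?_, fun s hs v hv => ?_⟩
    · rw [Finset.lt_inf'_iff]
      exact ht1
    · exact ht2 v hv s (hs.trans (Finset.inf'_le t hv))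
  · refine ⟨1, one_pos, fun s _ v hv => ?_⟩
    exact absurd ⟨v, hv⟩ hV

theorem gfac : Stmt_Fac := by
  classical
  intro d V w hd hV hw
  have hne : V.Nonempty := by
    rw [Finset.nonempty_iff_ne_empty]
    intro h
    have h1 := hV.span
    rw [h, Finset.coe_empty, Submodule.span_empty] at h1
    have h2 : (Pi.single (⟨0, hd⟩ : Fin d) (1 : ℝ) : E d) ∈ (⊤ : Submodule ℝ (E d)) := trivial
    rw [← h1, Submodule.mem_bot] at h2
    have h3 := congrFun h2 (⟨0, hd⟩ : Fin d)
    simp at h3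
  obtain ⟨l0, hl0, hl0w⟩ := exGFac hV.symm hne hw
  have hcomp := polGFac_compact hV.symm hV.span
  obtain ⟨l1, hl1, hmax⟩ := hcomp.exists_isMaxOn ⟨l0, hl0⟩
    (f := fun l : E d →L[ℝ] ℝ => l w) (by fun_prop)
  set M : Set (E d →L[ℝ] ℝ) := polGFac V ∩ {l | l w = l1 w} with hM
  have hMc : IsCompact M := hcomp.inter_right (isClosed_eq (by fun_prop) continuous_const)
  have hMne : M.Nonempty := ⟨l1, hl1, rfl⟩
  obtain ⟨l, hlM, hlext⟩ := hMc.extremePoints_nonempty hMne
  have hlw : 1 < l w := by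
    have h1 : l w = l1 w := hlM.2
    rw [h1]
    exact lt_of_lt_of_le hl0w (hmax hl0)
  have key : ∀ m : E d →L[ℝ] ℝ, (∀ v ∈ V, l v = 1 → m v = 0) → m = 0 := by
    intro m hm
    obtain ⟨t, ht, hts⟩ := tGFac hlM.1 hm
    have h1 := hts t (by rw [abs_of_pos ht])
    have h2 := hts (-t) (by rw [abs_neg, abs_of_pos ht])
    have h3 : (l + t • m) w ≤ l1 w := hmax h1
    have h4 : (l + (-t) • m) w ≤ l1 w := hmax h2
    have h5 : l w = l1 w := hlM.2
    have e1 : (l + t • m) w = l w + t * m w := rfl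
    have e2 : (l + (-t) • m) w = l w + -t * m w := rfl
    have h6 : (l + t • m) w = l1 w := by
      rw [e1] at h3 ⊢
      rw [e2] at h4
      nlinarith
    have h7 : (l + (-t) • m) w = l1 w := by
      rw [e1] at h3
      rw [e2] at h4 ⊢
      nlinarith
    have h8 : l ∈ openSegment ℝ (l + t • m) (l + (-t) • m) := by
      refine ⟨1/2, 1/2, by norm_num, by norm_num, by norm_num, ?_⟩
      module
    have h9 := hlext ⟨h1, h6⟩ ⟨h2, h7⟩ h8
    have h10 : t • m = 0 := by
      have := congrArg (fun z => z - l) h9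
      simpa using this
    exact (smul_eq_zero.1 h10).resolve_left ht.ne'
  set T := V.filter (fun v => l v = 1) with hT
  have hspan : Submodule.span ℝ (T : Set (E d)) = ⊤ := by
    by_contra hcon
    obtain ⟨f, hf0, hf⟩ := Submodule.exists_le_ker_of_lt_top _ (lt_top_iff_ne_top.2 hcon)
    apply hf0
    have h1 : LinearMap.toContinuousLinearMap f = 0 := by
      apply key
      intro v hv hlv
      have h2 : v ∈ Submodule.span ℝ (T : Set (E d)) :=
        Submodule.subset_span (by simp [hT, hv, hlv])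
      exact hf h2
    refine LinearMap.ext fun x => ?_
    exact congrArg (fun g : E d →L[ℝ] ℝ => g x) h1
  have hge : d ≤ T.card := by
    have h1 := finrank_span_finset_le_card (R := ℝ) T
    rw [Set.finrank, hspan, finrank_top] at h1
    simpa [E] using h1
  have hanti : ∀ S ⊆ T, NoAnti S := by
    intro S hS x hx hx'
    have h1 := (Finset.mem_filter.1 (hS hx)).2
    have h2 := (Finset.mem_filter.1 (hS hx')).2
    rw [map_neg, h1] at h2
    norm_num at h2
  have hle : T.card ≤ d := by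
    by_contra hcon
    push Not at hcon
    obtain ⟨S, hST, hSc⟩ := Finset.exists_subset_card_eq (show d + 1 ≤ T.card from hcon)
    have haff := (hV.gp S (hST.trans (Finset.filter_subset _ _)) (hanti S hST)).2 hSc.le
    have htop : affineSpan ℝ (Set.range fun x : {x // x ∈ S} => (x : E d)) = ⊤ := by
      rw [haff.affineSpan_eq_top_iff_card_eq_finrank_add_one]
      simp [hSc, E]
    have h0 : (0 : E d) ∈ affineSpan ℝ (Set.range fun x : {x // x ∈ S} => (x : E d)) := by
      rw [htop]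
      trivial
    have h1 : affineSpan ℝ (Set.range fun x : {x // x ∈ S} => (x : E d)) ≤
        (affineSpan ℝ ({1} : Set ℝ)).comap (l : E d →ₗ[ℝ] ℝ).toAffineMap := by
      rw [affineSpan_le]
      rintro _ ⟨⟨x, hx⟩, rfl⟩
      have h2 := (Finset.mem_filter.1 (hST hx)).2
      show l x ∈ affineSpan ℝ ({1} : Set ℝ)
      rw [h2]
      exact subset_affineSpan ℝ _ (Set.mem_singleton _)
    have h2 : l 0 ∈ affineSpan ℝ ({1} : Set ℝ) := h1 h0
    rw [AffineSubspace.mem_affineSpan_singleton, map_zero] at h2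
    norm_num at h2
  refine ⟨(l : E d →ₗ[ℝ] ℝ), T, ⟨Finset.filter_subset _ _, le_antisymm hle hge, ?_, ?_⟩, hlw⟩
  · intro v hv
    exact (Finset.mem_filter.1 hv).2
  · intro v hv hvT
    refine lt_of_le_of_ne (hlM.1 v hv) fun h => hvT ?_
    exact Finset.mem_filter.2 ⟨hv, h⟩

end Pool.CS4
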