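import Pool.Agent.CS4.GConf

/-! Module GFour of the MP_54ed1a_co project: the number of ordered edges is divisible by 4. -/

open Finset Filter Topology

noncomputable section

namespace Pool.CS4

theorem gfour_edg_neg {d : ℕ} {V : Finset (E d)} (hs : ∀ v ∈ V, -v ∈ V) {x y : E d}
    (h : Edg V x y) : Edg V (-x) (-y) := by
  obtain ⟨hxy, l, h1, h2, h3⟩ := h
  refine ⟨fun h => hxy (neg_injective h), -l, ?_, ?_, ?_⟩
  · rw [LinearMap.neg_apply, map_neg, neg_neg, h1]
  · rw [LinearMap.neg_apply, map_neg, neg_neg, h2]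
  · intro u hu hux huy
    rw [LinearMap.neg_apply, ← map_neg]
    refine h3 _ (hs u hu) ?_ ?_
    · intro h
      exact hux (by rw [← h, neg_neg])
    · intro h
      exact huy (by rw [← h, neg_neg])

theorem gfour : Stmt_Four := by
  classical
  intro d V hd hV
  have hs := hV.symm
  rw [gconf_count V hs]
  have key : ∀ B : Finset (Finset (E d)),
      (∀ F ∈ B, ∃ x y, x ∈ V ∧ y ∈ V ∧ Edg V x y ∧ F = {x, y}) →
      (∀ x y, x ∈ V → y ∈ V → Edg V x y → ({x, y} : Finset (E d)) ∈ B) → 2 ∣ B.card := by
    intro B h1 h2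
    have hsum : ∑ F ∈ B, (1 : ZMod 2) = 0 := by
      refine Finset.sum_involution (fun F _ => F.image fun z => -z) ?_ ?_ ?_ ?_
      · intro F _
        decide
      · intro F hF _ he
        obtain ⟨x, y, hx, hy, ⟨hxy, l, e1, e2, e3⟩, rfl⟩ := h1 F hF
        have h4 : -x ∈ ({x, y} : Finset (E d)) := by
          rw [← he]
          exact Finset.mem_image.2 ⟨x, by simp, rfl⟩
        have h5 : l (-x) = 1 := by
          rcases Finset.mem_insert.1 h4 with h | h
          · rw [h, e1]
          · rw [Finset.mem_singleton.1 h, e2]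
        rw [map_neg, e1] at h5
        norm_num at h5
      · intro F hF
        obtain ⟨x, y, hx, hy, he, rfl⟩ := h1 F hF
        have := h2 (-x) (-y) (hs x hx) (hs y hy) (gfour_edg_neg hs he)
        rw [Finset.image_insert, Finset.image_singleton]
        exact this
      · intro F hF
        rw [Finset.image_image]
        have : ((fun z : E d => -z) ∘ fun z => -z) = id := by
          funext z
          simp
        rw [this, Finset.image_id]
    rw [Finset.sum_const, nsmul_eq_mul, mul_one] at hsum
    exact (ZMod.natCast_eq_zero_iff _ _).1 hsum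
  have h2 : 2 ∣ fv V 2 := by
    unfold fv
    apply key
    · intro F hF
      rw [Finset.mem_filter, Finset.mem_powerset] at hF
      obtain ⟨hFV, h1, h2, h3⟩ := hF
      obtain ⟨x, y, hxy, rfl⟩ := Finset.card_eq_two.1 h3
      have hx : x ∈ V := hFV (by simp)
      have hy : y ∈ V := hFV (by simp)
      exact ⟨x, y, hx, hy, (gconf_edg V hs hx hy).2 ⟨hxy, h1, h2⟩, rfl⟩
    · intro x y hx hy he
      obtain ⟨h1, h2, h3⟩ := (gconf_edg V hs hx hy).1 he
      rw [Finset.mem_filter, Finset.mem_powerset]
      exact ⟨h2.1, h2, h3, Finset.card_pair h1⟩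
  obtain ⟨k, hk⟩ := h2
  exact ⟨k, by rw [hk]; ring⟩

end Pool.CS4
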