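import Pool.Agent.CS4.GGPex

/-!
(GPd): general position is dense.
-/

open Finset Filter Topology

noncomputable section

namespace Pool.CS4

theorem ggpd : Stmt_GPd := by
  classical
  intro d N
  induction N with
  | zero =>
    intro v ρ hd hρ
    refine ⟨v, fun i => i.elim0, ?_, ?_⟩
    · intro S hS _
      have hS0 : S = ∅ := by
        rw [Finset.eq_empty_iff_forall_notMem]
        intro x hx
        have := hS hx
        simp [sset] at this
      subst hS0
      constructor
      · intro _
        exact linearIndependent_empty_type
      · intro _
        exact affineIndependent_of_subsingleton ℝ _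
    · simp [sset]
  | succ N ih =>
    intro v ρ hd hρ
    obtain ⟨v', hd', hG, hc⟩ := ih (Fin.init v) ρ hd hρ
    obtain ⟨w, hw, h⟩ := ggpex_avoid (ggpex_idx (sset v')) ggpex_bad (ggpex_bad_ne hd (sset v'))
      (Metric.ball (v (Fin.last N)) ρ) Metric.isOpen_ball ⟨_, Metric.mem_ball_self hρ⟩
    have hgood := ggpex_good (sset v') w h
    have hsymm : ∀ x ∈ sset v', -x ∈ sset v' := by
      intro x hx
      unfold sset at hx ⊢
      simp only [Finset.mem_union, Finset.mem_image, Finset.mem_univ, true_and] at hx ⊢
      rcases hx with ⟨i, rfl⟩ | ⟨i, rfl⟩
      · right; exact ⟨i, rfl⟩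
      · left; exact ⟨i, by simp⟩
    have hwn : w ∉ sset v' := ggpex_notMem hd hgood
    have hwn' : -w ∉ sset v' := fun h => hwn (by simpa using hsymm _ h)
    have hw0 : w ≠ 0 := by
      intro h0
      apply hgood.lin ∅ (by simp) (by rw [Finset.card_empty]; omega)
      rw [h0]
      exact Submodule.zero_mem _
    have hww : w ≠ -w := by
      intro hh
      apply hw0
      have : w + w = 0 := by
        nth_rewrite 2 [hh]
        simp
      have h2 : (2 : ℝ) • w = 0 := by rw [two_smul]; exact this
      simpa using h2
    have hset : sset (Fin.snoc v' w : Fin (N + 1) → E d) = add (sset v') w := by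
      ext x
      unfold sset add
      simp only [Finset.mem_union, Finset.mem_image, Finset.mem_univ, true_and,
        Finset.mem_insert]
      constructor
      · rintro (⟨i, rfl⟩ | ⟨i, rfl⟩)
        · refine Fin.lastCases ?_ (fun j => ?_) i
          · left; simp
          · right; right; left; exact ⟨j, by simp⟩
        · refine Fin.lastCases ?_ (fun j => ?_) i
          · right; left; simp
          · right; right; right; exact ⟨j, by simp⟩
      · rintro (rfl | rfl | ⟨i, rfl⟩ | ⟨i, rfl⟩)
        · left; exact ⟨Fin.last N, by simp⟩
        · right; exact ⟨Fin.last N, by simp⟩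
        · left; exact ⟨i.castSucc, by simp⟩
        · right; exact ⟨i.castSucc, by simp⟩
    refine ⟨Fin.snoc v' w, ?_, ?_, ?_⟩
    · intro i
      refine Fin.lastCases ?_ (fun j => ?_) i
      · simpa using hw
      · have := hd' j
        simpa [Fin.init] using this
    · rw [hset]
      exact ggpex_gp hsymm hG hgood
    · rw [hset]
      unfold add
      rw [Finset.card_insert_of_notMem, Finset.card_insert_of_notMem, hc]
      · ring
      · exact hwn'
      · simp only [Finset.mem_insert, not_or]
        exact ⟨hww, hwn⟩

end Pool.CS4
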