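import Pool.Agent.CS4.Gap

/-! Module GGPex of the MP_54ed1a_co project: finitely many hyperplanes do not cover an open set. -/

open Finset Filter Topology

noncomputable section

namespace Pool.CS4

/-- finitely many proper affine subspaces do not cover a nonempty open set -/
theorem ggpex_avoid {d : ℕ} {ι : Type} (I : Finset ι) (Q : ι → AffineSubspace ℝ (E d))
    (hQ : ∀ i ∈ I, Q i ≠ ⊤) (U : Set (E d)) (hU : IsOpen U) (hne : U.Nonempty) :
    ∃ w ∈ U, ∀ i ∈ I, w ∉ Q i := by
  by_contra hcon
  push Not at hcon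
  have h1 : U ⊆ ⋃ i ∈ I, (Q i : Set (E d)) := by
    intro w hw
    obtain ⟨i, hi, h⟩ := hcon w hw
    exact Set.mem_biUnion hi h
  have h2 : MeasureTheory.volume (⋃ i ∈ I, (Q i : Set (E d))) = 0 := by
    refine (MeasureTheory.measure_biUnion_null_iff (Finset.countable_toSet I)).2 ?_
    intro i hi
    exact MeasureTheory.Measure.addHaar_affineSubspace _ _ (hQ i hi)
  have h3 := hU.measure_pos MeasureTheory.volume hne
  have h4 := MeasureTheory.measure_mono_null h1 h2
  rw [h4] at h3
  exact lt_irrefl _ h3

/-- the span of few points is proper -/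
theorem ggpex_span {d : ℕ} (S : Finset (E d)) (hS : S.card < d) :
    Submodule.span ℝ (S : Set (E d)) ≠ ⊤ := by
  intro h
  have h1 : (S : Set (E d)).finrank ℝ ≤ S.card := finrank_span_finset_le_card S
  unfold Set.finrank at h1
  rw [h, finrank_top] at h1
  have h2 : Module.finrank ℝ (E d) = d := by simp
  omega

/-- the affine span of few points is proper -/
theorem ggpex_aff {d : ℕ} (_hd : 1 ≤ d) (S : Finset (E d)) (hS : S.card ≤ d) :
    affineSpan ℝ (S : Set (E d)) ≠ ⊤ := by
  classical
  intro h
  rcases Finset.eq_empty_or_nonempty S with rfl | hne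
  · rw [Finset.coe_empty, AffineSubspace.span_empty] at h
    exact bot_ne_top h
  · obtain ⟨n, hn⟩ : ∃ n, S.card = n + 1 := ⟨S.card - 1, by
      have := Finset.card_pos.2 hne
      omega⟩
    have h1 := finrank_vectorSpan_image_finset_le ℝ (id : E d → E d) S hn
    rw [Finset.image_id, ← direction_affineSpan, h, AffineSubspace.direction_top,
      finrank_top] at h1
    have h2 : Module.finrank ℝ (Fin d → ℝ) = d := by simp
    omega

theorem ggpex_li {d : ℕ} (S : Finset (E d)) (w : E d) (S0 : Finset (E d)) (hS : ∀ x, x ∈ S ↔ x = w ∨ x ∈ S0)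
    (h0 : LinearIndependent ℝ (fun x : {x // x ∈ S0} => (x : E d)))
    (hn : w ∉ Submodule.span ℝ (S0 : Set (E d))) :
    LinearIndependent ℝ (fun x : {x // x ∈ S} => (x : E d)) := by
  have h1 : LinearIndepOn ℝ (id : E d → E d) (S0 : Set (E d)) := h0
  have h2 := h1.id_insert hn
  have h3 : insert w (S0 : Set (E d)) = (S : Set (E d)) := by
    ext x
    rw [Set.mem_insert_iff, Finset.mem_coe, Finset.mem_coe, hS x]
  rw [h3] at h2
  exact h2

theorem ggpex_ai {d : ℕ} (S : Finset (E d)) (w : E d) (S0 : Finset (E d))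
    (hS : ∀ x, x ∈ S ↔ x = w ∨ x ∈ S0)
    (h0 : AffineIndependent ℝ (fun x : {x // x ∈ S0} => (x : E d)))
    (hn : w ∉ affineSpan ℝ (S0 : Set (E d))) :
    AffineIndependent ℝ (fun x : {x // x ∈ S} => (x : E d)) := by
  have hw : w ∈ S := (hS w).2 (Or.inl rfl)
  refine AffineIndependent.affineIndependent_of_notMem_span (i := ⟨w, hw⟩) ?_ ?_
  · let f : {y : {x // x ∈ S} // y ≠ ⟨w, hw⟩} ↪ {x // x ∈ S0} :=
      { toFun := fun y => ⟨y.1.1, by
          rcases (hS y.1.1).1 y.1.2 with h | h
          · exact absurd (Subtype.ext h) y.2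
          · exact h⟩
        inj' := by
          intro a b hab
          have := congrArg Subtype.val hab
          exact Subtype.ext (Subtype.ext this) }
    exact h0.comp_embedding f
  · intro h
    apply hn
    refine affineSpan_mono ℝ ?_ h
    rintro _ ⟨y, hy, rfl⟩
    rcases (hS y.1).1 y.2 with h' | h'
    · exact absurd (Subtype.ext h') hy
    · exact h'

/-- the conditions for general position of `add V w` -/
structure GGood {d : ℕ} (V : Finset (E d)) (w : E d) : Prop where
  lin : ∀ S ⊆ V, S.card < d → w ∉ Submodule.span ℝ (S : Set (E d))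
  aff : ∀ S ⊆ V, S.card ≤ d → w ∉ affineSpan ℝ (S : Set (E d))

theorem ggpex_neg {d : ℕ} {V : Finset (E d)} (hs : ∀ v ∈ V, -v ∈ V) {w : E d}
    (h : GGood V w) : GGood V (-w) := by
  classical
  constructor
  · intro S hS hc hw
    apply h.lin S hS hc
    have := Submodule.neg_mem _ hw
    rwa [neg_neg] at this
  · intro S hS hc hw
    have h1 : S.image (fun z => -z) ⊆ V := by
      intro z hz
      obtain ⟨y, hy, rfl⟩ := Finset.mem_image.1 hz
      exact hs y (hS hy)
    apply h.aff (S.image fun z => -z) h1 (Finset.card_image_le.trans hc)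
    let f : E d →ᵃ[ℝ] E d := (-LinearMap.id : E d →ₗ[ℝ] E d).toAffineMap
    have h2 : f (-w) ∈ (affineSpan ℝ (S : Set (E d))).map f :=
      AffineSubspace.mem_map_of_mem f hw
    rw [AffineSubspace.map_span] at h2
    have h3 : f (-w) = w := by
      change -(-w) = w
      rw [neg_neg]
    rw [h3] at h2
    have h4 : f '' (S : Set (E d)) = ((S.image fun z => -z : Finset (E d)) : Set (E d)) := by
      rw [Finset.coe_image]
      rfl
    rwa [h4] at h2

theorem ggpex_notMem {d : ℕ} (hd : 1 ≤ d) {V : Finset (E d)} {w : E d} (h : GGood V w) :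
    w ∉ V := by
  intro hw
  apply h.aff {w} (by simpa using hw) (by simpa using hd)
  exact subset_affineSpan ℝ _ (by simp)

theorem ggpex_gp {d : ℕ} {V : Finset (E d)} (hs : ∀ v ∈ V, -v ∈ V) (hG : GP V)
    {w : E d} (h : GGood V w) : GP (add V w) := by
  classical
  have key : ∀ (z : E d), GGood V z → ∀ S : Finset (E d), NoAnti S → z ∈ S →
      (∀ x ∈ S, x ≠ z → x ∈ V) →
      (S.card ≤ d → LinearIndependent ℝ (fun x : {x // x ∈ S} => (x : E d))) ∧
      (S.card ≤ d + 1 → AffineIndependent ℝ (fun x : {x // x ∈ S} => (x : E d))) := by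
    intro z hz S hN hzS hV
    set S0 := S.erase z with hS0
    have h1 : S0 ⊆ V := by
      intro x hx
      rw [hS0, Finset.mem_erase] at hx
      exact hV x hx.2 hx.1
    have h2 : NoAnti S0 := by
      intro x hx hx'
      exact hN x (Finset.erase_subset _ _ hx) (Finset.erase_subset _ _ hx')
    have h3 : S0.card + 1 = S.card := Finset.card_erase_add_one hzS
    have h4 : ∀ x, x ∈ S ↔ x = z ∨ x ∈ S0 := by
      intro x
      rw [hS0, Finset.mem_erase]
      constructor
      · intro hx
        by_cases hxz : x = z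
        · exact Or.inl hxz
        · exact Or.inr ⟨hxz, hx⟩
      · rintro (rfl | hx)
        · exact hzS
        · exact hx.2
    have h6 := hG S0 h1 h2
    constructor
    · intro hc
      exact ggpex_li S z S0 h4 (h6.1 (by omega)) (hz.lin S0 h1 (by omega))
    · intro hc
      exact ggpex_ai S z S0 h4 (h6.2 (by omega)) (hz.aff S0 h1 (by omega))
  intro S hS hN
  have hmem : ∀ x ∈ S, x = w ∨ x = -w ∨ x ∈ V := by
    intro x hx
    have := hS hx
    unfold add at this
    rcases Finset.mem_insert.1 this with h | h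
    · exact Or.inl h
    · rcases Finset.mem_insert.1 h with h | h
      · exact Or.inr (Or.inl h)
      · exact Or.inr (Or.inr h)
  by_cases h1 : w ∈ S
  · refine key w h S hN h1 ?_
    intro x hx hxw
    rcases hmem x hx with h' | h' | h'
    · exact absurd h' hxw
    · rw [h'] at hx
      exact absurd hx (hN w h1)
    · exact h'
  · by_cases h2 : -w ∈ S
    · refine key (-w) (ggpex_neg hs h) S hN h2 ?_
      intro x hx hxw
      rcases hmem x hx with h' | h' | h'
      · rw [h'] at hx
        exact absurd hx h1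
      · exact absurd h' hxw
      · exact h'
    · refine hG S ?_ hN
      intro x hx
      rcases hmem x hx with h' | h' | h'
      · rw [h'] at hx
        exact absurd hx h1
      · rw [h'] at hx
        exact absurd hx h2
      · exact h'

/-- the bad affine subspaces of `V` -/
def ggpex_bad {d : ℕ} (S : Finset (E d) × Bool) : AffineSubspace ℝ (E d) :=
  if S.2 then (Submodule.span ℝ (S.1 : Set (E d))).toAffineSubspace
  else affineSpan ℝ (S.1 : Set (E d))

open Classical in
/-- the index set of the bad affine subspaces -/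
def ggpex_idx {d : ℕ} (V : Finset (E d)) : Finset (Finset (E d) × Bool) :=
  (V.powerset ×ˢ (Finset.univ : Finset Bool)).filter fun S =>
    if S.2 then S.1.card < d else S.1.card ≤ d

theorem ggpex_bad_ne {d : ℕ} (hd : 1 ≤ d) (V : Finset (E d)) :
    ∀ S ∈ ggpex_idx V, ggpex_bad S ≠ ⊤ := by
  classical
  rintro ⟨S, b⟩ hS
  unfold ggpex_idx at hS
  rw [Finset.mem_filter] at hS
  unfold ggpex_bad
  cases b
  · simp only [Bool.false_eq_true, if_false] at hS ⊢
    exact ggpex_aff hd S hS.2
  · simp only [if_true] at hS ⊢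
    intro h
    apply ggpex_span S hS.2
    rw [eq_top_iff]
    intro x _
    have : x ∈ (Submodule.span ℝ (S : Set (E d))).toAffineSubspace := by
      rw [h]; trivial
    exact this

theorem ggpex_good {d : ℕ} (V : Finset (E d)) (w : E d)
    (h : ∀ S ∈ ggpex_idx V, w ∉ ggpex_bad S) : GGood V w := by
  classical
  constructor
  · intro S hS hc hw
    refine h (S, true) ?_ ?_
    · unfold ggpex_idx
      simp [hS, hc]
    · unfold ggpex_bad
      simpa using hw
  · intro S hS hc hw
    refine h (S, false) ?_ ?_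
    · unfold ggpex_idx
      simp [hS, hc]
    · unfold ggpex_bad
      simpa using hw

theorem ggpex : Stmt_GPex := by
  classical
  intro d V U hd hV hU hne
  obtain ⟨w, hw, h⟩ := ggpex_avoid (ggpex_idx V) ggpex_bad (ggpex_bad_ne (by omega) V) U hU hne
  have hG := ggpex_good V w h
  exact ⟨w, hw, ggpex_notMem (by omega) hG, ggpex_gp hV.symm hV.gp hG⟩

end Pool.CS4
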