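import Pool.Agent.CS4.Gap

/-!
(IVT): discrete intermediate value argument on `[0,1]`.
-/

open Finset Filter Topology

noncomputable section

namespace Pool.CS4

/-- a vertex outside `V` of a convex configuration is not in the convex hull of `V` -/
theorem givt_notMem {d : ℕ} {V : Finset (E d)} {w : E d} (hC : Cvx (add V w)) (hw : w ∉ V) :
    w ∉ convexHull ℝ (V : Set (E d)) := by
  classical
  intro hmem
  obtain ⟨l, hl1, hl2⟩ := hC w (by simp [add])
  have hsub : convexHull ℝ (V : Set (E d)) ⊆ {x | l x < 1} := by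
    apply convexHull_min
    · intro v hv
      have hv' : v ∈ V := by simpa using hv
      exact hl2 v (by simp [add, hv']) (fun h => hw (h ▸ hv'))
    · exact convex_halfSpace_lt l.isLinear 1
  have := hsub hmem
  simp only [Set.mem_ofPred_eq, hl1, lt_irrefl] at this

theorem givt_conf {d : ℕ} {V : Finset (E d)} {w : E d} (hV : Conf d V) (hG : GP (add V w))
    (hC : Cvx (add V w)) : Conf d (add V w) := by
  classical
  refine ⟨?_, hG, hC, ?_⟩
  · intro v hv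
    simp only [add, Finset.mem_insert] at hv ⊢
    rcases hv with rfl | rfl | hv
    · right; left; rfl
    · left; simp
    · right; right; exact hV.symm v hv
  · rw [eq_top_iff, ← hV.span]
    apply Submodule.span_mono
    intro x hx
    have hx' : x ∈ V := by simpa using hx
    simp [add, hx']

/-- the topological part of the argument -/
theorem givt_top (good : ℝ → Prop) (N : ℝ → ℕ) (m : ℕ)
    (hfin : {s : ℝ | s ∈ Set.Icc (0 : ℝ) 1 ∧ ¬ good s}.Finite)
    (h4 : ∀ s ∈ Set.Icc (0 : ℝ) 1, good s → 4 ∣ N s) (hm : 4 ∣ m)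
    (hloc : ∀ s ∈ Set.Icc (0 : ℝ) 1, ∃ c : ℕ, ∀ᶠ s' in 𝓝 s, good s' → N s' = c ∨ N s' = c + 4)
    (hg0 : good 0) (hg1 : good 1) (h0 : m ≤ N 0) (h1 : N 1 ≤ m) :
    ∃ s ∈ Set.Icc (0 : ℝ) 1, good s ∧ N s = m := by
  by_contra hcon
  push Not at hcon
  let A : Set ℝ := {s | ∀ᶠ s' in 𝓝 s, s' ∈ Set.Icc (0 : ℝ) 1 → good s' → N s' < m}
  let B : Set ℝ := {s | ∀ᶠ s' in 𝓝 s, s' ∈ Set.Icc (0 : ℝ) 1 → good s' → m < N s'}
  have hA : IsOpen A := by
    rw [isOpen_iff_mem_nhds]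
    intro s hs
    exact eventually_eventually_nhds.mpr hs
  have hB : IsOpen B := by
    rw [isOpen_iff_mem_nhds]
    intro s hs
    exact eventually_eventually_nhds.mpr hs
  have hcov : Set.Icc (0 : ℝ) 1 ⊆ A ∪ B := by
    intro s hs
    obtain ⟨c, hc⟩ := hloc s hs
    by_cases hcm : m ≤ c
    · right
      change ∀ᶠ s' in 𝓝 s, s' ∈ Set.Icc (0 : ℝ) 1 → good s' → m < N s'
      filter_upwards [hc] with s' h hs' hg'
      have hne := hcon s' hs' hg'
      rcases h hg' with h | h <;> omega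
    · left
      change ∀ᶠ s' in 𝓝 s, s' ∈ Set.Icc (0 : ℝ) 1 → good s' → N s' < m
      filter_upwards [hc] with s' h hs' hg'
      have hne := hcon s' hs' hg'
      have h4' := h4 s' hs' hg'
      rcases h hg' with h | h <;> omega
  have z0 : (0 : ℝ) ∈ Set.Icc (0 : ℝ) 1 := by simp
  have z1 : (1 : ℝ) ∈ Set.Icc (0 : ℝ) 1 := by simp
  have h0B : (0 : ℝ) ∈ B := by
    rcases hcov z0 with h | h
    · have h' : ∀ᶠ s' in 𝓝 (0 : ℝ), s' ∈ Set.Icc (0 : ℝ) 1 → good s' → N s' < m := h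
      have := h'.self_of_nhds z0 hg0
      omega
    · exact h
  have h1A : (1 : ℝ) ∈ A := by
    rcases hcov z1 with h | h
    · exact h
    · have h' : ∀ᶠ s' in 𝓝 (1 : ℝ), s' ∈ Set.Icc (0 : ℝ) 1 → good s' → m < N s' := h
      have := h'.self_of_nhds z1 hg1
      omega
  obtain ⟨s, hs, hsA, hsB⟩ := (isPreconnected_Icc (a := (0 : ℝ)) (b := 1)) A B hA hB hcov
    ⟨1, z1, h1A⟩ ⟨0, z0, h0B⟩
  have hsA' : ∀ᶠ s' in 𝓝 s, s' ∈ Set.Icc (0 : ℝ) 1 → good s' → N s' < m := hsA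
  have hsB' : ∀ᶠ s' in 𝓝 s, s' ∈ Set.Icc (0 : ℝ) 1 → good s' → m < N s' := hsB
  have hbad : ∀ᶠ s' in 𝓝 s, s' ∈ Set.Icc (0 : ℝ) 1 → ¬ good s' := by
    filter_upwards [hsA', hsB'] with s' ha hb hs' hg'
    have := ha hs' hg'
    have := hb hs' hg'
    omega
  obtain ⟨ε, hε, hball⟩ := Metric.eventually_nhds_iff.mp hbad
  have hlt : max 0 (s - ε / 2) < min 1 (s + ε / 2) := by
    have h01 := hs.1
    have h02 := hs.2
    simp only [lt_min_iff, max_lt_iff]
    constructor <;> constructor <;> linarith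
  have hinf := Set.Icc_infinite hlt
  apply hinf
  apply hfin.subset
  intro x hx
  have hx1 := hx.1
  have hx2 := hx.2
  simp only [le_min_iff, max_le_iff] at hx1 hx2
  have hxI : x ∈ Set.Icc (0 : ℝ) 1 := ⟨hx1.1, hx2.1⟩
  refine ⟨hxI, hball ?_ hxI⟩
  rw [Real.dist_eq, abs_lt]
  constructor <;> linarith [hx1.2, hx2.2]

theorem givt (h1 : Stmt_Fac) (h2 : Stmt_Seg) (h3 : Stmt_Stack) (h4 : Stmt_Path)
    (h5 : Stmt_Local) (h6 : Stmt_Four) : Stmt_IVT := by
  intro d V w₁ m hd hV hV1 hw1 hm4 hlo hhi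
  obtain ⟨l, F, hF, hlw⟩ := h1 d V w₁ (by omega) hV (givt_notMem hV1.cvx hw1)
  obtain ⟨ρ, hρ, hseg⟩ := h2 d V w₁ l F (by omega) hV hV1 hw1 hF hlw
  obtain ⟨U, hUo, hUn, hUs, hU⟩ := h3 d V l F hd hV hF ρ hρ
  obtain ⟨w₀, hw0, hG0, hOne, hfin⟩ := h4 d V w₁ U (by omega) hV hV1 hw1 hUo hUn
  have hw0l : 1 < l w₀ := (hU w₀ hw0).1
  have hN0 := (hU w₀ hw0).2 hG0
  have hseg' := hseg w₀ (hUs hw0) hw0l
  have hcont : Continuous (fun s : ℝ => (1 - s) • w₁ + s • w₀) := by fun_prop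
  obtain ⟨s, hs, hg, hN⟩ := givt_top
    (fun s => GP (add V ((1 - s) • w₁ + s • w₀)))
    (fun s => ne (add V ((1 - s) • w₁ + s • w₀))) m hfin
    (fun s hs hg => h6 d _ (by omega) (givt_conf hV hg (hseg' s hs).1)) hm4
    (fun s hs => by
      obtain ⟨c, hc⟩ := h5 d V _ hd hV (hseg' s hs).2 (hseg' s hs).1 (hOne s hs)
      exact ⟨c, hcont.continuousAt.eventually hc⟩)
    (by simpa using hV1.gp) (by simpa using hG0) (by simpa using hhi)
    (by
      have : ne (add V w₀) ≤ m := by rw [hN0.2]; exact hlo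
      simpa using this)
  exact ⟨_, (hseg' s hs).2, givt_conf hV hg (hseg' s hs).1, hN⟩

end Pool.CS4
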