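import Pool.Agent.CS4.Gap

/-! Module GLim of the MP_54ed1a_co project: limits of edges are weakly supported. -/

open Finset Filter Topology

noncomputable section

namespace Pool.CS4

/-- the vector of a functional -/
def glim_vec {d : ℕ} (l : E d →ₗ[ℝ] ℝ) : E d := fun i => l fun j => if i = j then 1 else 0

theorem glim_vec_apply {d : ℕ} (l : E d →ₗ[ℝ] ℝ) (z : E d) : l z = ∑ i, glim_vec l i * z i := by
  rw [LinearMap.pi_apply_eq_sum_univ l z]
  refine Finset.sum_congr rfl fun i _ => ?_
  rw [smul_eq_mul, mul_comm]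
  rfl

/-- the functional of a vector -/
def glim_fun {d : ℕ} (a : E d) : E d →ₗ[ℝ] ℝ := ∑ i, a i • LinearMap.proj i

theorem glim_fun_apply {d : ℕ} (a z : E d) : glim_fun a z = ∑ i, a i * z i := by
  unfold glim_fun
  rw [LinearMap.sum_apply]
  refine Finset.sum_congr rfl fun i _ => ?_
  rw [LinearMap.smul_apply, LinearMap.proj_apply, smul_eq_mul]

theorem glim_bdd {d : ℕ} (V : Finset (E d)) (hs : ∀ v ∈ V, -v ∈ V)
    (hsp : Submodule.span ℝ (V : Set (E d)) = ⊤) :
    ∃ C : E d, ∀ l : E d →ₗ[ℝ] ℝ, (∀ v ∈ V, l v ≤ 1) → glim_vec l ∈ Set.Icc (-C) C := by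
  have h1 : ∀ i : Fin d, ∃ c : E d → ℝ,
      (fun j => if i = j then (1 : ℝ) else 0) = ∑ v ∈ V, c v • v := by
    intro i
    have h2 : (fun j => if i = j then (1 : ℝ) else 0) ∈ Submodule.span ℝ (V : Set (E d)) := by
      rw [hsp]
      trivial
    rw [Submodule.mem_span_finset] at h2
    obtain ⟨c, -, hc⟩ := h2
    exact ⟨c, hc.symm⟩
  choose c hc using h1
  refine ⟨fun i => ∑ v ∈ V, |c i v|, fun l hl => ?_⟩
  have h3 : ∀ i, |glim_vec l i| ≤ ∑ v ∈ V, |c i v| := by
    intro i
    unfold glim_vec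
    rw [hc i, map_sum]
    refine (Finset.abs_sum_le_sum_abs _ _).trans (Finset.sum_le_sum fun v hv => ?_)
    rw [map_smul, smul_eq_mul, abs_mul]
    have h4 : |l v| ≤ 1 := by
      rw [abs_le]
      have := hl (-v) (hs v hv)
      rw [map_neg] at this
      exact ⟨by linarith, hl v hv⟩
    calc |c i v| * |l v| ≤ |c i v| * 1 := mul_le_mul_of_nonneg_left h4 (abs_nonneg _)
      _ = _ := mul_one _
  rw [Set.mem_Icc]
  constructor
  · intro i
    exact (abs_le.1 (h3 i)).1
  · intro i
    exact (abs_le.1 (h3 i)).2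

theorem glim_rel {d : ℕ} (w x : E d) : Tendsto (fun w' => rel w w' x) (𝓝 w) (𝓝 x) := by
  classical
  unfold rel
  by_cases h1 : x = w
  · simp only [if_pos h1]
    rw [h1]
    exact tendsto_id
  · by_cases h2 : x = -w
    · simp only [if_neg h1, if_pos h2]
      rw [h2]
      exact tendsto_id.neg
    · simp only [if_neg h1, if_neg h2]
      exact tendsto_const_nhds

theorem glim : Stmt_Lim := by
  classical
  intro d V w x y hd hV hw hx hy hfr
  obtain ⟨ws, hws, hE⟩ := Filter.exists_seq_forall_of_frequently hfr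
  have hl : ∀ n, ∃ l : E d →ₗ[ℝ] ℝ, l (rel w (ws n) x) = 1 ∧ l (rel w (ws n) y) = 1 ∧
      ∀ u ∈ add V (ws n), l u ≤ 1 := by
    intro n
    obtain ⟨-, l, h1, h2, h3⟩ := hE n
    refine ⟨l, h1, h2, fun u hu => ?_⟩
    by_cases hu1 : u = rel w (ws n) x
    · rw [hu1, h1]
    · by_cases hu2 : u = rel w (ws n) y
      · rw [hu2, h2]
      · exact (h3 u hu hu1 hu2).le
  choose l h1 h2 h3 using hl
  obtain ⟨C, hC⟩ := glim_bdd V hV.symm hV.span
  have hin : ∀ n, glim_vec (l n) ∈ Set.Icc (-C) C := by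
    intro n
    apply hC
    intro v hv
    apply h3 n
    unfold add
    exact Finset.mem_insert_of_mem (Finset.mem_insert_of_mem hv)
  obtain ⟨a, -, φ, hφ, ha⟩ := isCompact_Icc.tendsto_subseq hin
  have hlim : ∀ (z : E d) (zs : ℕ → E d), Tendsto zs atTop (𝓝 z) →
      Tendsto (fun n => l (φ n) (zs (φ n))) atTop (𝓝 (glim_fun a z)) := by
    intro z zs hzs
    rw [glim_fun_apply]
    have : (fun n => l (φ n) (zs (φ n))) = fun n => ∑ i, glim_vec (l (φ n)) i * zs (φ n) i := by
      funext n
      exact glim_vec_apply _ _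
    rw [this]
    refine tendsto_finset_sum _ fun i _ => ?_
    refine Tendsto.mul ?_ ?_
    · exact (tendsto_pi_nhds.1 ha) i
    · exact (tendsto_pi_nhds.1 (hzs.comp hφ.tendsto_atTop)) i
  refine ⟨glim_fun a, ?_, ?_, ?_⟩
  · have e := hlim x (fun n => rel w (ws n) x) ((glim_rel w x).comp hws)
    have e' : Tendsto (fun n => l (φ n) (rel w (ws (φ n)) x)) atTop (𝓝 1) := by
      simp only [h1]
      exact tendsto_const_nhds
    exact tendsto_nhds_unique e e'
  · have e := hlim y (fun n => rel w (ws n) y) ((glim_rel w y).comp hws)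
    have e' : Tendsto (fun n => l (φ n) (rel w (ws (φ n)) y)) atTop (𝓝 1) := by
      simp only [h2]
      exact tendsto_const_nhds
    exact tendsto_nhds_unique e e'
  · intro u hu
    unfold add at hu
    rcases Finset.mem_insert.1 hu with rfl | hu
    · refine le_of_tendsto (hlim u ws hws) (Filter.Eventually.of_forall fun n => ?_)
      exact h3 _ _ (Finset.mem_insert_self _ _)
    · rcases Finset.mem_insert.1 hu with rfl | hu
      · refine le_of_tendsto (hlim (-w) (fun n => -ws n) hws.neg)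
          (Filter.Eventually.of_forall fun n => ?_)
        exact h3 _ _ (Finset.mem_insert_of_mem (Finset.mem_insert_self _ _))
      · refine le_of_tendsto (hlim u (fun _ => u) tendsto_const_nhds)
          (Filter.Eventually.of_forall fun n => ?_)
        exact h3 _ _ (Finset.mem_insert_of_mem (Finset.mem_insert_of_mem hu))

end Pool.CS4
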