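import Pool.Agent.CS4.Gap

/-! Locally the number of edges takes at most two values. -/

open Finset Filter Topology Classical

noncomputable section

namespace Pool.CS4

lemma glocal_mem {d : ℕ} {V : Finset (E d)} {w u : E d} :
    u ∈ add V w ↔ u = w ∨ u = -w ∨ u ∈ V := by
  unfold add
  rw [Finset.mem_insert, Finset.mem_insert]

lemma glocal_rel_w {d : ℕ} (w w' : E d) : rel w w' w = w' := if_pos rfl

lemma glocal_rel_nw {d : ℕ} {w : E d} (h : w ≠ -w) (w' : E d) : rel w w' (-w) = -w' := by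
  unfold rel
  rw [if_neg (Ne.symm h), if_pos rfl]

lemma glocal_rel_o {d : ℕ} {w x : E d} (h1 : x ≠ w) (h2 : x ≠ -w) (w' : E d) :
    rel w w' x = x := by
  unfold rel
  rw [if_neg h1, if_neg h2]

lemma glocal_rel_neg {d : ℕ} {w : E d} (h : w ≠ -w) (w' x : E d) :
    rel w w' (-x) = -rel w w' x := by
  by_cases h1 : x = w
  · rw [h1, glocal_rel_nw h, glocal_rel_w]
  · by_cases h2 : x = -w
    · rw [h2, neg_neg, glocal_rel_nw h, glocal_rel_w, neg_neg]
    · rw [glocal_rel_o h1 h2, glocal_rel_o]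
      · intro h3
        apply h2
        rw [← h3, neg_neg]
      · intro h3
        exact h1 (neg_injective h3)

lemma glocal_rel_mem {d : ℕ} {V : Finset (E d)} {w w' x : E d} (hw : w ∉ V) (hw2 : -w ∉ V)
    (h : w ≠ -w) (hx : x ∈ add V w) : rel w w' x ∈ add V w' := by
  rw [glocal_mem] at hx ⊢
  rcases hx with rfl | rfl | hx
  · exact Or.inl (glocal_rel_w _ _)
  · exact Or.inr (Or.inl (glocal_rel_nw h _))
  · right; right
    rw [glocal_rel_o]
    · exact hx
    · rintro rfl; exact hw hx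
    · rintro rfl; exact hw2 hx

lemma glocal_rel_rel {d : ℕ} {V : Finset (E d)} {w w' x : E d} (hw : w ∉ V) (hw2 : -w ∉ V)
    (h : w ≠ -w) (hw' : w' ∉ V) (hw2' : -w' ∉ V) (h' : w' ≠ -w')
    (hx : x ∈ add V w) : rel w' w (rel w w' x) = x := by
  rw [glocal_mem] at hx
  rcases hx with rfl | rfl | hx
  · rw [glocal_rel_w, glocal_rel_w]
  · rw [glocal_rel_nw h, glocal_rel_nw h']
  · rw [glocal_rel_o (w := w), glocal_rel_o]
    · rintro rfl; exact hw' hx
    · rintro rfl; exact hw2' hx
    · rintro rfl; exact hw hx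
    · rintro rfl; exact hw2 hx

lemma glocal_edg_symm {d : ℕ} {V : Finset (E d)} {x y : E d} (h : Edg V x y) : Edg V y x := by
  obtain ⟨h1, l, h2, h3, h4⟩ := h
  exact ⟨Ne.symm h1, l, h3, h2, fun u hu hy hx => h4 u hu hx hy⟩

lemma glocal_edg_neg {d : ℕ} {V : Finset (E d)} (hV : ∀ v ∈ V, -v ∈ V) {x y : E d}
    (h : Edg V x y) : Edg V (-x) (-y) := by
  obtain ⟨h1, l, h2, h3, h4⟩ := h
  refine ⟨fun h => h1 (neg_injective h), -l, ?_, ?_, ?_⟩
  · rw [LinearMap.neg_apply, map_neg, neg_neg]; exact h2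
  · rw [LinearMap.neg_apply, map_neg, neg_neg]; exact h3
  · intro u hu hux huy
    rw [LinearMap.neg_apply, ← map_neg]
    refine h4 (-u) (hV u hu) (fun h => hux ?_) (fun h => huy ?_)
    · rw [← h, neg_neg]
    · rw [← h, neg_neg]

lemma glocal_symm {d : ℕ} {V : Finset (E d)} (hV : ∀ v ∈ V, -v ∈ V) (w : E d) :
    ∀ v ∈ add V w, -v ∈ add V w := by
  intro u hu
  rw [glocal_mem] at hu ⊢
  rcases hu with rfl | rfl | h
  · exact Or.inr (Or.inl rfl)
  · exact Or.inl (neg_neg _)
  · exact Or.inr (Or.inr (hV _ h))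

/-- the number of edges near `w` in terms of `add V w` -/
lemma glocal_ne {d : ℕ} {V : Finset (E d)} {w w' : E d} (hw : w ∉ V) (hw2 : -w ∉ V)
    (h : w ≠ -w) (hw' : w' ∉ V) (hw2' : -w' ∉ V) (h' : w' ≠ -w') :
    ne (add V w') = ((add V w ×ˢ add V w).filter fun z =>
      Edg (add V w') (rel w w' z.1) (rel w w' z.2)).card := by
  unfold ne
  symm
  apply Finset.card_nbij' (fun z => (rel w w' z.1, rel w w' z.2))
    (fun z => (rel w' w z.1, rel w' w z.2))
  · intro z hz
    simp only [Finset.coe_filter, Finset.mem_product, Set.mem_ofPred_eq] at hz ⊢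
    exact ⟨⟨glocal_rel_mem hw hw2 h hz.1.1, glocal_rel_mem hw hw2 h hz.1.2⟩, hz.2⟩
  · intro z hz
    simp only [Finset.coe_filter, Finset.mem_product, Set.mem_ofPred_eq] at hz ⊢
    refine ⟨⟨glocal_rel_mem hw' hw2' h' hz.1.1, glocal_rel_mem hw' hw2' h' hz.1.2⟩, ?_⟩
    rw [glocal_rel_rel hw' hw2' h' hw hw2 h hz.1.1, glocal_rel_rel hw' hw2' h' hw hw2 h hz.1.2]
    exact hz.2
  · intro z hz
    simp only [Finset.coe_filter, Finset.mem_product, Set.mem_ofPred_eq] at hz
    simp only
    rw [glocal_rel_rel hw hw2 h hw' hw2' h' hz.1.1, glocal_rel_rel hw hw2 h hw' hw2' h' hz.1.2]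
  · intro z hz
    simp only [Finset.coe_filter, Finset.mem_product, Set.mem_ofPred_eq] at hz
    simp only
    rw [glocal_rel_rel hw' hw2' h' hw hw2 h hz.1.1, glocal_rel_rel hw' hw2' h' hw hw2 h hz.1.2]

theorem glocal (h1 : Stmt_Pers) (h2 : Stmt_Lim) (h3 : Stmt_Excep) : Stmt_Local := by
  intro d V w hd hV hw hC hO
  have hw2 : -w ∉ V := by
    intro h
    apply hw
    rw [← neg_neg w]
    exact hV.symm _ h
  have hww : w ≠ -w := by
    intro h
    obtain ⟨l, hl, -⟩ := hC w (glocal_mem.2 (Or.inl rfl))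
    have h3 := congrArg l h
    rw [map_neg, hl] at h3
    linarith
  obtain ⟨p, q, hpq⟩ := h3 d V w hd hV hw hC hO
  refine ⟨ne (add V w), ?_⟩
  have e1 : ∀ᶠ w' in 𝓝 w, w' ∉ V := by
    have : IsOpen ((V : Set (E d))ᶜ) := (V.finite_toSet.isClosed).isOpen_compl
    filter_upwards [this.mem_nhds (by simpa using hw)] with w' hw'
    simpa using hw'
  have e2 : ∀ᶠ w' in 𝓝 w, -w' ∉ V := by
    have : IsOpen ((V : Set (E d))ᶜ) := (V.finite_toSet.isClosed).isOpen_compl
    have h4 : Tendsto (fun w' : E d => -w') (𝓝 w) (𝓝 (-w)) := continuous_neg.tendsto w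
    filter_upwards [h4 (this.mem_nhds (by simpa using hw2))] with w' hw'
    simpa using hw'
  have e3 : ∀ᶠ w' in 𝓝 w, w' ≠ -w' := by
    have h4 : IsOpen {w' : E d | w' ≠ -w'} := isOpen_ne_fun continuous_id continuous_neg
    exact h4.mem_nhds hww
  -- edges persist
  have e4 : ∀ᶠ w' in 𝓝 w, ∀ z ∈ add V w ×ˢ add V w, Edg (add V w) z.1 z.2 →
      Edg (add V w') (rel w w' z.1) (rel w w' z.2) := by
    rw [Filter.eventually_all_finset]
    intro z hz
    rw [Finset.mem_product] at hz
    by_cases hE : Edg (add V w) z.1 z.2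
    · exact (h1 d V w z.1 z.2 (by omega) hV hw hC hz.1 hz.2 hE).mono fun w' h _ => h
    · exact Filter.Eventually.of_forall fun w' h => absurd h hE
  have e5 : ∀ᶠ w' in 𝓝 w, ∀ z ∈ add V w ×ˢ add V w, ¬ Edg (add V w) z.1 z.2 →
      Edg (add V w') (rel w w' z.1) (rel w w' z.2) →
      z ∈ ({(p, q), (q, p), (-p, -q), (-q, -p)} : Finset (E d × E d)) := by
    rw [Filter.eventually_all_finset]
    intro z hz
    rw [Finset.mem_product] at hz
    by_cases hE : Edg (add V w) z.1 z.2
    · exact Filter.Eventually.of_forall fun w' h => absurd hE h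
    by_cases hz2 : z ∈ ({(p, q), (q, p), (-p, -q), (-q, -p)} : Finset (E d × E d))
    · exact Filter.Eventually.of_forall fun w' _ _ => hz2
    by_cases hz3 : z.1 = z.2
    · refine Filter.Eventually.of_forall fun w' _ h => ?_
      exact absurd (by rw [hz3]) h.1
    by_cases hfr : ∃ᶠ w' in 𝓝 w, Edg (add V w') (rel w w' z.1) (rel w w' z.2)
    · exfalso
      have h4 := h2 d V w z.1 z.2 (by omega) hV hw hz.1 hz.2 hfr
      have h5 := hpq z.1 hz.1 z.2 hz.2 hz3 h4 hE
      apply hz2
      simp only [Finset.mem_insert, Finset.mem_singleton, Prod.ext_iff]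
      exact h5
    · rw [Filter.not_frequently] at hfr
      exact hfr.mono fun w' h _ h' => absurd h' h
  filter_upwards [e1, e2, e3, e4, e5] with w' f1 f2 f3 f4 f5 _
  rw [glocal_ne hw hw2 hww f1 f2 f3]
  set A := (add V w ×ˢ add V w).filter fun z => Edg (add V w) z.1 z.2 with hA
  set B := (add V w ×ˢ add V w).filter fun z =>
      Edg (add V w') (rel w w' z.1) (rel w w' z.2) with hB
  have hAB : A ⊆ B := by
    intro z hz
    rw [hA, Finset.mem_filter] at hz
    rw [hB, Finset.mem_filter]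
    exact ⟨hz.1, f4 z hz.1 hz.2⟩
  have hne : ne (add V w) = A.card := rfl
  rw [hne, ← Finset.card_sdiff_add_card_eq_card hAB]
  by_cases hD : B \ A = ∅
  · left
    rw [hD, Finset.card_empty, zero_add]
  · right
    have hD4 : (B \ A).card ≤ 4 := by
      have h4 : B \ A ⊆ ({(p, q), (q, p), (-p, -q), (-q, -p)} : Finset (E d × E d)) := by
        intro z hz
        rw [Finset.mem_sdiff, hB, hA, Finset.mem_filter, Finset.mem_filter] at hz
        exact f5 z hz.1.1 (fun h => hz.2 ⟨hz.1.1, h⟩) hz.1.2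
      exact (Finset.card_le_card h4).trans Finset.card_le_four
    obtain ⟨⟨x, y⟩, hz⟩ := Finset.nonempty_iff_ne_empty.2 hD
    rw [Finset.mem_sdiff, hB, hA, Finset.mem_filter, Finset.mem_filter, Finset.mem_product] at hz
    obtain ⟨⟨⟨hx, hy⟩, hE'⟩, hE⟩ := hz
    simp only at hx hy hE'
    have hEo : ¬ Edg (add V w) x y := fun h => hE ⟨⟨hx, hy⟩, h⟩
    have hs := glocal_symm hV.symm w
    have hs' := glocal_symm hV.symm w'
    have m1 : ∀ a b, a ∈ add V w → b ∈ add V w → Edg (add V w') (rel w w' a) (rel w w' b) →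
        ¬ Edg (add V w) a b → (a, b) ∈ B \ A := by
      intro a b ha hb h h'
      rw [Finset.mem_sdiff, hB, hA, Finset.mem_filter, Finset.mem_filter, Finset.mem_product]
      exact ⟨⟨⟨ha, hb⟩, h⟩, fun h2 => h' h2.2⟩
    have hnn : ∀ a b, Edg (add V w) (-a) (-b) → Edg (add V w) a b := by
      intro a b h
      have := glocal_edg_neg hs h
      rwa [neg_neg, neg_neg] at this
    have k1 := m1 x y hx hy hE' hEo
    have k2 := m1 y x hy hx (glocal_edg_symm hE') (fun h => hEo (glocal_edg_symm h))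
    have k3 := m1 (-x) (-y) (hs x hx) (hs y hy) (by
      rw [glocal_rel_neg hww, glocal_rel_neg hww]
      exact glocal_edg_neg hs' hE') (fun h => hEo (hnn _ _ h))
    have k4 := m1 (-y) (-x) (hs y hy) (hs x hx) (by
      rw [glocal_rel_neg hww, glocal_rel_neg hww]
      exact glocal_edg_neg hs' (glocal_edg_symm hE'))
      (fun h => hEo (glocal_edg_symm (hnn _ _ h)))
    obtain ⟨hxy, l, lx, ly, -⟩ := hE'
    have hxy' : x ≠ y := fun h => hxy (by rw [h])
    have hxx : x ≠ -x := by
      intro h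
      have h5 := congrArg (fun z => l (rel w w' z)) h
      rw [glocal_rel_neg hww, map_neg, lx] at h5
      linarith
    have hyy : y ≠ -y := by
      intro h
      have h5 := congrArg (fun z => l (rel w w' z)) h
      rw [glocal_rel_neg hww, map_neg, ly] at h5
      linarith
    have hxny : x ≠ -y := by
      intro h
      have h5 := congrArg (fun z => l (rel w w' z)) h
      rw [glocal_rel_neg hww, map_neg, lx, ly] at h5
      linarith
    have hsub : ({(x, y), (y, x), (-x, -y), (-y, -x)} : Finset (E d × E d)) ⊆ B \ A := by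
      intro z hz
      simp only [Finset.mem_insert, Finset.mem_singleton] at hz
      rcases hz with rfl | rfl | rfl | rfl
      · exact k1
      · exact k2
      · exact k3
      · exact k4
    have hc4 : ({(x, y), (y, x), (-x, -y), (-y, -x)} : Finset (E d × E d)).card = 4 := by
      rw [Finset.card_insert_of_notMem, Finset.card_insert_of_notMem,
        Finset.card_insert_of_notMem, Finset.card_singleton]
      · rw [Finset.mem_singleton, Prod.mk.injEq]
        rintro ⟨h, -⟩
        exact hxy' (neg_injective h)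
      · rw [Finset.mem_insert, Finset.mem_singleton, Prod.mk.injEq, Prod.mk.injEq]
        rintro (⟨h, -⟩ | ⟨h, -⟩)
        · apply hxny
          rw [h, neg_neg]
        · exact hyy h
      · simp only [Finset.mem_insert, Finset.mem_singleton, Prod.mk.injEq]
        rintro (⟨h, -⟩ | ⟨h, -⟩ | ⟨h, -⟩)
        · exact hxy' h
        · exact hxx h
        · exact hxny h
    have := Finset.card_le_card hsub
    omega

end Pool.CS4
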