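import Pool.Agent.CS4.Gap

/-! No gaps: the assembly. -/

open Finset Filter Topology Classical

noncomputable section

namespace Pool.CS4

lemma gnogap_card {d : ℕ} {V : Finset (E d)} {w : E d} (hV : Conf d V) (hw : w ∉ V)
    (hC : Conf d (add V w)) : (add V w).card = V.card + 2 := by
  have h1 : -w ∉ V := by
    intro h
    apply hw
    rw [← neg_neg w]
    exact hV.symm _ h
  have h2 : w ≠ -w := by
    intro h
    obtain ⟨l, hl, -⟩ := hC.cvx w (by unfold add; exact Finset.mem_insert_self _ _)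
    have h3 := congrArg l h
    rw [map_neg, hl] at h3
    linarith
  unfold add
  rw [Finset.card_insert_of_notMem, Finset.card_insert_of_notMem h1]
  rw [Finset.mem_insert]
  push Not
  exact ⟨h2, hw⟩

lemma gnogap_core (h3 : Stmt_Stack) (h4 : Stmt_GPex)
    (h5 : Stmt_IVT) (h6 : Stmt_Sub) (h7 : Stmt_Base) {d : ℕ} (hd : 4 ≤ d) :
    ∀ (n : ℕ) (V : Finset (E d)) (m : ℕ), V.card = n → Conf d V → 4 ∣ m →
      2 * d * V.card ≤ m + 4 * d → m ≤ ne V →
      ∃ V' : Finset (E d), Conf d V' ∧ V'.card = V.card ∧ ne V' = m := by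
  intro n
  induction n using Nat.strong_induction_on with
  | _ n ih =>
    intro V m hn hV h4m hm hm2
    obtain ⟨hb1, hb2, -, -⟩ := h7 d V (by omega) hV
    by_cases hlt : 2 * d < V.card
    · obtain ⟨V₁, w, hV₁, hw, rfl, hc⟩ := h6 d V (by omega) hV hlt
      obtain ⟨hb3, -, -, -⟩ := h7 d V₁ (by omega) hV₁
      rw [hc] at hm
      by_cases hbig : ne V₁ + 4 * d ≤ m
      · obtain ⟨w', hw', hC', hne⟩ := h5 d V₁ w m hd hV₁ hV hw h4m hbig hm2
        exact ⟨add V₁ w', hC', by rw [gnogap_card hV₁ hw' hC', hc], hne⟩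
      · push Not at hbig
        have e1 : 4 * d ≤ 2 * d * V₁.card := by nlinarith
        have e2 : 4 * d ≤ m := by nlinarith
        obtain ⟨V₂, hV₂, hc₂, hne₂⟩ := ih V₁.card (by omega) V₁ (m - 4 * d) rfl hV₁
          (by omega) (by
            have : 2 * d * (V₁.card + 2) = 2 * d * V₁.card + 4 * d := by ring
            omega) (by omega)
        obtain ⟨-, -, -, l, F, hF⟩ := h7 d V₂ (by omega) hV₂
        obtain ⟨U, hUo, hUn, -, hU⟩ := h3 d V₂ l F hd hV₂ hF 1 one_pos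
        obtain ⟨w₂, hw₂U, hw₂, hGP⟩ := h4 d V₂ U (by omega) hV₂ hUo hUn
        obtain ⟨hC₂, hne⟩ := (hU w₂ hw₂U).2 hGP
        refine ⟨add V₂ w₂, hC₂, ?_, ?_⟩
        · rw [gnogap_card hV₂ hw₂ hC₂, hc₂, hc]
        · rw [hne, hne₂]
          omega
    · have hcard : V.card = 2 * d := by omega
      have hne := hb2 hcard
      refine ⟨V, hV, rfl, ?_⟩
      rw [hcard] at hm
      obtain ⟨e, rfl⟩ : ∃ e, d = e + 1 := ⟨d - 1, by omega⟩
      rw [hne] at hm2 ⊢
      simp only [Nat.add_sub_cancel] at hm2 ⊢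
      nlinarith

theorem gnogap (h1 : Stmt_Conf) (h2 : Stmt_Pert) (h3 : Stmt_Stack) (h4 : Stmt_GPex)
    (h5 : Stmt_IVT) (h6 : Stmt_Sub) (h7 : Stmt_Base) (h8 : Stmt_g2d) (h9 : Stmt_Four) :
    Stmt_NoGap := by
  intro d V g hd hV hg1 hg2 hg3
  obtain ⟨V₀, hV₀, hc₀, hne₀⟩ := h2 d V (by omega) hV
  obtain ⟨hb1, -, -, -⟩ := h7 d V₀ (by omega) hV₀
  have hfour := h9 d V₀ (by omega) hV₀
  have hgv := h8 d V (by omega) hV (by omega)
  have hch : ((d + 1).choose 2 : ℤ) = d.choose 2 + d := by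
    have := Nat.choose_succ_succ d 1
    rw [Nat.choose_one_right] at this
    have h : (d + 1).choose 2 = d + d.choose 2 := this
    rw [h]
    push_cast
    ring
  have hdV : (2 : ℤ) * d ≤ d * V.card := by
    have : (2 : ℤ) ≤ V.card := by
      rw [← hc₀]
      exact_mod_cast (by omega : 2 ≤ V₀.card)
    nlinarith
  obtain ⟨m, hm⟩ : ∃ m : ℕ, (m : ℤ) = 2 * (g + d * V.card - (d + 1).choose 2) := by
    refine ⟨(2 * (g + d * V.card - (d + 1).choose 2)).toNat, ?_⟩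
    rw [Int.toNat_of_nonneg]
    linarith
  have hm4 : 4 ∣ m := by
    have e1 : (ne V₀ : ℤ) - m = 2 * (gv d V 2 - g) := by
      rw [hm, hne₀, hgv]
      push_cast
      ring
    obtain ⟨a, ha⟩ := hfour
    obtain ⟨b, hb⟩ := hg3
    rw [hb, ha] at e1
    push_cast at e1
    have e2 : (m : ℤ) = 4 * ((a : ℤ) - b) := by linarith
    have e3 : (4 : ℤ) ∣ (m : ℤ) := ⟨_, e2⟩
    exact_mod_cast e3
  obtain ⟨V', hV', hc', hne'⟩ := gnogap_core h3 h4 h5 h6 h7 hd _ V₀ m rfl hV₀ hm4 (by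
    have : (2 * d * V₀.card : ℤ) ≤ m + 4 * d := by
      rw [hm, hc₀]
      linarith
    exact_mod_cast this) (by
    have : (m : ℤ) ≤ ne V₀ := by
      rw [hm, hne₀]
      push_cast
      linarith
    exact_mod_cast this)
  obtain ⟨hcs, hne2⟩ := h1 d V' (by omega) hV'
  refine ⟨V', hcs, by rw [hc', hc₀], ?_⟩
  rw [h8 d V' (by omega) hcs (by omega)]
  have e1 : (2 : ℤ) * fv V' 2 = m := by
    rw [← hne', hne2]
    push_cast
    ring
  rw [hm] at e1
  rw [hc', hc₀]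
  linarith

end Pool.CS4
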