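import Pool.Agent.CS4.GGPex

/-! Module GPath of the MP_54ed1a_co project: a path that meets the bad hyperplanes one by one. -/

open Finset Filter Topology

noncomputable section

namespace Pool.CS4

/-- the affine subspace `m = c` -/
def gpath_sub {d : ℕ} (m : E d →ₗ[ℝ] ℝ) (c : ℝ) : AffineSubspace ℝ (E d) where
  carrier := {y | m y = c}
  smul_vsub_vadd_mem' := by
    intro r p1 p2 p3 h1 h2 h3
    simp only [Set.mem_ofPred_eq] at h1 h2 h3 ⊢
    rw [vsub_eq_sub, vadd_eq_add, map_add, map_smul, map_sub, h1, h2, h3, sub_self, smul_zero,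
      zero_add]

theorem gpath_mem {d : ℕ} (m : E d →ₗ[ℝ] ℝ) (c : ℝ) (y : E d) :
    y ∈ gpath_sub m c ↔ m y = c := Iff.rfl

theorem gpath_le {d : ℕ} (S : Finset (E d)) (l : E d →ₗ[ℝ] ℝ) (h : ∀ x ∈ S, l x = 1) {w : E d}
    (hw : w ∈ affineSpan ℝ (S : Set (E d))) : l w = 1 := by
  have h1 : affineSpan ℝ (S : Set (E d)) ≤ gpath_sub l 1 := by
    rw [affineSpan_le]
    intro x hx
    exact h x hx
  exact h1 hw

theorem gpath_hyp {d : ℕ} (T : Finset (E d))
    (hA : AffineIndependent ℝ (fun x : {x // x ∈ T} => (x : E d))) (hc : T.card = d + 1)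
    (l : E d →ₗ[ℝ] ℝ) (h : ∀ x ∈ T, l x = 1) : False := by
  have hfr : Module.finrank ℝ (E d) = d := by simp
  have htop : affineSpan ℝ (Set.range (fun x : {x // x ∈ T} => (x : E d))) = ⊤ := by
    rw [hA.affineSpan_eq_top_iff_card_eq_finrank_add_one, hfr, Fintype.card_coe, hc]
  have hle : affineSpan ℝ (Set.range (fun x : {x // x ∈ T} => (x : E d))) ≤ gpath_sub l 1 := by
    rw [affineSpan_le]
    rintro _ ⟨x, rfl⟩
    exact h _ x.2
  rw [htop] at hle
  have h0 : (0 : E d) ∈ gpath_sub l 1 := hle trivial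
  rw [gpath_mem, map_zero] at h0
  exact zero_ne_one h0

/-- no `d + 1` points of a set in general position with a common level 1 -/
theorem gpath_level {d : ℕ} {W T : Finset (E d)} (hG : GP W) (hT : T ⊆ W) (hc : T.card = d + 1)
    (l : E d →ₗ[ℝ] ℝ) (h : ∀ x ∈ T, l x = 1) : False := by
  have hN : NoAnti T := by
    intro x hx hx'
    have h1 := h x hx
    have h2 := h _ hx'
    rw [map_neg, h1] at h2
    norm_num at h2
  exact gpath_hyp T ((hG T hT hN).2 hc.le) hc l h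

theorem gpath_ex {d : ℕ} (hd : 1 ≤ d) {V S : Finset (E d)} (hG : GP V) (hS : S ⊆ V)
    (hc : S.card = d) (hN : NoAnti S) : ∃ l : E d →ₗ[ℝ] ℝ, ∀ x ∈ S, l x = 1 := by
  have hL := (hG S hS hN).1 hc.le
  have hne : Nonempty {x // x ∈ S} := by
    have : S.Nonempty := by
      rw [← Finset.card_pos]
      omega
    obtain ⟨x, hx⟩ := this
    exact ⟨⟨x, hx⟩⟩
  have hfr : Fintype.card {x // x ∈ S} = Module.finrank ℝ (E d) := by
    rw [Fintype.card_coe, hc]
    simp
  let b := basisOfLinearIndependentOfCardEqFinrank hL hfr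
  refine ⟨b.constr ℝ (fun _ => (1 : ℝ)), fun x hx => ?_⟩
  have h1 : b ⟨x, hx⟩ = x := by
    rw [coe_basisOfLinearIndependentOfCardEqFinrank]
  have h2 := b.constr_basis ℝ (fun _ => (1 : ℝ)) ⟨x, hx⟩
  rwa [h1] at h2

open Classical in
/-- a functional with value 1 on `S` -/
def gpath_l {d : ℕ} (S : Finset (E d)) : E d →ₗ[ℝ] ℝ :=
  if h : ∃ l : E d →ₗ[ℝ] ℝ, ∀ x ∈ S, l x = 1 then h.choose else 0

theorem gpath_l_spec {d : ℕ} {S : Finset (E d)}
    (h : ∃ l : E d →ₗ[ℝ] ℝ, ∀ x ∈ S, l x = 1) : ∀ x ∈ S, gpath_l S x = 1 := by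
  unfold gpath_l
  rw [dif_pos h]
  exact h.choose_spec

/-- the affine subspace of two hyperplanes -/
def gpath_K {d : ℕ} (w₁ : E d) (S : Finset (E d) × Finset (E d)) : AffineSubspace ℝ (E d) :=
  gpath_sub ((gpath_l S.1 w₁ - 1) • gpath_l S.2 - (gpath_l S.2 w₁ - 1) • gpath_l S.1)
    ((gpath_l S.1 w₁ - 1) - (gpath_l S.2 w₁ - 1))

theorem gpath_K_ne {d : ℕ} {V : Finset (E d)} (hG : GP V) (w₁ : E d) (S S' : Finset (E d))
    (hS : S ⊆ V) (hS' : S' ⊆ V) (hc : S.card = d) (hc' : S'.card = d)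
    (hl : ∀ x ∈ S, gpath_l S x = 1) (hl' : ∀ x ∈ S', gpath_l S' x = 1)
    (hne : S ≠ S') (h1 : gpath_l S w₁ ≠ 1) : gpath_K w₁ (S, S') ≠ ⊤ := by
  classical
  intro h
  have h0 : (0 : E d) ∈ gpath_K w₁ (S, S') := by rw [h]; trivial
  unfold gpath_K at h0
  rw [gpath_mem, map_zero] at h0
  have ha : gpath_l S w₁ - 1 = gpath_l S' w₁ - 1 := by
    simp only at h0
    linarith
  have ha0 : gpath_l S w₁ - 1 ≠ 0 := sub_ne_zero.2 h1
  have heq : ∀ z, gpath_l S' z = gpath_l S z := by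
    intro z
    have hz : z ∈ gpath_K w₁ (S, S') := by rw [h]; trivial
    unfold gpath_K at hz
    rw [gpath_mem] at hz
    simp only [LinearMap.sub_apply, LinearMap.smul_apply, smul_eq_mul] at hz
    rw [← ha, sub_self, ← mul_sub] at hz
    rcases mul_eq_zero.1 hz with h2 | h2
    · exact absurd h2 ha0
    · linarith
  obtain ⟨x, hx, hx'⟩ : ∃ x ∈ S', x ∉ S := by
    by_contra hcon
    push Not at hcon
    exact hne (Finset.eq_of_subset_of_card_le hcon (by omega)).symm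
  refine gpath_level hG (T := insert x S) ?_ ?_ (gpath_l S) ?_
  · intro z hz
    rcases Finset.mem_insert.1 hz with rfl | hz
    · exact hS' hx
    · exact hS hz
  · rw [Finset.card_insert_of_notMem hx', hc]
  · intro z hz
    rcases Finset.mem_insert.1 hz with rfl | hz
    · rw [← heq, hl' _ hx]
    · exact hl z hz

/-- a point off an affine subspace: the line meets it at most once -/
theorem gpath_line {d : ℕ} (Q : AffineSubspace ℝ (E d)) (w₁ w₀ : E d) (h0 : w₀ ∉ Q) :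
    {s : ℝ | (1 - s) • w₁ + s • w₀ ∈ Q}.Subsingleton := by
  intro s hs s' hs'
  by_contra hne
  apply h0
  have h1 : s' - s ≠ 0 := sub_ne_zero.2 (fun h => hne h.symm)
  have h2 := AffineMap.lineMap_mem ((1 - s) / (s' - s)) (show _ ∈ Q from hs) (show _ ∈ Q from hs')
  have h3 : AffineMap.lineMap ((1 - s) • w₁ + s • w₀) ((1 - s') • w₁ + s' • w₀)
      ((1 - s) / (s' - s)) = w₀ := by
    rw [AffineMap.lineMap_apply_module]
    ext i
    simp only [Pi.add_apply, Pi.smul_apply, smul_eq_mul]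
    field_simp
    ring
  rwa [h3] at h2

theorem gpath : Stmt_Path := by
  classical
  intro d V w₁ U hd hV hV1 hw1 hU hne
  -- functionals at `w₁`
  have hl : ∀ S : Finset (E d), S ⊆ V → S.card = d → NoAnti S → ∀ x ∈ S, gpath_l S x = 1 :=
    fun S hS hc hN => gpath_l_spec (gpath_ex (by omega) hV.gp hS hc hN)
  have hl1 : ∀ S : Finset (E d), S ⊆ V → S.card = d → NoAnti S → gpath_l S w₁ ≠ 1 := by
    intro S hS hc hN h1
    have hwS : w₁ ∉ S := fun h => hw1 (hS h)
    refine gpath_level hV1.gp (T := insert w₁ S) ?_ ?_ (gpath_l S) ?_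
    · intro z hz
      unfold add
      rcases Finset.mem_insert.1 hz with rfl | hz
      · exact Finset.mem_insert_self _ _
      · exact Finset.mem_insert_of_mem (Finset.mem_insert_of_mem (hS hz))
    · rw [Finset.card_insert_of_notMem hwS, hc]
    · intro z hz
      rcases Finset.mem_insert.1 hz with rfl | hz
      · exact h1
      · exact hl S hS hc hN z hz
  let J : Finset (Finset (E d) × Finset (E d)) :=
    (V.powerset ×ˢ V.powerset).filter fun S =>
      S.1.card = d ∧ S.2.card = d ∧ NoAnti S.1 ∧ NoAnti S.2 ∧ S.1 ≠ S.2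
  let Q : (Finset (E d) × Bool) ⊕ (Finset (E d) × Finset (E d)) → AffineSubspace ℝ (E d) :=
    Sum.elim ggpex_bad (gpath_K w₁)
  have hQ : ∀ i ∈ (ggpex_idx V).disjSum J, Q i ≠ ⊤ := by
    intro i hi
    rcases Finset.mem_disjSum.1 hi with ⟨S, hS, rfl⟩ | ⟨S, hS, rfl⟩
    · exact ggpex_bad_ne (by omega) V S hS
    · obtain ⟨S1, S2⟩ := S
      rw [Finset.mem_filter, Finset.mem_product, Finset.mem_powerset, Finset.mem_powerset] at hS
      obtain ⟨⟨h1, h2⟩, h3, h4, h5, h6, h7⟩ := hS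
      exact gpath_K_ne hV.gp w₁ S1 S2 h1 h2 h3 h4 (hl S1 h1 h3 h5) (hl S2 h2 h4 h6) h7
        (hl1 S1 h1 h3 h5)
  obtain ⟨w₀, hw0, hav⟩ := ggpex_avoid _ Q hQ U hU hne
  have hbad : ∀ S ∈ ggpex_idx V, w₀ ∉ ggpex_bad S := by
    intro S hS
    exact hav (Sum.inl S) (Finset.mem_disjSum.2 (Or.inl ⟨S, hS, rfl⟩))
  refine ⟨w₀, hw0, ggpex_gp hV.symm hV.gp (ggpex_good V w₀ hbad), ?_, ?_⟩
  · intro s hs S S' hS hS' hc hc' hN hN' hw hw'
    by_contra hSS
    have e1 := gpath_le S (gpath_l S) (hl S hS hc hN) hw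
    have e2 := gpath_le S' (gpath_l S') (hl S' hS' hc' hN') hw'
    rw [map_add, map_smul, map_smul, smul_eq_mul, smul_eq_mul] at e1 e2
    have a1 := hl1 S hS hc hN
    have hK : w₀ ∉ gpath_K w₁ (S, S') := by
      refine hav (Sum.inr (S, S')) (Finset.mem_disjSum.2 (Or.inr ⟨(S, S'), ?_, rfl⟩))
      rw [Finset.mem_filter, Finset.mem_product, Finset.mem_powerset, Finset.mem_powerset]
      exact ⟨⟨hS, hS'⟩, hc, hc', hN, hN', hSS⟩
    apply hK
    unfold gpath_K
    rw [gpath_mem]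
    simp only [LinearMap.sub_apply, LinearMap.smul_apply, smul_eq_mul]
    have hs0 : s ≠ 0 := by
      rintro rfl
      apply a1
      linarith
    have hmul : s * (((gpath_l S) w₁ - 1) * (gpath_l S') w₀ - ((gpath_l S') w₁ - 1) * (gpath_l S) w₀
        - ((gpath_l S) w₁ - 1 - ((gpath_l S') w₁ - 1))) = 0 := by
      linear_combination ((gpath_l S) w₁ - 1) * e2 - ((gpath_l S') w₁ - 1) * e1
    rcases mul_eq_zero.1 hmul with h | h
    · exact absurd h hs0
    · linarith
  · refine Set.Finite.subset (s := ⋃ S ∈ ggpex_idx V,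
      {s : ℝ | (1 - s) • w₁ + s • w₀ ∈ ggpex_bad S}) ?_ ?_
    · refine Set.Finite.biUnion (Finset.finite_toSet _) fun S hS => ?_
      exact (gpath_line _ w₁ w₀ (hbad S hS)).finite
    · rintro s ⟨-, hs⟩
      by_contra hcon
      apply hs
      refine ggpex_gp hV.symm hV.gp (ggpex_good V _ fun S hS hmem => hcon ?_)
      exact Set.mem_biUnion (show S ∈ (ggpex_idx V : Set _) from hS) hmem

end Pool.CS4
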