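import Pool.Agent.CS4.Gap

/-!
Edges persist under a small move of the point `w`.
-/

open Finset Filter Topology

noncomputable section

namespace Pool.CS4

lemma mem_addGPers {d : ℕ} {V : Finset (E d)} {w x : E d} :
    x ∈ add V w ↔ x = w ∨ x = -w ∨ x ∈ V := by
  unfold add
  rw [Finset.mem_insert, Finset.mem_insert]

lemma relSelfGPers {d : ℕ} (w x : E d) : rel w w x = x := by
  unfold rel
  split_ifs with h1 h2
  · exact h1.symm
  · exact h2.symm
  · rfl

lemma relContGPers {d : ℕ} (w x : E d) : Continuous fun w' => rel w w' x := by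
  unfold rel
  split_ifs
  · exact continuous_id
  · exact continuous_neg
  · exact continuous_const

lemma relSurjGPers {d : ℕ} {V : Finset (E d)} {w w' u : E d} (hs : ∀ v ∈ V, -v ∈ V)
    (hw : w ∉ V) (hw0 : w ≠ 0) (hu : u ∈ add V w') : ∃ z ∈ add V w, rel w w' z = u := by
  rw [mem_addGPers] at hu
  rcases hu with h | h | h
  · refine ⟨w, mem_addGPers.2 (Or.inl rfl), ?_⟩
    unfold rel
    rw [if_pos rfl, h]
  · refine ⟨-w, mem_addGPers.2 (Or.inr (Or.inl rfl)), ?_⟩
    unfold rel
    rw [if_neg, if_pos rfl, h]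
    intro h1
    exact hw0 (neg_eq_self.1 h1)
  · refine ⟨u, mem_addGPers.2 (Or.inr (Or.inr h)), ?_⟩
    unfold rel
    rw [if_neg, if_neg]
    · intro h1
      have h2 := hs u h
      rw [h1, neg_neg] at h2
      exact hw h2
    · intro h1
      rw [h1] at h
      exact hw h

/-- a persistent supporting functional: general form -/
lemma persGPers {d : ℕ} (A : Finset (E d)) (R : E d → E d → E d) (w x y : E d)
    (hR : ∀ u, Continuous fun w' => R w' u) (hRw : ∀ u, R w u = u) (hxy : x ≠ y)
    (l : E d →ₗ[ℝ] ℝ) (hlx : l x = 1) (hly : l y = 1)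
    (hl : ∀ u ∈ A, u ≠ x → u ≠ y → l u < 1) :
    ∀ᶠ w' in 𝓝 w, R w' x ≠ R w' y ∧ ∃ l' : E d →ₗ[ℝ] ℝ, l' (R w' x) = 1 ∧ l' (R w' y) = 1 ∧
      ∀ u ∈ A, u ≠ x → u ≠ y → l' (R w' u) < 1 := by
  obtain ⟨i, hi⟩ : ∃ i, x i ≠ y i := by
    by_contra hcon
    push Not at hcon
    exact hxy (funext hcon)
  let m : E d →ₗ[ℝ] ℝ := (x i - y i)⁻¹ • LinearMap.proj i
  have hm : m x - m y = 1 := by
    show (x i - y i)⁻¹ * x i - (x i - y i)⁻¹ * y i = 1
    rw [← mul_sub, inv_mul_cancel₀ (sub_ne_zero.2 hi)]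
  let f : E d →ₗ[ℝ] ℝ := m - m y • l
  let g : E d →ₗ[ℝ] ℝ := l - f
  have hfx : f x = 1 := by
    show m x - m y * l x = 1
    rw [hlx]
    linarith
  have hfy : f y = 0 := by
    show m y - m y * l y = 0
    rw [hly]
    ring
  have hgx : g x = 0 := by
    show l x - f x = 0
    rw [hlx, hfx]
    ring
  have hgy : g y = 1 := by
    show l y - f y = 1
    rw [hly, hfy]
    ring
  have cl : ∀ (h : E d →ₗ[ℝ] ℝ) (u : E d), Continuous fun w' => h (R w' u) := fun h u =>
    (LinearMap.continuous_of_finiteDimensional h).comp (hR u)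
  let D : E d → ℝ := fun w' => f (R w' x) * g (R w' y) - g (R w' x) * f (R w' y)
  let a : E d → ℝ := fun w' =>
    ((1 - l (R w' x)) * g (R w' y) - (1 - l (R w' y)) * g (R w' x)) / D w'
  let b : E d → ℝ := fun w' =>
    ((1 - l (R w' y)) * f (R w' x) - (1 - l (R w' x)) * f (R w' y)) / D w'
  have hDw : D w = 1 := by
    show f (R w x) * g (R w y) - g (R w x) * f (R w y) = 1
    rw [hRw, hRw, hfx, hgy, hgx, hfy]
    ring
  have hDc : Continuous D := ((cl f x).mul (cl g y)).sub ((cl g x).mul (cl f y))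
  have haw : a w = 0 := by
    show ((1 - l (R w x)) * g (R w y) - (1 - l (R w y)) * g (R w x)) / D w = 0
    rw [hRw, hRw, hlx, hly, hDw]
    ring
  have hbw : b w = 0 := by
    show ((1 - l (R w y)) * f (R w x) - (1 - l (R w x)) * f (R w y)) / D w = 0
    rw [hRw, hRw, hlx, hly, hDw]
    ring
  have hac : ContinuousAt a w := by
    refine ContinuousAt.div ?_ hDc.continuousAt (by rw [hDw]; norm_num)
    exact (((continuous_const.sub (cl l x)).mul (cl g y)).sub
      ((continuous_const.sub (cl l y)).mul (cl g x))).continuousAt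
  have hbc : ContinuousAt b w := by
    refine ContinuousAt.div ?_ hDc.continuousAt (by rw [hDw]; norm_num)
    exact (((continuous_const.sub (cl l y)).mul (cl f x)).sub
      ((continuous_const.sub (cl l x)).mul (cl f y))).continuousAt
  have hD0 : ∀ᶠ w' in 𝓝 w, D w' ≠ 0 :=
    hDc.continuousAt.eventually_ne (by rw [hDw]; norm_num)
  have hne : ∀ᶠ w' in 𝓝 w, R w' x ≠ R w' y := by
    have h1 : ContinuousAt (fun w' => R w' x - R w' y) w :=
      ((hR x).sub (hR y)).continuousAt
    have h2 : ∀ᶠ w' in 𝓝 w, R w' x - R w' y ≠ 0 :=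
      h1.eventually_ne (by rw [hRw, hRw]; exact sub_ne_zero.2 hxy)
    filter_upwards [h2] with w' h3
    exact sub_ne_zero.1 h3
  have hlt : ∀ u ∈ A, ∀ᶠ w' in 𝓝 w, u ≠ x → u ≠ y →
      l (R w' u) + a w' * f (R w' u) + b w' * g (R w' u) < 1 := by
    intro u hu
    by_cases hux : u = x
    · exact Eventually.of_forall fun _ h => absurd hux h
    by_cases huy : u = y
    · exact Eventually.of_forall fun _ _ h => absurd huy h
    have h1 : ContinuousAt
        (fun w' => l (R w' u) + a w' * f (R w' u) + b w' * g (R w' u)) w :=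
      (((cl l u).continuousAt).add (hac.mul (cl f u).continuousAt)).add
        (hbc.mul (cl g u).continuousAt)
    have h2 : l (R w u) + a w * f (R w u) + b w * g (R w u) < 1 := by
      rw [haw, hbw, hRw]
      simpa using hl u hu hux huy
    filter_upwards [h1.eventually_lt continuousAt_const h2] with w' h3 _ _
    exact h3
  have hall : ∀ᶠ w' in 𝓝 w, ∀ u ∈ A, u ≠ x → u ≠ y →
      l (R w' u) + a w' * f (R w' u) + b w' * g (R w' u) < 1 :=
    (Finset.eventually_all A).2 hlt
  filter_upwards [hD0, hne, hall] with w' h1 h2 h3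
  refine ⟨h2, l + a w' • f + b w' • g, ?_, ?_, ?_⟩
  · show l (R w' x) + a w' * f (R w' x) + b w' * g (R w' x) = 1
    have h4 : a w' * D w' = (1 - l (R w' x)) * g (R w' y) - (1 - l (R w' y)) * g (R w' x) :=
      div_mul_cancel₀ _ h1
    have h5 : b w' * D w' = (1 - l (R w' y)) * f (R w' x) - (1 - l (R w' x)) * f (R w' y) :=
      div_mul_cancel₀ _ h1
    have h6 : (l (R w' x) + a w' * f (R w' x) + b w' * g (R w' x)) * D w' = 1 * D w' := by
      have h7 : D w' = f (R w' x) * g (R w' y) - g (R w' x) * f (R w' y) := rfl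
      calc _ = l (R w' x) * D w' + (a w' * D w') * f (R w' x) + (b w' * D w') * g (R w' x) := by
            ring
        _ = _ := by
            rw [h4, h5, h7]
            ring
    exact mul_right_cancel₀ h1 h6
  · show l (R w' y) + a w' * f (R w' y) + b w' * g (R w' y) = 1
    have h4 : a w' * D w' = (1 - l (R w' x)) * g (R w' y) - (1 - l (R w' y)) * g (R w' x) :=
      div_mul_cancel₀ _ h1
    have h5 : b w' * D w' = (1 - l (R w' y)) * f (R w' x) - (1 - l (R w' x)) * f (R w' y) :=
      div_mul_cancel₀ _ h1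
    have h6 : (l (R w' y) + a w' * f (R w' y) + b w' * g (R w' y)) * D w' = 1 * D w' := by
      have h7 : D w' = f (R w' x) * g (R w' y) - g (R w' x) * f (R w' y) := rfl
      calc _ = l (R w' y) * D w' + (a w' * D w') * f (R w' y) + (b w' * D w') * g (R w' y) := by
            ring
        _ = _ := by
            rw [h4, h5, h7]
            ring
    exact mul_right_cancel₀ h1 h6
  · exact h3

theorem gpers : Stmt_Pers := by
  intro d V w x y _ hV hw hc hx hy hE
  obtain ⟨hxy, l, hlx, hly, hl⟩ := hE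
  have hw0 : w ≠ 0 := by
    rintro rfl
    obtain ⟨m, hm, _⟩ := hc 0 (mem_addGPers.2 (Or.inl rfl))
    rw [map_zero] at hm
    norm_num at hm
  have h1 := persGPers (add V w) (fun w' u => rel w w' u) w x y (relContGPers w)
    (relSelfGPers w) hxy l hlx hly hl
  filter_upwards [h1] with w' h2
  obtain ⟨h3, l', h4, h5, h6⟩ := h2
  refine ⟨h3, l', h4, h5, ?_⟩
  intro u hu hux huy
  obtain ⟨z, hz, rfl⟩ := relSurjGPers hV.symm hw hw0 hu
  refine h6 z hz ?_ ?_
  · rintro rfl
    exact hux rfl
  · rintro rfl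
    exact huy rfl

end Pool.CS4
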