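import Pool.Agent.CS4.Gap
import Pool.Agent.CS4.Cls
import Pool.Agent.CS4.GFac

/-!
A centrally symmetric simplicial polytope can be moved into general position.
-/

open Finset Filter Topology

noncomputable section

namespace Pool.CS4

/-- a persistent supporting functional: general form -/
lemma persGPert {d : ℕ} {P ι : Type} [TopologicalSpace P] [Finite ι] (R : P → ι → E d) (p : P)
    (x y : ι) (hR : ∀ u, Continuous fun q => R q u) (hxy : R p x ≠ R p y)
    (l : E d →ₗ[ℝ] ℝ) (hlx : l (R p x) = 1) (hly : l (R p y) = 1)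
    (hl : ∀ u, u ≠ x → u ≠ y → l (R p u) < 1) :
    ∀ᶠ q in 𝓝 p, ∃ l' : E d →ₗ[ℝ] ℝ, l' (R q x) = 1 ∧ l' (R q y) = 1 ∧
      ∀ u, u ≠ x → u ≠ y → l' (R q u) < 1 := by
  obtain ⟨i, hi⟩ : ∃ i, R p x i ≠ R p y i := by
    by_contra hcon
    push Not at hcon
    exact hxy (funext hcon)
  let m : E d →ₗ[ℝ] ℝ := (R p x i - R p y i)⁻¹ • LinearMap.proj i
  have hm : m (R p x) - m (R p y) = 1 := by
    show (R p x i - R p y i)⁻¹ * R p x i - (R p x i - R p y i)⁻¹ * R p y i = 1
    rw [← mul_sub, inv_mul_cancel₀ (sub_ne_zero.2 hi)]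
  let f : E d →ₗ[ℝ] ℝ := m - m (R p y) • l
  let g : E d →ₗ[ℝ] ℝ := l - f
  have hfx : f (R p x) = 1 := by
    show m (R p x) - m (R p y) * l (R p x) = 1
    rw [hlx]
    linarith
  have hfy : f (R p y) = 0 := by
    show m (R p y) - m (R p y) * l (R p y) = 0
    rw [hly]
    ring
  have hgx : g (R p x) = 0 := by
    show l (R p x) - f (R p x) = 0
    rw [hlx, hfx]
    ring
  have hgy : g (R p y) = 1 := by
    show l (R p y) - f (R p y) = 1
    rw [hly, hfy]
    ring
  have cl : ∀ (h : E d →ₗ[ℝ] ℝ) (u : ι), Continuous fun q => h (R q u) := fun h u =>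
    (LinearMap.continuous_of_finiteDimensional h).comp (hR u)
  let D : P → ℝ := fun q => f (R q x) * g (R q y) - g (R q x) * f (R q y)
  let a : P → ℝ := fun q =>
    ((1 - l (R q x)) * g (R q y) - (1 - l (R q y)) * g (R q x)) / D q
  let b : P → ℝ := fun q =>
    ((1 - l (R q y)) * f (R q x) - (1 - l (R q x)) * f (R q y)) / D q
  have hDw : D p = 1 := by
    show f (R p x) * g (R p y) - g (R p x) * f (R p y) = 1
    rw [hfx, hgy, hgx, hfy]
    ring
  have hDc : Continuous D := ((cl f x).mul (cl g y)).sub ((cl g x).mul (cl f y))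
  have haw : a p = 0 := by
    show ((1 - l (R p x)) * g (R p y) - (1 - l (R p y)) * g (R p x)) / D p = 0
    rw [hlx, hly, hDw]
    ring
  have hbw : b p = 0 := by
    show ((1 - l (R p y)) * f (R p x) - (1 - l (R p x)) * f (R p y)) / D p = 0
    rw [hlx, hly, hDw]
    ring
  have hac : ContinuousAt a p := by
    refine ContinuousAt.div ?_ hDc.continuousAt (by rw [hDw]; norm_num)
    exact (((continuous_const.sub (cl l x)).mul (cl g y)).sub
      ((continuous_const.sub (cl l y)).mul (cl g x))).continuousAt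
  have hbc : ContinuousAt b p := by
    refine ContinuousAt.div ?_ hDc.continuousAt (by rw [hDw]; norm_num)
    exact (((continuous_const.sub (cl l y)).mul (cl f x)).sub
      ((continuous_const.sub (cl l x)).mul (cl f y))).continuousAt
  have hD0 : ∀ᶠ q in 𝓝 p, D q ≠ 0 :=
    hDc.continuousAt.eventually_ne (by rw [hDw]; norm_num)
  have hlt : ∀ u : ι, ∀ᶠ q in 𝓝 p, u ≠ x → u ≠ y →
      l (R q u) + a q * f (R q u) + b q * g (R q u) < 1 := by
    intro u
    by_cases hux : u = x
    · exact Eventually.of_forall fun _ h => absurd hux h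
    by_cases huy : u = y
    · exact Eventually.of_forall fun _ _ h => absurd huy h
    have h1 : ContinuousAt
        (fun q => l (R q u) + a q * f (R q u) + b q * g (R q u)) p :=
      (((cl l u).continuousAt).add (hac.mul (cl f u).continuousAt)).add
        (hbc.mul (cl g u).continuousAt)
    have h2 : l (R p u) + a p * f (R p u) + b p * g (R p u) < 1 := by
      rw [haw, hbw]
      simpa using hl u hux huy
    filter_upwards [h1.eventually_lt continuousAt_const h2] with q h3 _ _
    exact h3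
  filter_upwards [hD0, eventually_all.2 hlt] with q h1 h3
  have h4 : a q * D q = (1 - l (R q x)) * g (R q y) - (1 - l (R q y)) * g (R q x) :=
    div_mul_cancel₀ _ h1
  have h5 : b q * D q = (1 - l (R q y)) * f (R q x) - (1 - l (R q x)) * f (R q y) :=
    div_mul_cancel₀ _ h1
  have h7 : D q = f (R q x) * g (R q y) - g (R q x) * f (R q y) := rfl
  refine ⟨l + a q • f + b q • g, ?_, ?_, ?_⟩
  · show l (R q x) + a q * f (R q x) + b q * g (R q x) = 1
    have h6 : (l (R q x) + a q * f (R q x) + b q * g (R q x)) * D q = 1 * D q := by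
      calc _ = l (R q x) * D q + (a q * D q) * f (R q x) + (b q * D q) * g (R q x) := by
            ring
        _ = _ := by
            rw [h4, h5, h7]
            ring
    exact mul_right_cancel₀ h1 h6
  · show l (R q y) + a q * f (R q y) + b q * g (R q y) = 1
    have h6 : (l (R q y) + a q * f (R q y) + b q * g (R q y)) * D q = 1 * D q := by
      calc _ = l (R q y) * D q + (a q * D q) * f (R q y) + (b q * D q) * g (R q y) := by
            ring
        _ = _ := by
            rw [h4, h5, h7]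
            ring
    exact mul_right_cancel₀ h1 h6
  · exact h3

/-- the same for one point -/
lemma pers1GPert {d : ℕ} {P ι : Type} [TopologicalSpace P] [Finite ι] (R : P → ι → E d) (p : P)
    (x : ι) (hR : ∀ u, Continuous fun q => R q u)
    (l : E d →ₗ[ℝ] ℝ) (hlx : l (R p x) = 1) (hl : ∀ u, u ≠ x → l (R p u) < 1) :
    ∀ᶠ q in 𝓝 p, ∃ l' : E d →ₗ[ℝ] ℝ, l' (R q x) = 1 ∧ ∀ u, u ≠ x → l' (R q u) < 1 := by
  have cl : ∀ (h : E d →ₗ[ℝ] ℝ) (u : ι), Continuous fun q => h (R q u) := fun h u =>
    (LinearMap.continuous_of_finiteDimensional h).comp (hR u)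
  have h0 : ∀ᶠ q in 𝓝 p, 0 < l (R q x) :=
    continuousAt_const.eventually_lt (cl l x).continuousAt (by rw [hlx]; norm_num)
  have h1 : ∀ u : ι, ∀ᶠ q in 𝓝 p, u ≠ x → l (R q u) < l (R q x) := by
    intro u
    by_cases hux : u = x
    · exact Eventually.of_forall fun _ h => absurd hux h
    have h2 := (cl l u).continuousAt.eventually_lt (cl l x).continuousAt
      (show l (R p u) < l (R p x) by rw [hlx]; exact hl u hux)
    filter_upwards [h2] with q h3 _
    exact h3
  filter_upwards [h0, eventually_all.2 h1] with q h2 h3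
  refine ⟨(l (R q x))⁻¹ • l, ?_, ?_⟩
  · show (l (R q x))⁻¹ * l (R q x) = 1
    exact inv_mul_cancel₀ h2.ne'
  · intro u hu
    show (l (R q x))⁻¹ * l (R q u) < 1
    rw [inv_mul_lt_one₀ h2]
    exact h3 u hu

/-- norms of functionals in the polar set are bounded near `p` -/
lemma bddGPert {d : ℕ} {P ι : Type} [TopologicalSpace P] [Fintype ι] (R : P → ι → E d) (p : P)
    (hR : ∀ u, Continuous fun q => R q u) (hsp : Submodule.span ℝ (Set.range (R p)) = ⊤) :
    ∃ C : ℝ, ∀ᶠ q in 𝓝 p, ∀ l : E d →L[ℝ] ℝ, (∀ u, |l (R q u)| ≤ 1) → ‖l‖ ≤ C := by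
  let T : (E d →L[ℝ] ℝ) →ₗ[ℝ] (ι → ℝ) :=
    { toFun := fun l u => l (R p u)
      map_add' := fun l m => by
        funext v
        simp
      map_smul' := fun c l => by
        funext v
        simp }
  have hT : LinearMap.ker T = ⊥ := by
    rw [LinearMap.ker_eq_bot']
    intro l hl
    have h1 : Submodule.span ℝ (Set.range (R p)) ≤ LinearMap.ker (l : E d →ₗ[ℝ] ℝ) := by
      rw [Submodule.span_le]
      rintro _ ⟨u, rfl⟩
      exact congrFun hl u
    rw [hsp] at h1
    refine ContinuousLinearMap.ext fun x => ?_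
    exact h1 (show x ∈ (⊤ : Submodule ℝ (E d)) from trivial)
  obtain ⟨K, hK, hKT⟩ := LinearMap.exists_antilipschitzWith T hT
  have hKl : ∀ l : E d →L[ℝ] ℝ, ‖l‖ ≤ K * ‖T l‖ := by
    intro l
    have := hKT.le_mul_dist l 0
    rwa [map_zero, dist_zero_right, dist_zero_right] at this
  have hKpos : (0 : ℝ) < K := hK
  have hnear : ∀ u : ι, ∀ᶠ q in 𝓝 p, ‖R q u - R p u‖ < 1 / (2 * K) := by
    intro u
    have h1 : ContinuousAt (fun q => ‖R q u - R p u‖) p :=
      ((hR u).sub continuous_const).norm.continuousAt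
    exact h1.eventually_lt continuousAt_const (by simp [hKpos])
  refine ⟨2 * K, ?_⟩
  filter_upwards [eventually_all.2 hnear] with q hq l hl
  have h1 : ‖T l‖ ≤ 1 + ‖l‖ * (1 / (2 * K)) := by
    rw [pi_norm_le_iff_of_nonneg (by positivity)]
    intro u
    have h2 : (T l) u = l (R q u) - l (R q u - R p u) := by
      show l (R p u) = _
      rw [map_sub]
      ring
    rw [h2]
    refine (norm_sub_le _ _).trans (add_le_add (hl u) ?_)
    refine (l.le_opNorm _).trans ?_
    exact mul_le_mul_of_nonneg_left (hq u).le (norm_nonneg _)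
  have h3 := (hKl l).trans (mul_le_mul_of_nonneg_left h1 hKpos.le)
  have h4 : (K : ℝ) * (1 + ‖l‖ * (1 / (2 * K))) = K + ‖l‖ / 2 := by
    field_simp
  rw [h4] at h3
  linarith

/-- points that are not weakly supported stay so -/
lemma nonGPert {d : ℕ} {P ι : Type} [TopologicalSpace P] [Fintype ι] (R : P → ι → E d) (p : P)
    (x y : ι) (hR : ∀ u, Continuous fun q => R q u)
    (hneg : ∀ q u, ∃ u', R q u' = - R q u)
    (hsp : Submodule.span ℝ (Set.range (R p)) = ⊤)
    (hno : ¬ ∃ l : E d →ₗ[ℝ] ℝ, l (R p x) = 1 ∧ l (R p y) = 1 ∧ ∀ u, l (R p u) ≤ 1) :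
    ∀ᶠ q in 𝓝 p, ¬ ∃ l : E d →ₗ[ℝ] ℝ, l (R q x) = 1 ∧ l (R q y) = 1 ∧ ∀ u, l (R q u) ≤ 1 := by
  obtain ⟨C, hC⟩ := bddGPert R p hR hsp
  let K : Set (E d →L[ℝ] ℝ) := Metric.closedBall 0 C
  have hK : IsCompact K := isCompact_closedBall 0 C
  let Z : Set (P × (E d →L[ℝ] ℝ)) :=
    {z | z.2 (R z.1 x) = 1 ∧ z.2 (R z.1 y) = 1 ∧ ∀ u, z.2 (R z.1 u) ≤ 1}
  have hcont : ∀ u, Continuous fun z : P × (E d →L[ℝ] ℝ) => z.2 (R z.1 u) := fun u =>
    continuous_snd.clm_apply ((hR u).comp continuous_fst)
  have hZ : IsClosed Z := by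
    have e : Z = {z | z.2 (R z.1 x) = 1} ∩ ({z | z.2 (R z.1 y) = 1} ∩
        ⋂ u, {z | z.2 (R z.1 u) ≤ 1}) := by
      ext z
      simp [Z]
    rw [e]
    exact (isClosed_eq (hcont x) continuous_const).inter
      ((isClosed_eq (hcont y) continuous_const).inter
        (isClosed_iInter fun u => isClosed_le (hcont u) continuous_const))
  have h1 : ∀ l ∈ K, ∀ᶠ z : P × (E d →L[ℝ] ℝ) in 𝓝 (p, l), z ∉ Z := by
    intro l _
    refine hZ.isOpen_compl.eventually_mem ?_
    intro hz
    exact hno ⟨(l : E d →ₗ[ℝ] ℝ), hz.1, hz.2.1, hz.2.2⟩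
  have h2 : ∀ᶠ q in 𝓝 p, ∀ l ∈ K, (q, l) ∉ Z :=
    hK.eventually_forall_of_forall_eventually h1
  filter_upwards [h2, hC] with q h3 h4
  rintro ⟨l, hlx, hly, hl⟩
  refine h3 (LinearMap.toContinuousLinearMap l) ?_ ⟨hlx, hly, hl⟩
  rw [mem_closedBall_zero_iff]
  refine h4 _ fun u => ?_
  rw [abs_le]
  refine ⟨?_, hl u⟩
  obtain ⟨u', hu'⟩ := hneg q u
  have := hl u'
  rw [hu', map_neg] at this
  show -1 ≤ l (R q u)
  linarith

/-- weakly supported pairs of a simplicial polytope are edges -/
lemma weakGPert {d : ℕ} {V : Finset (E d)} (hV : IsCSSimplicial d V) {x y : E d} (hx : x ∈ V)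
    (hy : y ∈ V) (hxy : x ≠ y) (l : E d →ₗ[ℝ] ℝ) (hlx : l x = 1) (hly : l y = 1)
    (hl : ∀ u ∈ V, l u ≤ 1) : Edg V x y := by
  classical
  set F := V.filter (fun v => l v = 1) with hF
  have hface : IsFace V F := by
    refine ⟨Finset.filter_subset _ _, l, 1, fun v hv => (Finset.mem_filter.1 hv).2,
      fun v hv hvF => lt_of_le_of_ne (hl v hv) fun h => hvF (Finset.mem_filter.2 ⟨hv, h⟩)⟩
  have hFV : F ≠ V := by
    intro h
    have h1 : -x ∈ F := by
      rw [h]
      exact hV.symm x hx
    have h2 := (Finset.mem_filter.1 h1).2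
    rw [map_neg, hlx] at h2
    norm_num at h2
  have haff := hV.simplicial F hface hFV
  have hlin : LinearIndependent ℝ (fun v : {x // x ∈ F} => (v : E d)) := by
    rw [linearIndependent_iff']
    intro s g hg
    rw [affineIndependent_iff] at haff
    refine haff s g ?_ hg
    have h1 := congrArg l hg
    rw [map_sum, map_zero] at h1
    rw [← h1]
    refine Finset.sum_congr rfl fun v _ => ?_
    rw [map_smul, (Finset.mem_filter.1 v.2).2, smul_eq_mul, mul_one]
  let b := Module.Basis.span hlin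
  obtain ⟨m, hm⟩ := LinearMap.exists_extend (b.constr ℝ fun v : {x // x ∈ F} =>
    if (v : E d) = x ∨ (v : E d) = y then (0 : ℝ) else 1)
  have hmv : ∀ v ∈ F, m v = if v = x ∨ v = y then (0 : ℝ) else 1 := by
    intro v hv
    have h1 := b.constr_basis ℝ (fun v : {x // x ∈ F} =>
      if (v : E d) = x ∨ (v : E d) = y then (0 : ℝ) else 1) ⟨v, hv⟩
    rw [← hm] at h1
    have h2 : ((b ⟨v, hv⟩ : Submodule.span ℝ (Set.range fun v : {x // x ∈ F} => (v : E d))) : E d)
        = v := by
      simp only [b]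
      rw [Module.Basis.span_apply]
    rw [LinearMap.comp_apply, Submodule.subtype_apply, h2] at h1
    exact h1
  have hxF : x ∈ F := Finset.mem_filter.2 ⟨hx, hlx⟩
  have hyF : y ∈ F := Finset.mem_filter.2 ⟨hy, hly⟩
  have hmx : m x = 0 := by rw [hmv x hxF, if_pos (Or.inl rfl)]
  have hmy : m y = 0 := by rw [hmv y hyF, if_pos (Or.inr rfl)]
  have h1 : ∀ u ∈ V, ∀ᶠ t : ℝ in 𝓝[>] 0, u ≠ x → u ≠ y → l u - t * m u < 1 := by
    intro u hu
    by_cases hux : u = x
    · exact Eventually.of_forall fun _ h => absurd hux h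
    by_cases huy : u = y
    · exact Eventually.of_forall fun _ _ h => absurd huy h
    by_cases huF : u ∈ F
    · filter_upwards [self_mem_nhdsWithin] with t ht _ _
      rw [hmv u huF, if_neg (by tauto), (Finset.mem_filter.1 huF).2]
      have : (0 : ℝ) < t := ht
      linarith
    · have h2 : l u < 1 := lt_of_le_of_ne (hl u hu) fun h => huF (Finset.mem_filter.2 ⟨hu, h⟩)
      have h3 : ContinuousAt (fun t : ℝ => l u - t * m u) 0 := by fun_prop
      have h4 := h3.eventually_lt (continuousAt_const (y := (1 : ℝ))) (by simpa using h2)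
      filter_upwards [nhdsWithin_le_nhds h4] with t ht _ _
      exact ht
  obtain ⟨t, ht⟩ := ((Finset.eventually_all V).2 h1).exists
  refine ⟨hxy, l - t • m, ?_, ?_, ?_⟩
  · show l x - t * m x = 1
    rw [hlx, hmx]
    ring
  · show l y - t * m y = 1
    rw [hly, hmy]
    ring
  · exact ht

/-- the vertices of a simplicial polytope are exposed -/
lemma cvxGPert {d : ℕ} {V : Finset (E d)} (hV : IsCSSimplicial d V) (h0 : (0 : E d) ∉ V) :
    Cvx V := by
  classical
  intro v hv
  have h1 : v ∈ (convexHull ℝ (V : Set (E d))).extremePoints ℝ := by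
    rw [hV.ext]
    exact hv
  rw [(convex_convexHull ℝ _).mem_extremePoints_iff_mem_sdiff_convexHull_sdiff] at h1
  have h2 : v ∉ convexHull ℝ ((V.erase v : Finset (E d)) : Set (E d)) := by
    intro h
    apply h1.2
    refine convexHull_mono ?_ h
    intro u hu
    rw [Finset.coe_erase] at hu
    exact ⟨subset_convexHull ℝ _ hu.1, hu.2⟩
  have hc : IsClosed (convexHull ℝ ((V.erase v : Finset (E d)) : Set (E d))) :=
    (Set.Finite.isCompact_convexHull ℝ (Finset.finite_toSet _)).isClosed
  obtain ⟨f, u, hfv, hfb⟩ := geometric_hahn_banach_point_closed (convex_convexHull ℝ _) hc h2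
  have hvn : -v ≠ v := fun h => h0 (by
    have : v = 0 := neg_eq_self.1 h
    rwa [this] at hv)
  have h3 : ∀ w ∈ V, w ≠ v → f v < f w := by
    intro w hw hwv
    refine hfv.trans (hfb w (subset_convexHull ℝ _ ?_))
    exact Finset.mem_coe.2 (Finset.mem_erase.2 ⟨hwv, hw⟩)
  have h4 := h3 (-v) (hV.symm v hv) hvn
  rw [map_neg] at h4
  have h5 : f v < 0 := by linarith
  refine ⟨(f v)⁻¹ • (f : E d →ₗ[ℝ] ℝ), ?_, ?_⟩
  · show (f v)⁻¹ * f v = 1
    exact inv_mul_cancel₀ h5.ne
  · intro w hw hwv
    show (f v)⁻¹ * f w < 1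
    rw [inv_mul_eq_div, div_lt_one_of_neg h5]
    exact h3 w hw hwv

/-- edges as faces with two vertices -/
lemma faceGPert {d : ℕ} {V : Finset (E d)} (hs : ∀ v ∈ V, -v ∈ V) (h0 : (0 : E d) ∉ V)
    (h3 : 3 ≤ V.card) [DecidableEq (E d)] {x y : E d} (hx : x ∈ V) (hy : y ∈ V) (hxy : x ≠ y) :
    IsFace V {x, y} ↔ Edg V x y := by
  constructor
  · rintro ⟨-, l, c, hc, hl⟩
    have hlx : l x = c := hc x (by simp)
    have hly : l y = c := hc y (by simp)
    have hcpos : 0 < c := by
      by_cases h : y = -x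
      · obtain ⟨u, hu, hux⟩ : ∃ u ∈ V, u ∉ ({x, y} : Finset (E d)) := by
          by_contra hcon
          push Not at hcon
          have h4 := Finset.card_le_card (show V ⊆ {x, y} from hcon)
          have h5 : ({x, y} : Finset (E d)).card ≤ 2 := Finset.card_le_two
          omega
        have h4 := hl u hu hux
        have h5 : l (-u) < c := by
          refine hl (-u) (hs u hu) ?_
          simp only [Finset.mem_insert, Finset.mem_singleton] at hux ⊢
          rw [h] at hux ⊢
          push Not at hux ⊢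
          exact ⟨fun h6 => hux.2 (by rw [← h6, neg_neg]), fun h6 => hux.1 (neg_injective h6)⟩
        rw [map_neg] at h5
        linarith
      · have hxn : -x ≠ x := fun h6 => h0 (by
          have : x = 0 := neg_eq_self.1 h6
          rwa [this] at hx)
        have h4 : l (-x) < c := by
          refine hl (-x) (hs x hx) ?_
          simp only [Finset.mem_insert, Finset.mem_singleton]
          push Not
          exact ⟨hxn, fun h6 => h h6.symm⟩
        rw [map_neg, hlx] at h4
        linarith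
    refine ⟨hxy, c⁻¹ • l, ?_, ?_, ?_⟩
    · show c⁻¹ * l x = 1
      rw [hlx, inv_mul_cancel₀ hcpos.ne']
    · show c⁻¹ * l y = 1
      rw [hly, inv_mul_cancel₀ hcpos.ne']
    · intro u hu hux huy
      show c⁻¹ * l u < 1
      rw [inv_mul_lt_one₀ hcpos]
      refine hl u hu ?_
      simp only [Finset.mem_insert, Finset.mem_singleton]
      tauto
  · rintro ⟨-, l, hlx, hly, hl⟩
    refine ⟨?_, l, 1, ?_, ?_⟩
    · intro u hu
      simp only [Finset.mem_insert, Finset.mem_singleton] at hu
      rcases hu with rfl | rfl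
      · exact hx
      · exact hy
    · intro u hu
      simp only [Finset.mem_insert, Finset.mem_singleton] at hu
      rcases hu with rfl | rfl
      · exact hlx
      · exact hly
    · intro u hu hux
      simp only [Finset.mem_insert, Finset.mem_singleton] at hux
      push Not at hux
      exact hl u hu hux.1 hux.2

lemma edgSymmGPert {d : ℕ} {V : Finset (E d)} {x y : E d} (h : Edg V x y) : Edg V y x := by
  obtain ⟨hxy, l, hlx, hly, hl⟩ := h
  exact ⟨hxy.symm, l, hly, hlx, fun u hu h1 h2 => hl u hu h2 h1⟩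

/-- the number of ordered adjacent pairs is twice the number of edges -/
lemma neGPert {d : ℕ} {V : Finset (E d)} (hs : ∀ v ∈ V, -v ∈ V) (h0 : (0 : E d) ∉ V)
    (h3 : 3 ≤ V.card) : ne V = 2 * fv V 2 := by
  classical
  have h1 : ((V ×ˢ V).filter fun z : E d × E d => Edg V z.1 z.2).card =
      ∑ F ∈ V.powerset.filter (fun F => IsFace V F ∧ F ≠ V ∧ F.card = 2),
        (((V ×ˢ V).filter fun z : E d × E d => Edg V z.1 z.2).filter
          fun z => ({z.1, z.2} : Finset (E d)) = F).card := by
    refine Finset.card_eq_sum_card_fiberwise ?_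
    rintro ⟨x, y⟩ hz
    have hz' := Finset.mem_filter.1 (Finset.mem_coe.1 hz)
    have hxy := Finset.mem_product.1 hz'.1
    have hE : Edg V x y := hz'.2
    refine Finset.mem_coe.2 (Finset.mem_filter.2 ⟨?_, ?_, ?_, ?_⟩)
    · rw [Finset.mem_powerset]
      exact ((faceGPert hs h0 h3 hxy.1 hxy.2 hE.1).2 hE).1
    · exact (faceGPert hs h0 h3 hxy.1 hxy.2 hE.1).2 hE
    · intro h
      have h4 : ({x, y} : Finset (E d)).card = V.card := congrArg Finset.card h
      have h5 : ({x, y} : Finset (E d)).card ≤ 2 := Finset.card_le_two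
      omega
    · exact Finset.card_pair hE.1
  have h2 : ∀ F ∈ V.powerset.filter (fun F => IsFace V F ∧ F ≠ V ∧ F.card = 2),
      (((V ×ˢ V).filter fun z : E d × E d => Edg V z.1 z.2).filter
          fun z => ({z.1, z.2} : Finset (E d)) = F).card = 2 := by
    intro F hF
    obtain ⟨hFp, hFf, -, hF2⟩ := Finset.mem_filter.1 hF
    obtain ⟨a, b, hab, rfl⟩ := Finset.card_eq_two.1 hF2
    have hFV := Finset.mem_powerset.1 hFp
    have ha : a ∈ V := hFV (by simp)
    have hb : b ∈ V := hFV (by simp)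
    have hE : Edg V a b := (faceGPert hs h0 h3 ha hb hab).1 hFf
    have e : (((V ×ˢ V).filter fun z : E d × E d => Edg V z.1 z.2).filter
          fun z => ({z.1, z.2} : Finset (E d)) = {a, b}) = {(a, b), (b, a)} := by
      ext ⟨x, y⟩
      simp only [Finset.mem_filter, Finset.mem_product, Finset.mem_insert, Finset.mem_singleton,
        Prod.mk.injEq]
      constructor
      · rintro ⟨⟨-, hE'⟩, h4⟩
        have hx : x = a ∨ x = b := by
          have : x ∈ ({a, b} : Finset (E d)) := by
            rw [← h4]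
            simp
          simpa using this
        have hy : y = a ∨ y = b := by
          have : y ∈ ({a, b} : Finset (E d)) := by
            rw [← h4]
            simp
          simpa using this
        have hne := hE'.1
        rcases hx with rfl | rfl <;> rcases hy with rfl | rfl
        · exact absurd rfl hne
        · exact Or.inl ⟨rfl, rfl⟩
        · exact Or.inr ⟨rfl, rfl⟩
        · exact absurd rfl hne
      · rintro (⟨rfl, rfl⟩ | ⟨rfl, rfl⟩)
        · exact ⟨⟨⟨ha, hb⟩, hE⟩, rfl⟩
        · exact ⟨⟨⟨hb, ha⟩, edgSymmGPert hE⟩, Finset.pair_comm _ _⟩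
    rw [e, Finset.card_pair]
    intro h
    exact hab (Prod.mk.inj h).1
  have h4 : ((V ×ˢ V).filter fun z : E d × E d => Edg V z.1 z.2).card = 2 *
      (V.powerset.filter (fun F => IsFace V F ∧ F ≠ V ∧ F.card = 2)).card := by
    rw [h1, Finset.sum_congr rfl h2, Finset.sum_const, smul_eq_mul, mul_comm]
  unfold ne fv
  convert h4

/-- the points of `sset v`, indexed -/
def ptGPert {d N : ℕ} (v : Fin N → E d) (k : Fin N × Bool) : E d := if k.2 then v k.1 else -v k.1

lemma ptContGPert {d N : ℕ} (k : Fin N × Bool) :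
    Continuous fun v : Fin N → E d => ptGPert v k := by
  unfold ptGPert
  split_ifs
  · exact continuous_apply k.1
  · exact (continuous_apply k.1).neg

lemma ptNegGPert {d N : ℕ} (v : Fin N → E d) (k : Fin N × Bool) :
    ∃ k', ptGPert v k' = - ptGPert v k := by
  obtain ⟨i, b⟩ := k
  cases b
  · exact ⟨(i, true), by simp [ptGPert]⟩
  · exact ⟨(i, false), by simp [ptGPert]⟩

lemma mem_ssetGPert {d N : ℕ} {v : Fin N → E d} {x : E d} :
    x ∈ sset v ↔ ∃ k, ptGPert v k = x := by
  classical
  unfold sset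
  rw [Finset.mem_union, Finset.mem_image, Finset.mem_image]
  constructor
  · rintro (⟨i, -, rfl⟩ | ⟨i, -, rfl⟩)
    · exact ⟨(i, true), by simp [ptGPert]⟩
    · exact ⟨(i, false), by simp [ptGPert]⟩
  · rintro ⟨⟨i, b⟩, rfl⟩
    cases b
    · exact Or.inr ⟨i, Finset.mem_univ _, by simp [ptGPert]⟩
    · exact Or.inl ⟨i, Finset.mem_univ _, by simp [ptGPert]⟩

lemma ptInjGPert {d N : ℕ} {v : Fin N → E d} (h : (sset v).card = 2 * N) :
    Function.Injective (ptGPert v) := by
  classical
  have e : Finset.univ.image (ptGPert v) = sset v := by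
    ext x
    rw [mem_ssetGPert, Finset.mem_image]
    simp
  have h1 : (Finset.univ.image (ptGPert v)).card =
      (Finset.univ : Finset (Fin N × Bool)).card := by
    rw [e, h, Finset.card_univ, Fintype.card_prod, Fintype.card_fin, Fintype.card_bool]
    ring
  have h2 := Finset.card_image_iff.1 h1
  rw [Finset.coe_univ] at h2
  exact Set.injOn_univ.1 h2

/-- the number of adjacent pairs, indexed -/
lemma neIxGPert {d N : ℕ} {v : Fin N → E d} (h : Function.Injective (ptGPert v))
    (p : (Fin N × Bool) → (Fin N × Bool) → Prop)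
    [∀ z : (Fin N × Bool) × (Fin N × Bool), Decidable (p z.1 z.2)]
    (hp : ∀ k j, Edg (sset v) (ptGPert v k) (ptGPert v j) ↔ p k j) :
    ne (sset v) = ((Finset.univ : Finset ((Fin N × Bool) × (Fin N × Bool))).filter
      fun z => p z.1 z.2).card := by
  classical
  have h1 : ((sset v ×ˢ sset v).filter fun z : E d × E d => Edg (sset v) z.1 z.2).card =
      ((Finset.univ : Finset ((Fin N × Bool) × (Fin N × Bool))).filter
      fun z => p z.1 z.2).card := by
    symm
    refine Finset.card_bij (fun z _ => (ptGPert v z.1, ptGPert v z.2)) ?_ ?_ ?_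
    · rintro ⟨k, j⟩ hz
      rw [Finset.mem_filter] at hz ⊢
      exact ⟨Finset.mem_product.2 ⟨mem_ssetGPert.2 ⟨k, rfl⟩, mem_ssetGPert.2 ⟨j, rfl⟩⟩,
        (hp k j).2 hz.2⟩
    · rintro ⟨k, j⟩ _ ⟨k', j'⟩ _ hz
      have h1 := Prod.mk.inj hz
      exact Prod.ext (h h1.1) (h h1.2)
    · rintro ⟨x, y⟩ hz
      rw [Finset.mem_filter] at hz
      obtain ⟨hx, hy⟩ := Finset.mem_product.1 hz.1
      obtain ⟨k, hk⟩ := mem_ssetGPert.1 hx
      obtain ⟨j, hj⟩ := mem_ssetGPert.1 hy
      refine ⟨(k, j), ?_, Prod.ext hk hj⟩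
      rw [Finset.mem_filter]
      refine ⟨Finset.mem_univ _, (hp k j).1 ?_⟩
      rw [hk, hj]
      exact hz.2
  unfold ne
  convert h1

/-- near `v` the configuration has the same edges -/
lemma nearGPert {d N : ℕ} {v : Fin N → E d} (hV : IsCSSimplicial d (sset v))
    (h0 : (0 : E d) ∉ sset v) (hinj : Function.Injective (ptGPert v))
    (hsp : Submodule.span ℝ (Set.range (ptGPert v)) = ⊤) :
    ∀ᶠ v' in 𝓝 v,
      (∀ k, ∃ l : E d →ₗ[ℝ] ℝ, l (ptGPert v' k) = 1 ∧ ∀ u, u ≠ k → l (ptGPert v' u) < 1) ∧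
      (∀ k j, Edg (sset v) (ptGPert v k) (ptGPert v j) → ∃ l : E d →ₗ[ℝ] ℝ,
        l (ptGPert v' k) = 1 ∧ l (ptGPert v' j) = 1 ∧
          ∀ u, u ≠ k → u ≠ j → l (ptGPert v' u) < 1) ∧
      (∀ k j, k ≠ j → ¬ Edg (sset v) (ptGPert v k) (ptGPert v j) → ¬ ∃ l : E d →ₗ[ℝ] ℝ,
        l (ptGPert v' k) = 1 ∧ l (ptGPert v' j) = 1 ∧ ∀ u, l (ptGPert v' u) ≤ 1) := by
  have hcvx := cvxGPert hV h0
  refine Filter.Eventually.and ?_ (Filter.Eventually.and ?_ ?_)
  · rw [eventually_all]
    intro k
    obtain ⟨l, hl, hl'⟩ := hcvx _ (mem_ssetGPert.2 ⟨k, rfl⟩)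
    refine pers1GPert (P := Fin N → E d) (fun v k => ptGPert v k) v k ptContGPert l hl ?_
    intro u hu
    exact hl' _ (mem_ssetGPert.2 ⟨u, rfl⟩) fun h => hu (hinj h)
  · rw [eventually_all]
    intro k
    rw [eventually_all]
    intro j
    by_cases hE : Edg (sset v) (ptGPert v k) (ptGPert v j)
    · obtain ⟨hne, l, hlx, hly, hl⟩ := hE
      have h1 := persGPert (P := Fin N → E d) (fun v k => ptGPert v k) v k j ptContGPert hne l
        hlx hly (fun u hu hu' => hl _ (mem_ssetGPert.2 ⟨u, rfl⟩) (fun h => hu (hinj h))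
          fun h => hu' (hinj h))
      filter_upwards [h1] with v' h2 _
      exact h2
    · exact Eventually.of_forall fun _ h => absurd h hE
  · rw [eventually_all]
    intro k
    rw [eventually_all]
    intro j
    by_cases hkj : k = j
    · exact Eventually.of_forall fun _ h => absurd hkj h
    by_cases hE : Edg (sset v) (ptGPert v k) (ptGPert v j)
    · exact Eventually.of_forall fun _ _ h => absurd hE h
    · have h1 := nonGPert (P := Fin N → E d) (fun v k => ptGPert v k) v k j ptContGPert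
        ptNegGPert hsp (by
          rintro ⟨l, hlx, hly, hl⟩
          apply hE
          refine weakGPert hV (mem_ssetGPert.2 ⟨k, rfl⟩) (mem_ssetGPert.2 ⟨j, rfl⟩)
            (fun h => hkj (hinj h)) l hlx hly ?_
          intro u hu
          obtain ⟨i, rfl⟩ := mem_ssetGPert.1 hu
          exact hl i)
      filter_upwards [h1] with v' h2 _ _
      exact h2

lemma cardGPert {d : ℕ} {V : Finset (E d)} (hd : 2 ≤ d)
    (h : affineSpan ℝ (V : Set (E d)) = ⊤) : 3 ≤ V.card := by
  classical
  by_contra hcon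
  have hne : V.Nonempty := by
    rw [Finset.nonempty_iff_ne_empty]
    rintro rfl
    rw [Finset.coe_empty, AffineSubspace.span_empty] at h
    exact bot_ne_top h
  have hpos := hne.card_pos
  obtain ⟨n, hn⟩ : ∃ n, V.card = n + 1 := ⟨V.card - 1, by omega⟩
  have h1 := finrank_vectorSpan_image_finset_le ℝ (fun x : E d => x) V hn
  rw [Finset.image_id'] at h1
  rw [← direction_affineSpan, h, AffineSubspace.direction_top, finrank_top] at h1
  have h2 : Module.finrank ℝ (E d) = d := by simp [E]
  have h4 : d ≤ n := h2 ▸ h1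
  omega

theorem gpert (h : Stmt_GPd) : Stmt_Pert := by
  classical
  intro d V hd hV
  have haff : affineSpan ℝ (V : Set (E d)) = ⊤ :=
    interior_convexHull_nonempty_iff_affineSpan_eq_top.1 hV.full
  have h3 : 3 ≤ V.card := cardGPert hd haff
  have h0 : (0 : E d) ∉ V := cls_zero hV h3
  have hspan : Submodule.span ℝ (V : Set (E d)) = ⊤ := by
    rw [eq_top_iff]
    intro x _
    have h1 : x ∈ affineSpan ℝ (V : Set (E d)) := by
      rw [haff]
      trivial
    exact affineSpan_le_toAffineSubspace_span h1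
  obtain ⟨X, hXV, hX1, hX2⟩ := cls_reps V hV.symm h0
  have hXspan : Submodule.span ℝ (X : Set (E d)) = ⊤ := by
    rw [eq_top_iff, ← hspan, Submodule.span_le]
    intro v hv
    rcases hX2 v hv with h4 | h4
    · exact Submodule.subset_span h4
    · have := Submodule.neg_mem _ (Submodule.subset_span (R := ℝ) h4)
      rwa [neg_neg] at this
  have hdN : d ≤ X.card := by
    have h1 := finrank_span_finset_le_card (R := ℝ) X
    rw [Set.finrank, hXspan, finrank_top] at h1
    simpa [E] using h1
  set N := X.card with hN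
  let e : Fin N ≃ {x // x ∈ X} := X.equivFin.symm
  let v : Fin N → E d := fun i => (e i : E d)
  have hsv : sset v = V := by
    ext x
    rw [mem_ssetGPert]
    constructor
    · rintro ⟨⟨i, b⟩, rfl⟩
      have h4 : v i ∈ V := hXV (e i).2
      cases b
      · exact hV.symm _ h4
      · exact h4
    · intro hx
      rcases hX2 x hx with h4 | h4
      · refine ⟨(e.symm ⟨x, h4⟩, true), ?_⟩
        show (e (e.symm ⟨x, h4⟩) : E d) = x
        rw [e.apply_symm_apply]
      · refine ⟨(e.symm ⟨-x, h4⟩, false), ?_⟩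
        show -(e (e.symm ⟨-x, h4⟩) : E d) = x
        rw [e.apply_symm_apply, neg_neg]
  have hcard : V.card = 2 * N := cls_card hV.symm hXV hX1 hX2
  have hinj : Function.Injective (ptGPert v) := ptInjGPert (by rw [hsv, hcard])
  have hsp : Submodule.span ℝ (Set.range (ptGPert v)) = ⊤ := by
    rw [← hspan]
    congr 1
    ext x
    rw [Finset.mem_coe, ← hsv, mem_ssetGPert]
    rfl
  have hnear := nearGPert (v := v) (hsv ▸ hV) (hsv ▸ h0) hinj hsp
  obtain ⟨ρ, hρ, hball⟩ := Metric.eventually_nhds_iff.1 hnear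
  obtain ⟨v', hv', hGP, hc'⟩ := h d N v ρ (by omega) hρ
  have hdist : dist v' v < ρ := (dist_pi_lt_iff hρ).2 hv'
  obtain ⟨hA, hB, hC⟩ := hball hdist
  have hinj' : Function.Injective (ptGPert v') := ptInjGPert hc'
  have hsymm' : ∀ x ∈ sset v', -x ∈ sset v' := by
    intro x hx
    obtain ⟨k, rfl⟩ := mem_ssetGPert.1 hx
    exact mem_ssetGPert.2 (ptNegGPert v' k)
  refine ⟨sset v', ⟨hsymm', hGP, ?_, ?_⟩, by rw [hc', hcard], ?_⟩
  · intro x hx
    obtain ⟨k, rfl⟩ := mem_ssetGPert.1 hx
    obtain ⟨l, hl, hl'⟩ := hA k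
    refine ⟨l, hl, ?_⟩
    intro u hu huk
    obtain ⟨j, rfl⟩ := mem_ssetGPert.1 hu
    exact hl' j fun h4 => huk (by rw [h4])
  · have hv'inj : Function.Injective v' := by
      intro i j hij
      have h4 : ptGPert v' (i, true) = ptGPert v' (j, true) := hij
      exact (Prod.mk.inj (hinj' h4)).1
    have hX'card : (Finset.univ.image v').card = N := by
      rw [Finset.card_image_of_injective _ hv'inj, Finset.card_univ, Fintype.card_fin]
    obtain ⟨S, hSX, hSc⟩ := Finset.exists_subset_card_eq (show d ≤ (Finset.univ.image v').card by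
      rw [hX'card]
      exact hdN)
    have hSV : S ⊆ sset v' := by
      intro x hx
      obtain ⟨i, -, rfl⟩ := Finset.mem_image.1 (hSX hx)
      exact mem_ssetGPert.2 ⟨(i, true), rfl⟩
    have hSA : NoAnti S := by
      intro x hx hx'
      obtain ⟨i, -, rfl⟩ := Finset.mem_image.1 (hSX hx)
      obtain ⟨j, -, hj⟩ := Finset.mem_image.1 (hSX hx')
      have h4 : ptGPert v' (j, true) = ptGPert v' (i, false) := hj
      have h5 := (Prod.mk.inj (hinj' h4)).2
      exact absurd h5 (by decide)
    have hli := (hGP S hSV hSA).1 hSc.le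
    have h4 := hli.span_eq_top_of_card_eq_finrank' (by
      rw [Fintype.card_coe, hSc]
      simp [E])
    rw [eq_top_iff, ← h4]
    refine Submodule.span_mono ?_
    rintro _ ⟨x, rfl⟩
    exact hSV x.2
  · have h4 : ∀ k j, Edg (sset v') (ptGPert v' k) (ptGPert v' j) ↔
        Edg V (ptGPert v k) (ptGPert v j) := by
      intro k j
      by_cases hkj : k = j
      · subst hkj
        constructor
        · rintro ⟨h5, -⟩
          exact absurd rfl h5
        · rintro ⟨h5, -⟩
          exact absurd rfl h5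
      rw [← hsv]
      constructor
      · rintro ⟨-, l, hlx, hly, hl⟩
        by_contra hcon
        refine hC k j hkj hcon ⟨l, hlx, hly, ?_⟩
        intro u
        by_cases huk : u = k
        · rw [huk, hlx]
        by_cases huj : u = j
        · rw [huj, hly]
        exact (hl _ (mem_ssetGPert.2 ⟨u, rfl⟩) (fun h5 => huk (hinj' h5))
          fun h5 => huj (hinj' h5)).le
      · intro hE
        obtain ⟨l, hlx, hly, hl⟩ := hB k j hE
        refine ⟨fun h5 => hkj (hinj' h5), l, hlx, hly, ?_⟩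
        intro u hu huk huj
        obtain ⟨i, rfl⟩ := mem_ssetGPert.1 hu
        exact hl i (fun h5 => huk (by rw [h5])) fun h5 => huj (by rw [h5])
    have h5 := neIxGPert hinj' (fun k j => Edg V (ptGPert v k) (ptGPert v j)) h4
    have h6 := neIxGPert hinj (fun k j => Edg V (ptGPert v k) (ptGPert v j)) (by
      intro k j
      rw [hsv])
    rw [h5, ← h6, hsv]
    exact neGPert hV.symm h0 h3

end Pool.CS4
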