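import Pool.Agent.CS4.GStack

/-!
(Seg): the segment from `w₁` to a point near the centroid of a facet.
-/

open Finset Filter Topology

noncomputable section

namespace Pool.CS4

theorem gseg : Stmt_Seg := by
  classical
  intro d V w₁ l F hd hV hV1 hw1 hF hlw1
  obtain ⟨hFV, hFc, hF1, hFlt⟩ := hF
  have hle : ∀ v ∈ V, l v ≤ 1 := by
    intro v hv
    by_cases h : v ∈ F
    · exact (hF1 v h).le
    · exact (hFlt v hv h).le
  have hm : ∀ v ∈ V, ∃ m : E d →ₗ[ℝ] ℝ, m v = 1 ∧ ∀ u ∈ add V w₁, u ≠ v → m u < 1 := by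
    intro v hv
    exact hV1.cvx v (gstack_mem.mpr (Or.inr (Or.inr hv)))
  choose! m hm1 hm2 using hm
  have hlt : ∀ v ∈ V, ∀ u ∈ V, u ≠ v → m v u < 1 := fun v hv u hu =>
    hm2 v hv u (gstack_mem.mpr (Or.inr (Or.inr hu)))
  have hev : ∀ᶠ w in 𝓝 (cen F), ∀ v ∈ V, m v w < 1 ∧ m v (-w) < 1 := by
    rw [Filter.eventually_all_finset]
    intro v hv
    apply gstack_per (S := {v}) hV.symm hFV
    · rw [hFc]; simp; omega
    · intro u hu hu'
      simp only [Finset.mem_singleton] at hu'
      exact hlt v hv u hu hu'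
    · intro u hu
      by_cases h : u = v
      · rw [h, hm1 v hv]
      · exact (hlt v hv u hu h).le
  obtain ⟨ρ, hρ, hball⟩ := Metric.eventually_nhds_iff.mp hev
  refine ⟨ρ, hρ, ?_⟩
  intro w₀ hw0 hlw0 s hs
  have hb := hball (Metric.mem_ball.mp hw0)
  have hs0 := hs.1
  have hs1 := hs.2
  set w := (1 - s) • w₁ + s • w₀ with hwdef
  have hconv : ∀ a b : ℝ, a < 1 → b < 1 → (1 - s) * a + s * b < 1 := by
    intro a b ha hb
    rcases eq_or_lt_of_le hs0 with h | h
    · rw [← h]; linarith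
    · have h1 : (1 - s) * a ≤ (1 - s) * 1 := mul_le_mul_of_nonneg_left ha.le (by linarith)
      have h2 : s * b < s * 1 := mul_lt_mul_of_pos_left hb h
      linarith
  have hlw : 1 < l w := by
    have h1 := hconv (-(l w₁) + 2) (-(l w₀) + 2) (by linarith) (by linarith)
    rw [hwdef, map_add, map_smul, map_smul, smul_eq_mul, smul_eq_mul]
    nlinarith
  have hmw : ∀ v ∈ V, m v w < 1 ∧ m v (-w) < 1 := by
    intro v hv
    have h1 : m v w₁ < 1 := hm2 v hv _ (gstack_mem.mpr (Or.inl rfl)) (fun h => hw1 (h ▸ hv))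
    have h2 : m v (-w₁) < 1 := hm2 v hv _ (gstack_mem.mpr (Or.inr (Or.inl rfl)))
      (fun h => hw1 (by have := hV.symm v hv; rw [← h] at this; simpa using this))
    have h3 := hb v hv
    rw [map_neg] at h2 h3
    constructor
    · rw [hwdef, map_add, map_smul, map_smul, smul_eq_mul, smul_eq_mul]
      exact hconv _ _ h1 h3.1
    · rw [map_neg, hwdef, map_add, map_smul, map_smul, smul_eq_mul, smul_eq_mul]
      have := hconv _ _ h2 h3.2
      linarith
  have hwV : w ∉ V := fun h => absurd (hle w h) (not_le.mpr hlw)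
  refine ⟨?_, hwV⟩
  intro v hv
  have hw : ∃ l : E d →ₗ[ℝ] ℝ, l w = 1 ∧ ∀ u ∈ add V w, u ≠ w → l u < 1 := by
    refine ⟨(l w)⁻¹ • l, ?_, ?_⟩
    · simp only [LinearMap.smul_apply, smul_eq_mul]
      exact inv_mul_cancel₀ (by linarith)
    · intro u hu hne
      simp only [LinearMap.smul_apply, smul_eq_mul]
      rw [inv_mul_eq_div, div_lt_one (by linarith)]
      rw [gstack_mem] at hu
      rcases hu with hu | hu | hu
      · exact absurd hu hne
      · rw [hu, map_neg]; linarith
      · exact lt_of_le_of_lt (hle u hu) hlw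
  rw [gstack_mem] at hv
  rcases hv with hv | hv | hv
  · rw [hv]; exact hw
  · rw [hv]
    obtain ⟨m', h1, h2⟩ := hw
    refine ⟨-m', by simp [h1], ?_⟩
    intro u hu hne
    have hu' : -u ∈ add V w := by
      rw [gstack_mem] at hu ⊢
      rcases hu with hu | hu | hu
      · right; left; rw [hu]
      · left; rw [hu]; simp
      · right; right; exact hV.symm u hu
    have := h2 (-u) hu' (fun h => hne (by rw [← h]; simp))
    simpa using this
  · refine ⟨m v, hm1 v hv, ?_⟩
    intro u hu hne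
    rw [gstack_mem] at hu
    rcases hu with hu | hu | hu
    · rw [hu]; exact (hmw v hv).1
    · rw [hu]; exact (hmw v hv).2
    · exact hlt v hv u hu hne

end Pool.CS4
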