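import Pool.Agent.CS4.GIVT

/-!
(Stack): a point just beyond a facet.
-/

open Finset Filter Topology

noncomputable section

namespace Pool.CS4

lemma gstack_cen {d : ℕ} {F : Finset (E d)} {m : E d →ₗ[ℝ] ℝ} (hle : ∀ f ∈ F, m f ≤ 1)
    (hex : ∃ f ∈ F, m f < 1) : m (cen F) < 1 := by
  obtain ⟨f, hf, hlt⟩ := hex
  have hpos : (0 : ℝ) < (F.card : ℝ) := by
    exact_mod_cast Finset.card_pos.mpr ⟨f, hf⟩
  have h1 : ∑ v ∈ F, m v < ∑ v ∈ F, (1 : ℝ) := Finset.sum_lt_sum hle ⟨f, hf, hlt⟩
  have h2 : m (cen F) = (F.card : ℝ)⁻¹ * ∑ v ∈ F, m v := by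
    simp [cen, map_smul, map_sum]
  rw [h2, inv_mul_eq_div, div_lt_one hpos]
  simpa using h1

lemma gstack_cont {d : ℕ} (m : E d →ₗ[ℝ] ℝ) : Continuous m := m.continuous_of_finiteDimensional

/-- a functional which is `< 1` on the vertices outside a small set is `< 1` near the centroid -/
lemma gstack_per {d : ℕ} {V F : Finset (E d)} (hs : ∀ v ∈ V, -v ∈ V) (hF : F ⊆ V)
    {m : E d →ₗ[ℝ] ℝ} {S : Finset (E d)} (hc : S.card < F.card)
    (hlt : ∀ u ∈ V, u ∉ S → m u < 1) (hle : ∀ u ∈ V, m u ≤ 1) :
    ∀ᶠ w in 𝓝 (cen F), m w < 1 ∧ m (-w) < 1 := by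
  classical
  have h1 : m (cen F) < 1 := by
    apply gstack_cen (fun f hf => hle f (hF hf))
    obtain ⟨f, hf, hfS⟩ := Finset.exists_mem_notMem_of_card_lt_card hc
    exact ⟨f, hf, hlt f (hF hf) hfS⟩
  have h2 : (-m) (cen F) < 1 := by
    apply gstack_cen
    · intro f hf
      have := hle (-f) (hs f (hF hf))
      simpa using this
    · have hc' : (S.image fun x => -x).card < F.card :=
        lt_of_le_of_lt Finset.card_image_le hc
      obtain ⟨f, hf, hfS⟩ := Finset.exists_mem_notMem_of_card_lt_card hc'
      refine ⟨f, hf, ?_⟩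
      have := hlt (-f) (hs f (hF hf)) (fun h => hfS (Finset.mem_image.mpr ⟨-f, h, by simp⟩))
      simpa using this
  have e1 : ∀ᶠ w in 𝓝 (cen F), m w < 1 :=
    (gstack_cont m).continuousAt.eventually_lt continuousAt_const h1
  have e2 : ∀ᶠ w in 𝓝 (cen F), (-m) w < 1 :=
    (gstack_cont (-m)).continuousAt.eventually_lt continuousAt_const h2
  filter_upwards [e1, e2] with w h3 h4
  exact ⟨h3, by simpa using h4⟩

lemma gstack_mem {d : ℕ} {V : Finset (E d)} {w u : E d} :
    u ∈ add V w ↔ u = w ∨ u = -w ∨ u ∈ V := by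
  classical
  simp [add]

lemma gstack_symm {d : ℕ} {V : Finset (E d)} {x y : E d} (h : Edg V x y) : Edg V y x := by
  obtain ⟨hne, l, h1, h2, h3⟩ := h
  exact ⟨hne.symm, l, h2, h1, fun u hu hy hx => h3 u hu hx hy⟩

lemma gstack_neg {d : ℕ} {V : Finset (E d)} {w x y : E d} (hs : ∀ v ∈ V, -v ∈ V)
    (h : Edg (add V w) x y) : Edg (add V w) (-x) (-y) := by
  obtain ⟨hne, l, h1, h2, h3⟩ := h
  refine ⟨fun h => hne (neg_injective h), -l, by simp [h1], by simp [h2], ?_⟩
  intro u hu hx hy
  have hu' : -u ∈ add V w := by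
    rw [gstack_mem] at hu ⊢
    rcases hu with rfl | rfl | hu
    · right; left; rfl
    · left; simp
    · right; right; exact hs u hu
  have := h3 (-u) hu' (fun h => hx (by rw [← h]; simp)) (fun h => hy (by rw [← h]; simp))
  simpa using this

/-- edges persist near the centroid -/
lemma gstack_old {d : ℕ} {V F : Finset (E d)} (hd : 3 ≤ d) (hs : ∀ v ∈ V, -v ∈ V) (hF : F ⊆ V)
    (hFc : F.card = d) :
    ∀ᶠ w in 𝓝 (cen F), ∀ z ∈ V ×ˢ V, Edg V z.1 z.2 → Edg (add V w) z.1 z.2 := by
  classical
  rw [Filter.eventually_all_finset]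
  intro z hz
  by_cases hE : Edg V z.1 z.2
  · obtain ⟨hne, m, h1, h2, h3⟩ := hE
    have hcard : ({z.1, z.2} : Finset (E d)).card < F.card := by
      rw [hFc]
      exact lt_of_le_of_lt Finset.card_le_two (by omega)
    have hlt : ∀ u ∈ V, u ∉ ({z.1, z.2} : Finset (E d)) → m u < 1 := by
      intro u hu hu'
      simp only [Finset.mem_insert, Finset.mem_singleton, not_or] at hu'
      exact h3 u hu hu'.1 hu'.2
    have hle : ∀ u ∈ V, m u ≤ 1 := by
      intro u hu
      by_cases hx : u = z.1
      · rw [hx, h1]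
      · by_cases hy : u = z.2
        · rw [hy, h2]
        · exact (h3 u hu hx hy).le
    filter_upwards [gstack_per hs hF hcard hlt hle] with w hw _
    refine ⟨hne, m, h1, h2, ?_⟩
    intro u hu hx hy
    rw [gstack_mem] at hu
    rcases hu with rfl | rfl | hu
    · exact hw.1
    · exact hw.2
    · exact h3 u hu hx hy
  · exact Filter.Eventually.of_forall fun w h => absurd h hE

/-- vertices persist near the centroid -/
lemma gstack_vert {d : ℕ} {V F : Finset (E d)} (hd : 3 ≤ d) (hs : ∀ v ∈ V, -v ∈ V) (hF : F ⊆ V)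
    (hFc : F.card = d) (hC : Cvx V) :
    ∀ᶠ w in 𝓝 (cen F), ∀ v ∈ V, ∃ l : E d →ₗ[ℝ] ℝ, l v = 1 ∧ ∀ u ∈ add V w, u ≠ v → l u < 1 := by
  classical
  rw [Filter.eventually_all_finset]
  intro v hv
  obtain ⟨m, h1, h3⟩ := hC v hv
  have hcard : ({v} : Finset (E d)).card < F.card := by
    rw [hFc]; simp; omega
  have hlt : ∀ u ∈ V, u ∉ ({v} : Finset (E d)) → m u < 1 := by
    intro u hu hu'
    simp only [Finset.mem_singleton] at hu'
    exact h3 u hu hu'
  have hle : ∀ u ∈ V, m u ≤ 1 := by
    intro u hu
    by_cases hx : u = v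
    · rw [hx, h1]
    · exact (h3 u hu hx).le
  filter_upwards [gstack_per hs hF hcard hlt hle] with w hw
  refine ⟨m, h1, ?_⟩
  intro u hu hx
  rw [gstack_mem] at hu
  rcases hu with rfl | rfl | hu
  · exact hw.1
  · exact hw.2
  · exact h3 u hu hx

/-- counting the ordered edges -/
lemma gstack_count {d : ℕ} {V F : Finset (E d)} {l : E d →ₗ[ℝ] ℝ} {w : E d}
    (hs : ∀ v ∈ V, -v ∈ V) (hF : F ⊆ V) (hFc : F.card = d) (hle : ∀ v ∈ V, l v ≤ 1)
    (hlw : 1 < l w)
    (hold : ∀ x ∈ V, ∀ y ∈ V, Edg V x y → Edg (add V w) x y)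
    (hnew : ∀ v ∈ V, Edg (add V w) w v ↔ v ∈ F) :
    ne (add V w) = ne V + 4 * d := by
  classical
  have hwV : w ∉ V := fun h => absurd (hle w h) (not_le.mpr hlw)
  have hnV : -w ∉ V := fun h => hwV (by simpa using hs _ h)
  have hww : w ≠ -w := by
    intro h
    have h1 : l w = l (-w) := by rw [← h]
    rw [map_neg] at h1
    linarith
  have hFl : ∀ v ∈ F, v ≠ w ∧ v ≠ -w ∧ -v ≠ w ∧ -v ≠ -w := by
    intro v hv
    have hvV := hF hv
    refine ⟨fun h => hwV (h ▸ hvV), fun h => hnV (h ▸ hvV), fun h => hwV (h ▸ hs v hvV),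
      fun h => hnV (h ▸ hs v hvV)⟩
  have hset : ((add V w ×ˢ add V w).filter fun z => Edg (add V w) z.1 z.2) =
      ((((V ×ˢ V).filter fun z => Edg V z.1 z.2) ∪ F.image (fun v => (w, v))) ∪
        (F.image (fun v => (v, w)) ∪ F.image (fun v => (-w, -v)))) ∪
        F.image (fun v => (-v, -w)) := by
    ext ⟨x, y⟩
    simp only [Finset.mem_filter, Finset.mem_product, Finset.mem_union, Finset.mem_image,
      Prod.mk.injEq]
    constructor
    · rintro ⟨⟨hx, hy⟩, hE⟩
      rw [gstack_mem] at hx hy
      rcases hx with rfl | rfl | hx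
      · rcases hy with rfl | rfl | hy
        · exact absurd rfl hE.1
        · obtain ⟨_, l', h1, h2, _⟩ := hE
          rw [map_neg] at h2
          linarith
        · left; left; right
          exact ⟨y, (hnew y hy).mp hE, rfl, rfl⟩
      · rcases hy with rfl | rfl | hy
        · obtain ⟨_, l', h1, h2, _⟩ := hE
          rw [map_neg] at h1
          linarith
        · exact absurd rfl hE.1
        · left; right; right
          have h1 := gstack_neg hs hE
          rw [neg_neg] at h1
          exact ⟨-y, (hnew (-y) (hs y hy)).mp h1, rfl, by simp⟩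
      · rcases hy with rfl | rfl | hy
        · left; right; left
          exact ⟨x, (hnew x hx).mp (gstack_symm hE), rfl, rfl⟩
        · right
          have h1 := gstack_symm (gstack_neg hs hE)
          rw [neg_neg] at h1
          exact ⟨-x, (hnew (-x) (hs x hx)).mp h1, by simp, rfl⟩
        · left; left; left
          refine ⟨⟨hx, hy⟩, hE.1, ?_⟩
          obtain ⟨_, l', h1, h2, h3⟩ := hE
          exact ⟨l', h1, h2, fun u hu => h3 u (gstack_mem.mpr (Or.inr (Or.inr hu)))⟩
    · have key : ∀ v ∈ F, Edg (add V w) w v := fun v hv => (hnew v (hF hv)).mpr hv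
      have mw : w ∈ add V w := gstack_mem.mpr (Or.inl rfl)
      have mnw : -w ∈ add V w := gstack_mem.mpr (Or.inr (Or.inl rfl))
      have mV : ∀ u ∈ V, u ∈ add V w := fun u hu => gstack_mem.mpr (Or.inr (Or.inr hu))
      rintro (((⟨⟨hx, hy⟩, hE⟩ | ⟨v, hv, rfl, rfl⟩) | (⟨v, hv, rfl, rfl⟩ | ⟨v, hv, rfl, rfl⟩)) |
        ⟨v, hv, rfl, rfl⟩)
      · exact ⟨⟨mV x hx, mV y hy⟩, hold x hx y hy hE⟩
      · exact ⟨⟨mw, mV _ (hF hv)⟩, key _ hv⟩
      · exact ⟨⟨mV _ (hF hv), mw⟩, gstack_symm (key _ hv)⟩
      · exact ⟨⟨mnw, mV _ (hs _ (hF hv))⟩, gstack_neg hs (key _ hv)⟩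
      · exact ⟨⟨mV _ (hs _ (hF hv)), mnw⟩, gstack_symm (gstack_neg hs (key _ hv))⟩
  have c1 : (F.image (fun v => (w, v))).card = d := by
    rw [Finset.card_image_of_injective _ (fun a b h => by simpa using h), hFc]
  have c2 : (F.image (fun v => (v, w))).card = d := by
    rw [Finset.card_image_of_injective _ (fun a b h => by simpa using h), hFc]
  have c3 : (F.image (fun v => (-w, -v))).card = d := by
    rw [Finset.card_image_of_injective _ (fun a b h => by simpa using h), hFc]
  have c4 : (F.image (fun v => (-v, -w))).card = d := by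
    rw [Finset.card_image_of_injective _ (fun a b h => by simpa using h), hFc]
  have e1 : ne (add V w) = ((add V w ×ˢ add V w).filter fun z => Edg (add V w) z.1 z.2).card := by
    unfold ne
    congr
  have e2 : ne V = ((V ×ˢ V).filter fun z => Edg V z.1 z.2).card := by
    unfold ne
    congr
  rw [e1, hset, Finset.card_union_of_disjoint, Finset.card_union_of_disjoint,
    Finset.card_union_of_disjoint, Finset.card_union_of_disjoint, c1, c2, c3, c4, ← e2]
  · ring
  · rw [Finset.disjoint_left]
    intro z h1 h2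
    simp only [Finset.mem_image] at h1 h2
    obtain ⟨v, hv, rfl⟩ := h1
    obtain ⟨v', hv', h⟩ := h2
    simp only [Prod.mk.injEq] at h
    exact (hFl v hv).2.1 h.1.symm
  · rw [Finset.disjoint_left]
    intro z h1 h2
    simp only [Finset.mem_filter, Finset.mem_product, Finset.mem_image] at h1 h2
    obtain ⟨v, hv, rfl⟩ := h2
    exact hwV h1.1.1
  · rw [Finset.disjoint_left]
    intro z h1 h2
    simp only [Finset.mem_filter, Finset.mem_product, Finset.mem_image, Finset.mem_union] at h1 h2
    rcases h1 with h1 | ⟨v, hv, rfl⟩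
    · rcases h2 with ⟨v, hv, rfl⟩ | ⟨v, hv, rfl⟩
      · exact hwV h1.1.2
      · exact hnV h1.1.1
    · rcases h2 with ⟨v', hv', h⟩ | ⟨v', hv', h⟩
      · simp only [Prod.mk.injEq] at h
        exact (hFl v' hv').1 h.1
      · simp only [Prod.mk.injEq] at h
        exact hww h.1.symm
  · rw [Finset.disjoint_left]
    intro z h1 h2
    simp only [Finset.mem_filter, Finset.mem_product, Finset.mem_image, Finset.mem_union] at h1 h2
    obtain ⟨v, hv, rfl⟩ := h2
    rcases h1 with (h1 | ⟨v', hv', h⟩) | (⟨v', hv', h⟩ | ⟨v', hv', h⟩)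
    · exact hnV h1.1.2
    · simp only [Prod.mk.injEq] at h
      exact (hFl v hv).2.2.1 h.1.symm
    · simp only [Prod.mk.injEq] at h
      exact hww h.2
    · simp only [Prod.mk.injEq] at h
      exact (hFl v' hv').2.2.2 h.2

theorem gstack : Stmt_Stack := by
  classical
  intro d V l F hd hV hF ρ hρ
  obtain ⟨hFV, hFc, hF1, hFlt⟩ := hF
  have hle : ∀ v ∈ V, l v ≤ 1 := by
    intro v hv
    by_cases h : v ∈ F
    · exact (hF1 v h).le
    · exact (hFlt v hv h).le
  have hna : NoAnti F := by
    intro x hx hx'
    have h1 := hF1 x hx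
    have h2 := hF1 (-x) hx'
    rw [map_neg] at h2
    linarith
  have hli := (hV.gp F hFV hna).1 hFc.le
  have hcard : Fintype.card {x // x ∈ F} = Module.finrank ℝ (E d) := by
    simp [hFc]
  haveI : Nonempty {x // x ∈ F} := by
    rw [← Fintype.card_pos_iff, hcard]
    simp; omega
  let b := basisOfLinearIndependentOfCardEqFinrank hli hcard
  have hb : ∀ i : {x // x ∈ F}, b i = (i : E d) := by
    intro i
    simp [b, coe_basisOfLinearIndependentOfCardEqFinrank]
  have hex : ∀ (m : E d →ₗ[ℝ] ℝ) (x : E d), m x = ∑ i, b.coord i x * m (b i) := by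
    intro m x
    conv_lhs => rw [← b.sum_repr x]
    simp [map_sum, map_smul, Module.Basis.coord_apply]
  have hlx : ∀ x : E d, l x = ∑ i, b.coord i x := by
    intro x
    rw [hex l x]
    apply Finset.sum_congr rfl
    intro i _
    rw [hb i, hF1 _ i.2, mul_one]
  have hdpos : (0 : ℝ) < d := by
    exact_mod_cast (by omega : 0 < d)
  have hcen : ∀ i, b.coord i (cen F) = (d : ℝ)⁻¹ := by
    intro i
    have h1 : b.coord i (cen F) = (d : ℝ)⁻¹ * ∑ v ∈ F, b.coord i v := by
      simp only [cen, map_smul, map_sum, smul_eq_mul, hFc]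
    have h2 : ∑ v ∈ F, b.coord i v = ∑ j : {x // x ∈ F}, b.coord i (b j) := by
      rw [← Finset.sum_coe_sort F (fun v => b.coord i v)]
      apply Finset.sum_congr rfl
      intro j _
      rw [hb j]
    have h3 : ∑ j : {x // x ∈ F}, b.coord i (b j) = 1 := by
      simp [Module.Basis.coord_apply, Module.Basis.repr_self, Finsupp.single_apply]
    rw [h1, h2, h3, mul_one]
  have hlc : l (cen F) = 1 := by
    rw [hlx]
    simp only [hcen]
    simp [hFc, hdpos.ne']
  -- the four conditions
  have E1 := gstack_vert (by omega) hV.symm hFV hFc hV.cvx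
  have E2 := gstack_old (by omega) hV.symm hFV hFc
  have E3 : ∀ᶠ w in 𝓝 (cen F), ∀ i : {x // x ∈ F}, (2 * d : ℝ)⁻¹ < b.coord i w := by
    rw [Filter.eventually_all]
    intro i
    apply Filter.Tendsto.eventually_const_lt _ (gstack_cont (b.coord i)).continuousAt
    rw [hcen i]
    rw [mul_inv]
    have : (0 : ℝ) < (d : ℝ)⁻¹ := inv_pos.mpr hdpos
    linarith
  have E4 : ∀ᶠ w in 𝓝 (cen F), ∀ u ∈ V, u ∉ F →
      (2 * d * (l w - 1)) * ∑ i, |b.coord i u| < 1 - l u := by
    rw [Filter.eventually_all_finset]
    intro u hu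
    by_cases huF : u ∈ F
    · exact Filter.Eventually.of_forall fun w h => absurd huF h
    · have hc : Continuous fun w : E d => (2 * d * (l w - 1)) * ∑ i, |b.coord i u| := by
        have := gstack_cont l
        fun_prop
      have h0 : (2 * d * (l (cen F) - 1)) * ∑ i, |b.coord i u| < 1 - l u := by
        rw [hlc]
        have := hFlt u hu huF
        simp only [sub_self, mul_zero, zero_mul]
        linarith
      filter_upwards [hc.continuousAt.eventually_lt continuousAt_const h0] with w hw _
      exact hw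
  have hgood : ∀ᶠ w in 𝓝 (cen F), 1 < l w → (GP (add V w) → Conf d (add V w) ∧
      ne (add V w) = ne V + 4 * d) := by
    filter_upwards [E1, E2, E3, E4] with w e1 e2 e3 e4 hlw hGP
    have hwV : w ∉ V := fun h => absurd (hle w h) (not_le.mpr hlw)
    have hnV : -w ∉ V := fun h => hwV (by simpa using hV.symm _ h)
    have hC : Cvx (add V w) := by
      intro v hv
      have hw : ∃ l : E d →ₗ[ℝ] ℝ, l w = 1 ∧ ∀ u ∈ add V w, u ≠ w → l u < 1 := by
        refine ⟨(l w)⁻¹ • l, ?_, ?_⟩
        · simp only [LinearMap.smul_apply, smul_eq_mul]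
          exact inv_mul_cancel₀ (by linarith)
        · intro u hu hne
          simp only [LinearMap.smul_apply, smul_eq_mul]
          rw [inv_mul_eq_div, div_lt_one (by linarith)]
          rw [gstack_mem] at hu
          rcases hu with rfl | rfl | hu
          · exact absurd rfl hne
          · rw [map_neg]; linarith
          · exact lt_of_le_of_lt (hle u hu) hlw
      rw [gstack_mem] at hv
      rcases hv with rfl | rfl | hv
      · exact hw
      · obtain ⟨m, h1, h2⟩ := hw
        refine ⟨-m, by simp [h1], ?_⟩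
        intro u hu hne
        have hu' : -u ∈ add V w := by
          rw [gstack_mem] at hu ⊢
          rcases hu with rfl | rfl | hu
          · right; left; rfl
          · left; simp
          · right; right; exact hV.symm u hu
        have := h2 (-u) hu' (fun h => hne (by rw [← h]; simp))
        simpa using this
      · exact e1 v hv
    refine ⟨givt_conf hV hGP hC, ?_⟩
    apply gstack_count hV.symm hFV hFc hle hlw
    · intro x hx y hy hE
      exact e2 (x, y) (Finset.mem_product.mpr ⟨hx, hy⟩) hE
    · intro v hv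
      constructor
      · rintro ⟨hne, l', h1, h2, h3⟩
        by_contra hvF
        have hle' : ∀ u ∈ V, l' u ≤ 1 := by
          intro u hu
          by_cases huw : u = w
          · exact absurd (huw ▸ hu) hwV
          · by_cases huv : u = v
            · rw [huv, h2]
            · exact (h3 u (gstack_mem.mpr (Or.inr (Or.inr hu))) huw huv).le
        have hη : ∀ i : {x // x ∈ F}, 0 ≤ 1 - l' (b i) := by
          intro i
          rw [hb i]
          have := hle' _ (hFV i.2)
          linarith
        have hS : ∑ i, b.coord i w * (1 - l' (b i)) = l w - 1 := by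
          simp only [mul_sub, mul_one, Finset.sum_sub_distrib]
          rw [← hlx w, ← hex l' w, h1]
        have hS2 : (2 * d : ℝ)⁻¹ * ∑ i, (1 - l' (b i)) ≤ l w - 1 := by
          rw [← hS, Finset.mul_sum]
          apply Finset.sum_le_sum
          intro i _
          exact mul_le_mul_of_nonneg_right (e3 i).le (hη i)
        have hS3 : ∑ i, (1 - l' (b i)) ≤ 2 * d * (l w - 1) := by
          rw [inv_mul_le_iff₀ (by positivity)] at hS2
          exact hS2
        have h5 : l' v = l v - ∑ i, b.coord i v * (1 - l' (b i)) := by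
          simp only [mul_sub, mul_one, Finset.sum_sub_distrib]
          rw [← hlx v, ← hex l' v]
          ring
        have h6 : -(∑ i, b.coord i v * (1 - l' (b i))) ≤
            (2 * d * (l w - 1)) * ∑ i, |b.coord i v| := by
          rw [← Finset.sum_neg_distrib, Finset.mul_sum]
          apply Finset.sum_le_sum
          intro i _
          have h7 : 1 - l' (b i) ≤ 2 * d * (l w - 1) :=
            (Finset.single_le_sum (f := fun i => 1 - l' (b i)) (fun j _ => hη j)
              (Finset.mem_univ i)).trans hS3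
          calc -(b.coord i v * (1 - l' (b i))) ≤ |b.coord i v| * (1 - l' (b i)) := by
                rw [← neg_mul]
                exact mul_le_mul_of_nonneg_right (neg_le_abs _) (hη i)
            _ ≤ |b.coord i v| * (2 * d * (l w - 1)) :=
                mul_le_mul_of_nonneg_left h7 (abs_nonneg _)
            _ = _ := by ring
        have h8 := e4 v hv hvF
        linarith
      · intro hvF
        let j : {x // x ∈ F} := ⟨v, hvF⟩
        have hbj : b j = v := hb j
        have hsum : ∀ x : E d, l x - b.coord j x = ∑ i ∈ Finset.univ.erase j, b.coord i x := by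
          intro x
          rw [hlx x, ← Finset.add_sum_erase _ _ (Finset.mem_univ j)]
          ring
        have hpos' : 0 < (2 * d : ℝ)⁻¹ := by positivity
        have hcoord : ∀ i, 0 < b.coord i w := fun i => hpos'.trans (e3 i)
        obtain ⟨k, hk⟩ : ∃ k : {x // x ∈ F}, k ≠ j := by
          have h1 : 1 < Fintype.card {x // x ∈ F} := by
            rw [hcard]; simp; omega
          haveI := Fintype.one_lt_card_iff_nontrivial.mp h1
          exact exists_ne j
        have hden : (2 * d : ℝ)⁻¹ ≤ l w - b.coord j w := by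
          rw [hsum w]
          refine (e3 k).le.trans ?_
          exact Finset.single_le_sum (f := fun i => b.coord i w) (fun i _ => (hcoord i).le)
            (Finset.mem_erase.mpr ⟨hk, Finset.mem_univ k⟩)
        have hden0 : 0 < l w - b.coord j w := lt_of_lt_of_le hpos' hden
        set η : ℝ := (l w - 1) / (l w - b.coord j w) with hηdef
        have hη0 : 0 < η := div_pos (by linarith) hden0
        have hη1 : η ≤ 2 * d * (l w - 1) := by
          rw [hηdef, div_le_iff₀ hden0]
          have h1 : 1 ≤ 2 * d * (l w - b.coord j w) := by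
            have := mul_le_mul_of_nonneg_left hden (by positivity : (0 : ℝ) ≤ 2 * d)
            rw [mul_inv_cancel₀ (by positivity)] at this
            exact this
          have h2 : 0 ≤ l w - 1 := by linarith
          nlinarith
        let m : E d →ₗ[ℝ] ℝ := l - η • (l - b.coord j)
        have hm : ∀ x, m x = l x - η * (l x - b.coord j x) := by
          intro x
          simp [m]
        have hmw : m w = 1 := by
          rw [hm, hηdef, div_mul_cancel₀ _ hden0.ne']
          ring
        have hmF : ∀ i : {x // x ∈ F}, m (b i) = 1 - η * (1 - b.coord j (b i)) := by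
          intro i
          rw [hm, hb i, hF1 _ i.2]
        refine ⟨fun h => hwV (h ▸ hv), m, hmw, ?_, ?_⟩
        · rw [← hbj, hmF j]
          simp
        · intro u hu huw huv
          rw [gstack_mem] at hu
          rcases hu with rfl | rfl | hu
          · exact absurd rfl huw
          · rw [map_neg, hmw]; norm_num
          · by_cases huF : u ∈ F
            · let i : {x // x ∈ F} := ⟨u, huF⟩
              have hbi : b i = u := hb i
              have hij : i ≠ j := fun h => huv (by rw [← hbi, h, hbj])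
              have := hmF i
              rw [hbi] at this
              rw [this]
              have h0 : b.coord j u = 0 := by
                rw [← hbi]
                simp [Module.Basis.coord_apply, Module.Basis.repr_self, Finsupp.single_apply, hij]
              rw [h0]
              linarith
            · rw [hm]
              have h8 := e4 u hu huF
              have h9 : -(l u - b.coord j u) ≤ ∑ i, |b.coord i u| := by
                rw [hsum u, ← Finset.sum_neg_distrib]
                refine (Finset.sum_le_sum (fun i _ => neg_le_abs (b.coord i u))).trans ?_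
                exact Finset.sum_le_sum_of_subset_of_nonneg (Finset.erase_subset _ _)
                  (fun i _ _ => abs_nonneg _)
              have h10 : 0 ≤ ∑ i, |b.coord i u| := Finset.sum_nonneg fun i _ => abs_nonneg _
              have h11 : -(η * (l u - b.coord j u)) ≤ (2 * d * (l w - 1)) * ∑ i, |b.coord i u| := by
                calc -(η * (l u - b.coord j u)) = η * (-(l u - b.coord j u)) := by ring
                  _ ≤ η * ∑ i, |b.coord i u| := mul_le_mul_of_nonneg_left h9 hη0.le
                  _ ≤ _ := mul_le_mul_of_nonneg_right hη1 h10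
              linarith
  obtain ⟨T, hT, hTo, hcT⟩ := eventually_nhds_iff.mp hgood
  have hlo : IsOpen {w : E d | 1 < l w} := isOpen_lt continuous_const (gstack_cont l)
  refine ⟨T ∩ {w | 1 < l w} ∩ Metric.ball (cen F) ρ, (hTo.inter hlo).inter Metric.isOpen_ball,
    ?_, Set.inter_subset_right, ?_⟩
  · have hO : IsOpen (T ∩ Metric.ball (cen F) ρ) := hTo.inter Metric.isOpen_ball
    have hcO : cen F ∈ T ∩ Metric.ball (cen F) ρ := ⟨hcT, Metric.mem_ball_self hρ⟩
    have hg : Continuous fun t : ℝ => (1 + t) • cen F := by fun_prop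
    have hg0 : (fun t : ℝ => (1 + t) • cen F) 0 = cen F := by simp
    have hev : ∀ᶠ t in 𝓝 (0 : ℝ), (1 + t) • cen F ∈ T ∩ Metric.ball (cen F) ρ := by
      apply hg.continuousAt.eventually
      rw [hg0]
      exact hO.mem_nhds hcO
    obtain ⟨ε, hε, hb'⟩ := Metric.eventually_nhds_iff.mp hev
    have hmem := hb' (show dist (ε / 2) 0 < ε by
      rw [Real.dist_eq, sub_zero, abs_of_pos (by linarith)]; linarith)
    refine ⟨(1 + ε / 2) • cen F, ⟨hmem.1, ?_⟩, hmem.2⟩
    change 1 < l ((1 + ε / 2) • cen F)
    rw [map_smul, hlc, smul_eq_mul]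
    linarith
  · intro w hw
    exact ⟨hw.1.2, hT w hw.1.1 hw.1.2⟩

end Pool.CS4
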