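import Pool.Agent.CS4.GExcep

/-! Removing an antipodal pair. -/

open Finset Filter Topology Classical

noncomputable section

namespace Pool.CS4

theorem gsub : Stmt_Sub := by
  intro d V hd hV hcard
  obtain ⟨T, -, hTV, hTA, hTc⟩ := gexcep_extend hV (Finset.empty_subset V)
    (fun x hx => absurd hx (Finset.notMem_empty x)) (by simp)
  have hTli := (hV.gp T hTV hTA).1 hTc.le
  have hTspan : Submodule.span ℝ (T : Set (E d)) = ⊤ := by
    have h1 := hTli.span_eq_top_of_card_eq_finrank' (by
      rw [Fintype.card_coe, hTc, Module.finrank_fin_fun])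
    rwa [Subtype.range_coe_subtype] at h1
  obtain ⟨w, hw, hwT⟩ : ∃ w ∈ V, w ∉ T ∪ T.image (fun x => -x) := by
    by_contra hno
    push Not at hno
    have h1 : V.card ≤ (T ∪ T.image (fun x => -x)).card := Finset.card_le_card hno
    have h2 : (T ∪ T.image (fun x => -x)).card ≤ T.card + (T.image (fun x => -x)).card :=
      Finset.card_union_le _ _
    have h3 : (T.image (fun x => -x)).card ≤ T.card := Finset.card_image_le
    omega
  rw [Finset.mem_union, Finset.mem_image] at hwT
  push Not at hwT
  have hww : w ≠ -w := by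
    intro h
    obtain ⟨l, hl, -⟩ := hV.cvx w hw
    have h3 := congrArg l h
    rw [map_neg, hl] at h3
    linarith
  let V' : Finset (E d) := (V.erase w).erase (-w)
  have hV'V : V' ⊆ V := (Finset.erase_subset _ _).trans (Finset.erase_subset _ _)
  have hmem : ∀ x, x ∈ V' ↔ x ≠ -w ∧ x ≠ w ∧ x ∈ V := by
    intro x
    simp only [V', Finset.mem_erase]
  have hTV' : T ⊆ V' := by
    intro x hx
    rw [hmem]
    refine ⟨?_, ?_, hTV hx⟩
    · intro h
      apply hwT.2 x hx
      rw [h, neg_neg]
    · rintro rfl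
      exact hwT.1 hx
  refine ⟨V', w, ⟨?_, ?_, ?_, ?_⟩, ?_, ?_, ?_⟩
  · intro v hv
    rw [hmem] at hv ⊢
    refine ⟨?_, ?_, hV.symm v hv.2.2⟩
    · intro h
      exact hv.2.1 (neg_injective h)
    · intro h
      apply hv.1
      rw [← h, neg_neg]
  · intro S hS hA
    exact hV.gp S (hS.trans hV'V) hA
  · intro v hv
    obtain ⟨l, h1, h2⟩ := hV.cvx v (hV'V hv)
    exact ⟨l, h1, fun u hu => h2 u (hV'V hu)⟩
  · rw [eq_top_iff, ← hTspan]
    exact Submodule.span_mono (by exact_mod_cast hTV')
  · rw [hmem]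
    intro h
    exact h.2.1 rfl
  · ext x
    unfold add
    rw [Finset.mem_insert, Finset.mem_insert, hmem]
    constructor
    · intro hx
      by_cases h1 : x = w
      · exact Or.inl h1
      by_cases h2 : x = -w
      · exact Or.inr (Or.inl h2)
      exact Or.inr (Or.inr ⟨h2, h1, hx⟩)
    · rintro (rfl | rfl | h)
      · exact hw
      · exact hV.symm _ hw
      · exact h.2.2
  · have h1 : -w ∈ V.erase w := Finset.mem_erase.2 ⟨Ne.symm hww, hV.symm w hw⟩
    have h2 := Finset.card_erase_of_mem h1
    have h3 := Finset.card_erase_of_mem hw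
    have h4 : 0 < (V.erase w).card := Finset.card_pos.2 ⟨_, h1⟩
    have h5 : 0 < V.card := Finset.card_pos.2 ⟨_, hw⟩
    show V.card = ((V.erase w).erase (-w)).card + 2
    omega

end Pool.CS4
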