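import Pool.Agent.CS4.Defs

/-!
No gaps in the values of `g_2`: definitions and statements of the modules.
Paper: /team-store/CS4_gap_paper.md
-/

open Finset Filter Topology

noncomputable section

namespace Pool.CS4

/-- no antipodal pair in `S` -/
def NoAnti {d : ℕ} (S : Finset (E d)) : Prop := ∀ x ∈ S, -x ∉ S

/-- general position of a centrally symmetric set -/
def GP {d : ℕ} (V : Finset (E d)) : Prop := ∀ S ⊆ V, NoAnti S →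
  (S.card ≤ d → LinearIndependent ℝ (fun x : {x // x ∈ S} => (x : E d))) ∧
  (S.card ≤ d + 1 → AffineIndependent ℝ (fun x : {x // x ∈ S} => (x : E d)))

/-- every point of `V` is exposed -/
def Cvx {d : ℕ} (V : Finset (E d)) : Prop :=
  ∀ v ∈ V, ∃ l : E d →ₗ[ℝ] ℝ, l v = 1 ∧ ∀ u ∈ V, u ≠ v → l u < 1

/-- centrally symmetric point sets in general and convex position that span the space -/
structure Conf (d : ℕ) (V : Finset (E d)) : Prop where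
  symm : ∀ v ∈ V, -v ∈ V
  gp : GP V
  cvx : Cvx V
  span : Submodule.span ℝ (V : Set (E d)) = ⊤

/-- `[x, y]` is an edge -/
def Edg {d : ℕ} (V : Finset (E d)) (x y : E d) : Prop :=
  x ≠ y ∧ ∃ l : E d →ₗ[ℝ] ℝ, l x = 1 ∧ l y = 1 ∧ ∀ u ∈ V, u ≠ x → u ≠ y → l u < 1

open Classical in
/-- number of ordered pairs of adjacent vertices -/
def ne {d : ℕ} (V : Finset (E d)) : ℕ := ((V ×ˢ V).filter fun z => Edg V z.1 z.2).card

open Classical in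
/-- `V` with the two points `w` and `-w` -/
def add {d : ℕ} (V : Finset (E d)) (w : E d) : Finset (E d) := insert w (insert (-w) V)

/-- `l` defines the facet with vertex set `F` -/
def IsFac {d : ℕ} (V : Finset (E d)) (l : E d →ₗ[ℝ] ℝ) (F : Finset (E d)) : Prop :=
  F ⊆ V ∧ F.card = d ∧ (∀ v ∈ F, l v = 1) ∧ ∀ v ∈ V, v ∉ F → l v < 1

/-- centroid -/
def cen {d : ℕ} (F : Finset (E d)) : E d := (F.card : ℝ)⁻¹ • ∑ v ∈ F, v

/-- `w` lies in at most one hyperplane spanned by `d` points of `V` (without antipodal pairs) -/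
def One {d : ℕ} (V : Finset (E d)) (w : E d) : Prop := ∀ S S' : Finset (E d), S ⊆ V → S' ⊆ V →
  S.card = d → S'.card = d → NoAnti S → NoAnti S' →
  w ∈ affineSpan ℝ (S : Set (E d)) → w ∈ affineSpan ℝ (S' : Set (E d)) → S = S'

def Stmt_Conf : Prop := ∀ (d : ℕ) (V : Finset (E d)), 2 ≤ d → Conf d V →
  IsCSSimplicial d V ∧ ne V = 2 * fv V 2

def Stmt_Pert : Prop := ∀ (d : ℕ) (V : Finset (E d)), 2 ≤ d → IsCSSimplicial d V →
  ∃ V' : Finset (E d), Conf d V' ∧ V'.card = V.card ∧ ne V' = 2 * fv V 2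

def Stmt_Fac : Prop := ∀ (d : ℕ) (V : Finset (E d)) (w : E d), 1 ≤ d → Conf d V →
  w ∉ convexHull ℝ (V : Set (E d)) → ∃ l F, IsFac V l F ∧ 1 < l w

def Stmt_Stack : Prop := ∀ (d : ℕ) (V : Finset (E d)) (l : E d →ₗ[ℝ] ℝ) (F : Finset (E d)),
  4 ≤ d → Conf d V → IsFac V l F → ∀ ρ : ℝ, 0 < ρ →
  ∃ U : Set (E d), IsOpen U ∧ U.Nonempty ∧ U ⊆ Metric.ball (cen F) ρ ∧ ∀ w ∈ U, 1 < l w ∧
    (GP (add V w) → Conf d (add V w) ∧ ne (add V w) = ne V + 4 * d)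

open Classical in
/-- replace `w` by `w'` and `-w` by `-w'` -/
def rel {d : ℕ} (w w' x : E d) : E d := if x = w then w' else if x = -w then -w' else x

/-- edges persist -/
def Stmt_Pers : Prop := ∀ (d : ℕ) (V : Finset (E d)) (w x y : E d), 3 ≤ d → Conf d V → w ∉ V →
  Cvx (add V w) → x ∈ add V w → y ∈ add V w → Edg (add V w) x y →
  ∀ᶠ w' in 𝓝 w, Edg (add V w') (rel w w' x) (rel w w' y)

/-- limits of edges are weakly supported -/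
def Stmt_Lim : Prop := ∀ (d : ℕ) (V : Finset (E d)) (w x y : E d), 1 ≤ d → Conf d V → w ∉ V →
  x ∈ add V w → y ∈ add V w →
  (∃ᶠ w' in 𝓝 w, Edg (add V w') (rel w w' x) (rel w w' y)) →
  ∃ l : E d →ₗ[ℝ] ℝ, l x = 1 ∧ l y = 1 ∧ ∀ u ∈ add V w, l u ≤ 1

/-- at most one antipodal pair of segments is weakly supported but not an edge -/
def Stmt_Excep : Prop := ∀ (d : ℕ) (V : Finset (E d)) (w : E d), 4 ≤ d → Conf d V → w ∉ V →
  Cvx (add V w) → One V w → ∃ p q : E d, ∀ x ∈ add V w, ∀ y ∈ add V w, x ≠ y →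
    (∃ l : E d →ₗ[ℝ] ℝ, l x = 1 ∧ l y = 1 ∧ ∀ u ∈ add V w, l u ≤ 1) → ¬ Edg (add V w) x y →
    ((x = p ∧ y = q) ∨ (x = q ∧ y = p) ∨ (x = -p ∧ y = -q) ∨ (x = -q ∧ y = -p))

def Stmt_Local : Prop := ∀ (d : ℕ) (V : Finset (E d)) (w : E d), 4 ≤ d → Conf d V → w ∉ V →
  Cvx (add V w) → One V w → ∃ c : ℕ, ∀ᶠ w' in 𝓝 w, GP (add V w') →
    ne (add V w') = c ∨ ne (add V w') = c + 4

def Stmt_Path : Prop := ∀ (d : ℕ) (V : Finset (E d)) (w₁ : E d) (U : Set (E d)), 2 ≤ d →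
  Conf d V → Conf d (add V w₁) → w₁ ∉ V → IsOpen U → U.Nonempty → ∃ w₀ ∈ U,
    GP (add V w₀) ∧ (∀ s ∈ Set.Icc (0 : ℝ) 1, One V ((1 - s) • w₁ + s • w₀)) ∧
    {s : ℝ | s ∈ Set.Icc (0 : ℝ) 1 ∧ ¬ GP (add V ((1 - s) • w₁ + s • w₀))}.Finite

def Stmt_GPex : Prop := ∀ (d : ℕ) (V : Finset (E d)) (U : Set (E d)), 2 ≤ d → Conf d V →
  IsOpen U → U.Nonempty → ∃ w ∈ U, w ∉ V ∧ GP (add V w)

open Classical in
/-- the symmetric set of `2 N` points -/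
def sset {d N : ℕ} (v : Fin N → E d) : Finset (E d) :=
  (Finset.univ.image v) ∪ (Finset.univ.image fun i => -v i)

/-- general position is dense -/
def Stmt_GPd : Prop := ∀ (d N : ℕ) (v : Fin N → E d) (ρ : ℝ), 1 ≤ d → 0 < ρ →
  ∃ v' : Fin N → E d, (∀ i, dist (v' i) (v i) < ρ) ∧ GP (sset v') ∧ (sset v').card = 2 * N

def Stmt_Seg : Prop := ∀ (d : ℕ) (V : Finset (E d)) (w₁ : E d) (l : E d →ₗ[ℝ] ℝ)
  (F : Finset (E d)), 2 ≤ d → Conf d V → Conf d (add V w₁) → w₁ ∉ V → IsFac V l F → 1 < l w₁ →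
  ∃ ρ : ℝ, 0 < ρ ∧ ∀ w₀ ∈ Metric.ball (cen F) ρ, 1 < l w₀ → ∀ s ∈ Set.Icc (0 : ℝ) 1,
    Cvx (add V ((1 - s) • w₁ + s • w₀)) ∧ (1 - s) • w₁ + s • w₀ ∉ V

def Stmt_Four : Prop := ∀ (d : ℕ) (V : Finset (E d)), 2 ≤ d → Conf d V → 4 ∣ ne V

def Stmt_IVT : Prop := ∀ (d : ℕ) (V : Finset (E d)) (w₁ : E d) (m : ℕ), 4 ≤ d →
  Conf d V → Conf d (add V w₁) → w₁ ∉ V → 4 ∣ m → ne V + 4 * d ≤ m → m ≤ ne (add V w₁) →
  ∃ w : E d, w ∉ V ∧ Conf d (add V w) ∧ ne (add V w) = m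

def Stmt_Sub : Prop := ∀ (d : ℕ) (V : Finset (E d)), 2 ≤ d → Conf d V → 2 * d < V.card →
  ∃ (V' : Finset (E d)) (w : E d), Conf d V' ∧ w ∉ V' ∧ V = add V' w ∧ V.card = V'.card + 2

def Stmt_Base : Prop := ∀ (d : ℕ) (V : Finset (E d)), 2 ≤ d → Conf d V →
  2 * d ≤ V.card ∧ (V.card = 2 * d → ne V = 4 * (d * (d - 1))) ∧ Even V.card ∧
  ∃ l F, IsFac V l F

def Stmt_g2d : Prop := ∀ (d : ℕ) (V : Finset (E d)), 2 ≤ d → IsCSSimplicial d V → 3 ≤ V.card →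
  gv d V 2 = (fv V 2 : ℤ) - d * (V.card : ℤ) + ((d + 1).choose 2 : ℤ)

/-- no gaps -/
def Stmt_NoGap : Prop := ∀ (d : ℕ) (V : Finset (E d)) (g : ℤ), 4 ≤ d → IsCSSimplicial d V →
  (d.choose 2 : ℤ) - d ≤ g → g ≤ gv d V 2 → 2 ∣ gv d V 2 - g →
  ∃ V' : Finset (E d), IsCSSimplicial d V' ∧ V'.card = V.card ∧ gv d V' 2 = g

end Pool.CS4
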