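import Pool.Agent.CS4.Stmts

set_option autoImplicit false

/-!
# Points in general position on the symmetric moment curve
-/

open Finset Matrix

noncomputable section

namespace Pool.CS4

/-- an affine function with coefficients `a` -/
def gen_ev (a : Fin 5 → ℝ) (y : E 4) : ℝ := a 4 + a 0 * y 0 + a 1 * y 1 + a 2 * y 2 + a 3 * y 3

/-- the zero set of an affine function as an affine subspace -/
def gen_sub (a : Fin 5 → ℝ) : AffineSubspace ℝ (E 4) where
  carrier := {y | gen_ev a y = 0}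
  smul_vsub_vadd_mem' := by
    intro c p1 p2 p3 h1 h2 h3
    simp only [Set.mem_ofPred_eq] at h1 h2 h3 ⊢
    simp only [gen_ev, vsub_eq_sub, vadd_eq_add, Pi.add_apply, Pi.smul_apply, Pi.sub_apply,
      smul_eq_mul] at h1 h2 h3 ⊢
    linear_combination c * h1 - c * h2 + h3

lemma gen_mem_sub (a : Fin 5 → ℝ) (y : E 4) : y ∈ gen_sub a ↔ gen_ev a y = 0 := Iff.rfl

/-- at most four points lie in the zero set of a nonzero affine function -/
lemma gen_exists (P : Finset (E 4)) (hP : P.card ≤ 4) :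
    ∃ a : Fin 5 → ℝ, a ≠ 0 ∧ ∀ y ∈ P, gen_ev a y = 0 := by
  let L : (Fin 5 → ℝ) →ₗ[ℝ] ({x // x ∈ P} → ℝ) :=
    { toFun := fun a p => gen_ev a p
      map_add' := by
        intro a b; ext p; simp only [gen_ev, Pi.add_apply]; ring
      map_smul' := by
        intro c a; ext p; simp only [gen_ev, Pi.smul_apply, smul_eq_mul, RingHom.id_apply]; ring }
  have hlt : Module.finrank ℝ ({x // x ∈ P} → ℝ) < Module.finrank ℝ (Fin 5 → ℝ) := by
    rw [Module.finrank_fintype_fun_eq_card, Module.finrank_fintype_fun_eq_card]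
    simp only [Fintype.card_coe, Fintype.card_fin]
    omega
  have hker : LinearMap.ker L ≠ ⊥ := LinearMap.ker_ne_bot_of_finrank_lt hlt
  obtain ⟨a, ha, ha0⟩ := Submodule.exists_mem_ne_zero_of_ne_bot hker
  refine ⟨a, ha0, fun y hy => ?_⟩
  have := congrFun (LinearMap.mem_ker.1 ha) ⟨y, hy⟩
  exact this

open Polynomial in
/-- the polynomial of the cosine -/
lemma gen_poly (p0 p1 p2 q0 q1 : ℝ) (h : ∀ x : ℝ, 1 < x →
      (p0 + p1 * x + p2 * x ^ 3) ^ 2 - (1 - x ^ 2) * (q0 + q1 * x ^ 2) ^ 2 = 0) :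
    p0 = 0 ∧ p1 = 0 ∧ p2 = 0 ∧ q0 = 0 ∧ q1 = 0 := by
  have key : ∀ x : ℝ, 1 < x → p0 + p1 * x + p2 * x ^ 3 = 0 ∧ q0 + q1 * x ^ 2 = 0 := by
    intro x hx
    have h1 := h x hx
    have h2 : 0 ≤ (p0 + p1 * x + p2 * x ^ 3) ^ 2 := sq_nonneg _
    have h3 : 0 ≤ (q0 + q1 * x ^ 2) ^ 2 := sq_nonneg _
    have h4 : 0 < x ^ 2 - 1 := by nlinarith
    have h5 : (p0 + p1 * x + p2 * x ^ 3) ^ 2 + (x ^ 2 - 1) * (q0 + q1 * x ^ 2) ^ 2 = 0 := by
      linarith
    have h6 : 0 ≤ (x ^ 2 - 1) * (q0 + q1 * x ^ 2) ^ 2 := mul_nonneg h4.le h3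
    have h7 : (p0 + p1 * x + p2 * x ^ 3) ^ 2 = 0 := by linarith
    have h8 : (x ^ 2 - 1) * (q0 + q1 * x ^ 2) ^ 2 = 0 := by linarith
    refine ⟨by simpa using h7, ?_⟩
    rcases mul_eq_zero.1 h8 with h9 | h9
    · linarith
    · simpa using h9
  have a2 := key 2 (by norm_num)
  have a3 := key 3 (by norm_num)
  have a4 := key 4 (by norm_num)
  refine ⟨?_, ?_, ?_, ?_, ?_⟩ <;> linarith [a2.1, a2.2, a3.1, a3.2, a4.1, a4.2]

/-- a nonzero affine function has finitely many zeros on the arc -/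
lemma gen_fin (a : Fin 5 → ℝ) (ha : a ≠ 0) :
    {t : ℝ | (0 < t ∧ t < 3) ∧ gen_ev a (φ t) = 0}.Finite := by
  -- the polynomial
  let R : Polynomial ℝ := (Polynomial.C (a 4) + Polynomial.C (a 0 - 3 * a 2) * Polynomial.X +
      Polynomial.C (4 * a 2) * Polynomial.X ^ 3) ^ 2 -
    (1 - Polynomial.X ^ 2) * (Polynomial.C (a 1 - a 3) + Polynomial.C (4 * a 3) * Polynomial.X ^ 2) ^ 2
  have hev : ∀ x : ℝ, R.eval x = (a 4 + (a 0 - 3 * a 2) * x + (4 * a 2) * x ^ 3) ^ 2 -
      (1 - x ^ 2) * ((a 1 - a 3) + (4 * a 3) * x ^ 2) ^ 2 := by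
    intro x; simp [R]
  have hR : R ≠ 0 := by
    intro h0
    have h1 := gen_poly (a 4) (a 0 - 3 * a 2) (4 * a 2) (a 1 - a 3) (4 * a 3) (by
      intro x _
      rw [← hev x, h0, Polynomial.eval_zero])
    obtain ⟨e1, e2, e3, e4, e5⟩ := h1
    apply ha
    have f3 : a 3 = 0 := by linarith
    have f2 : a 2 = 0 := by linarith
    have f1 : a 1 = 0 := by linarith
    have f0 : a 0 = 0 := by linarith
    funext i
    fin_cases i
    · exact f0
    · exact f1
    · exact f2
    · exact f3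
    · exact e1
  have hfin : {x : ℝ | x ∈ R.roots.toFinset}.Finite := Finset.finite_toSet _
  refine Set.Finite.of_finite_image (f := Real.cos) (hfin.subset ?_) ?_
  · rintro _ ⟨t, ⟨⟨ht0, ht3⟩, h⟩, rfl⟩
    simp only [Set.mem_ofPred_eq, Multiset.mem_toFinset]
    rw [Polynomial.mem_roots hR, Polynomial.IsRoot.def, hev]
    have h' : a 4 + a 0 * Real.cos t + a 1 * Real.sin t + a 2 * Real.cos (3 * t) +
        a 3 * Real.sin (3 * t) = 0 := by
      simpa [gen_ev, φ] using h
    rw [Real.cos_three_mul, Real.sin_three_mul] at h'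
    have hs : Real.sin t ^ 2 = 1 - Real.cos t ^ 2 := Real.sin_sq t
    have h2 : a 4 + (a 0 - 3 * a 2) * Real.cos t + (4 * a 2) * Real.cos t ^ 3 =
        - (Real.sin t * ((a 1 - a 3) + (4 * a 3) * Real.cos t ^ 2)) := by
      have : Real.sin t ^ 3 = Real.sin t * (1 - Real.cos t ^ 2) := by rw [← hs]; ring
      rw [this] at h'
      linear_combination h'
    rw [h2, ← hs]
    ring
  · intro t ht t' ht' h
    have hpi := Real.pi_gt_three
    exact Real.injOn_cos ⟨ht.1.1.le, by linarith [ht.1.2]⟩ ⟨ht'.1.1.le, by linarith [ht'.1.2]⟩ h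

/-- finitely many bad parameters -/
lemma gen_bad (P : Finset (E 4)) (hP : P.card ≤ 4) :
    {t : ℝ | (0 < t ∧ t < 3) ∧ (φ t ∈ affineSpan ℝ (P : Set (E 4)) ∨
      -φ t ∈ affineSpan ℝ (P : Set (E 4)))}.Finite := by
  obtain ⟨a, ha, haP⟩ := gen_exists P hP
  have hle : affineSpan ℝ (P : Set (E 4)) ≤ gen_sub a := by
    rw [affineSpan_le]
    intro y hy
    exact haP y hy
  let b : Fin 5 → ℝ := ![-a 0, -a 1, -a 2, -a 3, a 4]
  have hb : b ≠ 0 := by
    intro h0
    apply ha
    have e0 := congrFun h0 0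
    have e1 := congrFun h0 1
    have e2 := congrFun h0 2
    have e3 := congrFun h0 3
    have e4 := congrFun h0 4
    simp [b] at e0 e1 e2 e3 e4
    funext i
    fin_cases i
    · exact e0
    · exact e1
    · exact e2
    · exact e3
    · exact e4
  refine ((gen_fin a ha).union (gen_fin b hb)).subset ?_
  rintro t ⟨ht, h | h⟩
  · exact Or.inl ⟨ht, hle h⟩
  · refine Or.inr ⟨ht, ?_⟩
    have h1 : gen_ev a (-φ t) = 0 := hle h
    have h2 : gen_ev b (φ t) = gen_ev a (-φ t) := by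
      simp [gen_ev, b]
    rw [h2, h1]

open Classical in
/-- one more point -/
lemma gen_insert (T : Finset ℝ) (hT : GenPos T) (u v : ℝ) (hu : 0 ≤ u) (huv : u < v) (hv : v ≤ 3) :
    ∃ t : ℝ, u < t ∧ t < v ∧ t ∉ T ∧ GenPos (insert t T) := by
  let B : Set ℝ := (T : Set ℝ) ∪ ⋃ P ∈ {P : Finset (E 4) | P ∈ (VT T).powerset ∧ P.card ≤ 4},
    {t : ℝ | (0 < t ∧ t < 3) ∧ (φ t ∈ affineSpan ℝ (P : Set (E 4)) ∨
      -φ t ∈ affineSpan ℝ (P : Set (E 4)))}
  have hB : B.Finite := by
    refine (Finset.finite_toSet T).union (Set.Finite.biUnion ?_ ?_)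
    · exact ((Finset.finite_toSet (VT T).powerset)).subset fun P hP => hP.1
    · intro P hP
      exact gen_bad P hP.2
  obtain ⟨t, ht, htB⟩ := ((Set.Ioo_infinite huv).sdiff hB).nonempty
  have htT : t ∉ T := fun h => htB (Or.inl h)
  refine ⟨t, ht.1, ht.2, htT, ?_⟩
  intro S hS hcard σ hσ
  by_cases htS : t ∈ S
  · have hE : S.erase t ⊆ T := by
      intro x hx
      rw [Finset.mem_erase] at hx
      rcases Finset.mem_insert.1 (hS hx.2) with h | h
      · exact absurd h hx.1
      · exact h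
    have hEc : (S.erase t).card ≤ 4 := by
      rw [Finset.card_erase_of_mem htS]; omega
    have hind := hT (S.erase t) hE (by omega) σ hσ
    refine AffineIndependent.affineIndependent_of_notMem_span (i := ⟨t, htS⟩) ?_ ?_
    · let e : {y : {x // x ∈ S} // y ≠ ⟨t, htS⟩} ↪ {x // x ∈ S.erase t} :=
        { toFun := fun y => ⟨y.1.1, Finset.mem_erase.2 ⟨fun h => y.2 (Subtype.ext h), y.1.2⟩⟩
          inj' := by
            intro y z h
            apply Subtype.ext
            apply Subtype.ext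
            simpa using h }
      exact hind.comp_embedding e
    · intro hmem
      apply htB
      refine Or.inr ?_
      let P : Finset (E 4) := (S.erase t).image fun s => σ s • φ s
      have hP : P ∈ {P : Finset (E 4) | P ∈ (VT T).powerset ∧ P.card ≤ 4} := by
        refine ⟨?_, le_trans Finset.card_image_le hEc⟩
        rw [Finset.mem_powerset]
        intro y hy
        obtain ⟨s, hs, rfl⟩ := Finset.mem_image.1 hy
        unfold VT
        rcases hσ s with h | h
        · apply Finset.mem_union_left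
          rw [h, one_smul]
          exact Finset.mem_image_of_mem _ (hE hs)
        · apply Finset.mem_union_right
          rw [h, neg_one_smul]
          exact Finset.mem_image_of_mem (fun t => -φ t) (hE hs)
      rw [Set.mem_iUnion₂]
      refine ⟨P, hP, ⟨by linarith [ht.1], by linarith [ht.2]⟩, ?_⟩
      have hset : (fun x : {x // x ∈ S} => σ x • φ x) '' {x | x ≠ ⟨t, htS⟩} ⊆ (P : Set (E 4)) := by
        rintro _ ⟨x, hx, rfl⟩
        refine Finset.mem_coe.2 (Finset.mem_image.2 ⟨x.1, Finset.mem_erase.2 ⟨?_, x.2⟩, rfl⟩)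
        intro h
        exact hx (Subtype.ext h)
      have hm2 : σ t • φ t ∈ affineSpan ℝ (P : Set (E 4)) := affineSpan_mono ℝ hset hmem
      rcases hσ t with h | h
      · left; rwa [h, one_smul] at hm2
      · right; rwa [h, neg_one_smul] at hm2
  · refine hT S ?_ hcard σ hσ
    intro x hx
    rcases Finset.mem_insert.1 (hS hx) with h | h
    · exact absurd (h ▸ hx) htS
    · exact h

lemma gen_empty : GenPos ∅ := by
  intro S hS _ σ _
  have : S = ∅ := Finset.subset_empty.1 hS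
  subst this
  exact affineIndependent_of_subsingleton ℝ _

open Classical in
lemma gen_first (N : ℕ) : ∃ T : Finset ℝ, T.card = N ∧ (∀ t ∈ T, 0 < t ∧ t < 1 / 10) ∧
    GenPos T := by
  induction N with
  | zero => exact ⟨∅, rfl, by simp, gen_empty⟩
  | succ n ih =>
    obtain ⟨T, h1, h2, h3⟩ := ih
    obtain ⟨t, ht1, ht2, ht3, ht4⟩ := gen_insert T h3 0 (1 / 10) le_rfl (by norm_num) (by norm_num)
    refine ⟨insert t T, ?_, ?_, ?_⟩
    · rw [Finset.card_insert_of_notMem ht3, h1]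
    · intro s hs
      rcases Finset.mem_insert.1 hs with rfl | hs
      · exact ⟨ht1, ht2⟩
      · exact h2 s hs
    · convert ht4

open Classical in
theorem gen : Stmt_Gen := by
  intro N₁ N₂
  obtain ⟨T₁, hc1, ha1, hg1⟩ := gen_first N₁
  have hpi : Real.pi < 3.15 := Real.pi_lt_d2
  have hpi3 := Real.pi_gt_three
  have key : ∀ N : ℕ, ∃ T₂ : Finset ℝ, T₂.card = N ∧
      (∀ t ∈ T₂, Real.pi / 2 < t ∧ t < Real.pi / 2 + 1 / 10) ∧ GenPos (T₁ ∪ T₂) := by
    intro N
    induction N with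
    | zero => exact ⟨∅, rfl, by simp, by simpa using hg1⟩
    | succ n ih =>
      obtain ⟨T, h1, h2, h3⟩ := ih
      obtain ⟨t, ht1, ht2, ht3, ht4⟩ := gen_insert (T₁ ∪ T) (by convert h3) (Real.pi / 2)
        (Real.pi / 2 + 1 / 10) (by linarith) (by linarith) (by norm_num at hpi ⊢; linarith)
      have htT : t ∉ T := fun h => ht3 (Finset.mem_union_right _ h)
      refine ⟨insert t T, ?_, ?_, ?_⟩
      · rw [Finset.card_insert_of_notMem htT, h1]
      · intro s hs
        rcases Finset.mem_insert.1 hs with rfl | hs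
        · exact ⟨ht1, ht2⟩
        · exact h2 s hs
      · have e : insert t (T₁ ∪ T) = T₁ ∪ insert t T := by
          rw [Finset.union_insert]
        rw [e] at ht4
        convert ht4
  obtain ⟨T₂, hc2, ha2, hg2⟩ := key N₂
  exact ⟨T₁, T₂, hc1, hc2, ha1, ha2, by convert hg2⟩

end Pool.CS4
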