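import Pool.Agent.CS4.Gap
import Pool.Agent.CS4.G2

/-! `g_2` of a centrally symmetric simplicial `d`-polytope. -/

open Finset

noncomputable section

namespace Pool.CS4

theorem gg2d : Stmt_g2d := by
  intro d V hd h hV
  have h0 := g2_fv0 V hV
  have h1 := g2_fv1 V hV h.ext
  have hch : ((d + 1).choose 2 : ℤ) = d.choose 2 + d := by
    have := Nat.choose_succ_succ d 1
    rw [Nat.choose_one_right] at this
    have h : (d + 1).choose 2 = d + d.choose 2 := this
    rw [h]
    push_cast
    ring
  obtain ⟨e, rfl⟩ : ∃ e, d = e + 1 := ⟨d - 1, by omega⟩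
  unfold gv hv
  simp only [Finset.sum_range_succ, Finset.sum_range_zero]
  rw [h0, h1, hch]
  simp only [Nat.sub_zero, Nat.sub_self, Nat.choose_zero_right, pow_zero, Nat.add_sub_cancel]
  have e3 : (2 - 1 : ℕ) = 1 := rfl
  rw [e3]
  simp only [Nat.choose_one_right]
  push_cast
  ring

end Pool.CS4
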