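import Pool.Agent.CS4.Stmts

/-!
Module Low: the lower bound for the number of edges (arithmetic).
-/

open Finset Matrix

noncomputable section

namespace Pool.CS4

lemma low_arith (a b n : ℕ) (h1 : a + b = n) (h2 : a ≤ b) (h3 : b ≤ a + 1) (ha : 1 ≤ a)
    (hb : 1 ≤ b) : 3 / 2 * (n : ℝ) ^ 2 - 2 * n ≤
      ((a * (a - 1) + b * (b - 1) + 4 * (a * b) : ℕ) : ℝ) := by
  obtain ⟨a', rfl⟩ : ∃ a', a = a' + 1 := ⟨a - 1, by omega⟩
  obtain ⟨b', rfl⟩ : ∃ b', b = b' + 1 := ⟨b - 1, by omega⟩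
  subst h1
  have hb' : b' = a' ∨ b' = a' + 1 := by omega
  rcases hb' with rfl | rfl
  · simp only [Nat.add_sub_cancel]
    push_cast
    nlinarith [Nat.cast_nonneg (α := ℝ) b']
  · simp only [Nat.add_sub_cancel]
    push_cast
    nlinarith [Nat.cast_nonneg (α := ℝ) a']

theorem low (hg : Stmt_Gen) (hs : Stmt_Simp) (hc : Stmt_Cnt) : Stmt_Low := by
  intro N hN
  obtain ⟨T₁, T₂, c₁, c₂, r₁, r₂, hG⟩ := hg (N / 2) (N - N / 2)
  have hpi := Real.pi_gt_three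
  have hpi2 := Real.pi_lt_d2
  have hdisj : Disjoint T₁ T₂ := by
    rw [Finset.disjoint_left]
    intro t h1 h2
    have := (r₁ t h1).2
    have := (r₂ t h2).1
    linarith
  have hcard : (T₁ ∪ T₂).card = N := by
    rw [Finset.card_union_of_disjoint hdisj, c₁, c₂]
    omega
  have h5 : 5 ≤ (T₁ ∪ T₂).card := by rw [hcard]; exact hN
  have hr : ∀ t ∈ T₁ ∪ T₂, 0 < t ∧ t < 3 := by
    intro t ht
    rcases Finset.mem_union.1 ht with h | h
    · have := r₁ t h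
      exact ⟨this.1, by linarith [this.2]⟩
    · have := r₂ t h
      exact ⟨by linarith [this.1], by linarith [this.2]⟩
  obtain ⟨hS, hV⟩ := hs (T₁ ∪ T₂) hr h5 hG
  refine ⟨VT (T₁ ∪ T₂), hS, by rw [hV, hcard], ?_⟩
  have hle := hc T₁ T₂ h5 r₁ r₂
  have hle' : ((T₁.card * (T₁.card - 1) + T₂.card * (T₂.card - 1) +
      4 * (T₁.card * T₂.card) : ℕ) : ℝ) ≤ (fv (VT (T₁ ∪ T₂)) 2 : ℝ) := by
    exact_mod_cast hle
  refine le_trans ?_ hle'
  exact low_arith T₁.card T₂.card N (by rw [c₁, c₂]; omega) (by rw [c₁, c₂]; omega)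
    (by rw [c₁, c₂]; omega) (by rw [c₁]; omega) (by rw [c₂]; omega)

end Pool.CS4
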