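import Pool.Agent.CS4.Stmts

/-!
Pigeonhole for three classes (paper, section 2).
-/

open Finset

noncomputable section

namespace Pool.CS4

open Classical in
theorem pig_one {α : Type} (χ : α → α → α → α → Prop) (n : ℕ) (P A : Finset α) (hP : P.card ≤ n)
    (hA : 2 ^ (n ^ 3) * 2 ^ (n ^ 3) < A.card) :
    ∃ p ∈ A, ∃ q ∈ A, p ≠ q ∧ ∀ x ∈ P, ∀ y ∈ P, ∀ z ∈ P,
      (χ p x y z ↔ χ q x y z) ∧ (χ x p y z ↔ χ x q y z) := by
  set T : Finset (α × α × α) := P ×ˢ P ×ˢ P with hT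
  let c : α → Finset (α × α × α) × Finset (α × α × α) := fun a =>
    (T.filter fun z => χ a z.1 z.2.1 z.2.2, T.filter fun z => χ z.1 a z.2.1 z.2.2)
  have hc : ∀ a ∈ A, c a ∈ T.powerset ×ˢ T.powerset := by
    intro a _
    rw [mem_product]
    exact ⟨mem_powerset.2 (filter_subset _ _), mem_powerset.2 (filter_subset _ _)⟩
  have hTc : T.card ≤ n ^ 3 := by
    rw [hT, card_product, card_product]
    calc P.card * (P.card * P.card) ≤ n * (n * n) :=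
          Nat.mul_le_mul hP (Nat.mul_le_mul hP hP)
      _ = n ^ 3 := by ring
  have hcard : (T.powerset ×ˢ T.powerset).card < A.card := by
    rw [card_product, card_powerset]
    refine lt_of_le_of_lt ?_ hA
    exact Nat.mul_le_mul (Nat.pow_le_pow_right (by norm_num) hTc)
      (Nat.pow_le_pow_right (by norm_num) hTc)
  obtain ⟨p, hp, q, hq, hpq, he⟩ := exists_ne_map_eq_of_card_lt_of_maps_to hcard hc
  refine ⟨p, hp, q, hq, hpq, ?_⟩
  intro x hx y hy z hz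
  have hm : (x, y, z) ∈ T := by
    rw [hT]
    exact mem_product.2 ⟨hx, mem_product.2 ⟨hy, hz⟩⟩
  have h1 : (T.filter fun z => χ p z.1 z.2.1 z.2.2) = T.filter fun z => χ q z.1 z.2.1 z.2.2 :=
    congrArg Prod.fst he
  have h2 : (T.filter fun z => χ z.1 p z.2.1 z.2.2) = T.filter fun z => χ z.1 q z.2.1 z.2.2 :=
    congrArg Prod.snd he
  have g1 := Finset.ext_iff.1 h1 (x, y, z)
  have g2 := Finset.ext_iff.1 h2 (x, y, z)
  simp only [mem_filter, hm, true_and] at g1 g2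
  exact ⟨g1, g2⟩

theorem pig_end {α : Type} (χ : α → α → α → α → Prop) (p q : Fin 3 → α) (S : Fin 3 → Finset α)
    (hS : ∀ i j, i ≠ j → p j ∈ S i ∧ q j ∈ S i)
    (hχ : ∀ i, ∀ x ∈ S i, ∀ y ∈ S i, ∀ z ∈ S i,
      (χ (p i) x y z ↔ χ (q i) x y z) ∧ (χ x (p i) y z ↔ χ x (q i) y z)) :
    ∀ i j k, i ≠ j → j ≠ k → i ≠ k → ∀ u ∈ ({p i, q i} : Set α), ∀ u' ∈ ({p i, q i} : Set α),
      ∀ w ∈ ({p j, q j} : Set α), ∀ w' ∈ ({p j, q j} : Set α),
        (χ u w (p k) (q k) ↔ χ u' w' (p k) (q k)) := by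
  intro i j k hij hjk hik
  have key : ∀ u ∈ ({p i, q i} : Set α), ∀ w ∈ ({p j, q j} : Set α),
      (χ u w (p k) (q k) ↔ χ (p i) (p j) (p k) (q k)) := by
    intro u hu w hw
    have hwS : w ∈ S i := by
      rcases hw with h | h
      · rw [h]
        exact (hS i j hij).1
      · rw [h]
        exact (hS i j hij).2
    have e1 : χ u w (p k) (q k) ↔ χ (p i) w (p k) (q k) := by
      rcases hu with h | h
      · rw [h]
      · rw [h]
        exact (hχ i w hwS _ (hS i k hik).1 _ (hS i k hik).2).1.symm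
    have e2 : χ (p i) w (p k) (q k) ↔ χ (p i) (p j) (p k) (q k) := by
      rcases hw with h | h
      · rw [h]
      · rw [h]
        exact (hχ j (p i) (hS j i hij.symm).1 _ (hS j k hjk).1 _ (hS j k hjk).2).2.symm
    exact e1.trans e2
  intro u hu u' hu' w hw w' hw'
  exact (key u hu w hw).trans (key u' hu' w' hw').symm

open Classical in
/-- pigeonhole -/
theorem pig : Stmt_Pig := by
  obtain ⟨m₂, hm₂⟩ : ∃ m : ℕ, 2 ^ (4 ^ 3) * 2 ^ (4 ^ 3) < m := ⟨_, Nat.lt_succ_self _⟩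
  obtain ⟨m₁, hm₁⟩ : ∃ m : ℕ, 2 ^ ((m₂ + 2) ^ 3) * 2 ^ ((m₂ + 2) ^ 3) < m :=
    ⟨_, Nat.lt_succ_self _⟩
  obtain ⟨m₀, hm₀⟩ : ∃ m : ℕ, 2 ^ ((m₁ + m₂) ^ 3) * 2 ^ ((m₁ + m₂) ^ 3) < m :=
    ⟨_, Nat.lt_succ_self _⟩
  refine ⟨m₀ + m₁ + m₂, ?_⟩
  intro α A χ hA
  obtain ⟨B₂, hB₂, hc₂⟩ := exists_subset_card_eq (s := A 2) (n := m₂) (by have := hA 2; omega)
  obtain ⟨B₁, hB₁, hc₁⟩ := exists_subset_card_eq (s := A 1) (n := m₁) (by have := hA 1; omega)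
  obtain ⟨p₀, hp₀, q₀, hq₀, hne₀, h₀⟩ := pig_one χ (m₁ + m₂) (B₁ ∪ B₂) (A 0)
    ((card_union_le _ _).trans (by rw [hc₁, hc₂])) (lt_of_lt_of_le hm₀ (by
      have := hA 0
      omega))
  obtain ⟨p₁, hp₁, q₁, hq₁, hne₁, h₁⟩ := pig_one χ (m₂ + 2) (B₂ ∪ {p₀, q₀}) B₁
    ((card_union_le _ _).trans (by
      rw [hc₂]
      have := card_le_two (a := p₀) (b := q₀)
      omega)) (by
      rw [hc₁]
      exact hm₁)
  obtain ⟨p₂, hp₂, q₂, hq₂, hne₂, h₂⟩ := pig_one χ 4 ({p₀, q₀} ∪ {p₁, q₁}) B₂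
    ((card_union_le _ _).trans (by
      have := card_le_two (a := p₀) (b := q₀)
      have := card_le_two (a := p₁) (b := q₁)
      omega)) (by
      rw [hc₂]
      exact hm₂)
  refine ⟨![p₀, p₁, p₂], ![q₀, q₁, q₂], ?_, pig_end χ _ _
    ![B₁ ∪ B₂, B₂ ∪ {p₀, q₀}, {p₀, q₀} ∪ {p₁, q₁}] ?_ ?_⟩
  · intro i
    fin_cases i
    · exact ⟨hp₀, hq₀, hne₀⟩
    · exact ⟨hB₁ hp₁, hB₁ hq₁, hne₁⟩
    · exact ⟨hB₂ hp₂, hB₂ hq₂, hne₂⟩
  · intro i j hij
    fin_cases i <;> fin_cases j <;> first | exact absurd rfl hij | skip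
    · exact ⟨mem_union_left _ hp₁, mem_union_left _ hq₁⟩
    · exact ⟨mem_union_right _ hp₂, mem_union_right _ hq₂⟩
    · exact ⟨mem_union_right _ (by simp), mem_union_right _ (by simp)⟩
    · exact ⟨mem_union_left _ hp₂, mem_union_left _ hq₂⟩
    · exact ⟨mem_union_left _ (by simp), mem_union_left _ (by simp)⟩
    · exact ⟨mem_union_right _ (by simp), mem_union_right _ (by simp)⟩
  · intro i
    fin_cases i
    · exact h₀
    · exact h₁
    · exact h₂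

end Pool.CS4
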