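import Pool.Agent.CS4.Stmts

open Finset Matrix

noncomputable section

namespace Pool.CS4

/-! Module Simp of the MP_54ed1a_co project: the polytope of the construction is simplicial. -/

theorem simp_mem_VT (T : Finset ℝ) (v : E 4) :
    v ∈ VT T ↔ ∃ t ∈ T, v = φ t ∨ v = -φ t := by
  unfold VT
  simp only [Finset.mem_union, Finset.mem_image]
  constructor
  · rintro (⟨t, ht, rfl⟩ | ⟨t, ht, rfl⟩)
    · exact ⟨t, ht, Or.inl rfl⟩
    · exact ⟨t, ht, Or.inr rfl⟩
  · rintro ⟨t, ht, rfl | rfl⟩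
    · exact Or.inl ⟨t, ht, rfl⟩
    · exact Or.inr ⟨t, ht, rfl⟩

theorem simp_phi_pi (t : ℝ) : φ (t + Real.pi) = -φ t := by
  have h3 : Real.cos (3 * (t + Real.pi)) = -Real.cos (3 * t) := by
    have : 3 * (t + Real.pi) = (3 * t + Real.pi) + 2 * Real.pi := by ring
    rw [this, Real.cos_add_two_pi, Real.cos_add_pi]
  have h4 : Real.sin (3 * (t + Real.pi)) = -Real.sin (3 * t) := by
    have : 3 * (t + Real.pi) = (3 * t + Real.pi) + 2 * Real.pi := by ring
    rw [this, Real.sin_add_two_pi, Real.sin_add_pi]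
  unfold φ
  ext i
  fin_cases i
  · simp [Real.cos_add_pi]
  · simp [Real.sin_add_pi]
  · simpa using h3
  · simpa using h4

theorem simp_phi_sin (t : ℝ) : φ t 1 = Real.sin t := rfl

theorem simp_phi_cos (t : ℝ) : φ t 0 = Real.cos t := rfl

theorem simp_sin_pos {t : ℝ} (h : 0 < t ∧ t < 3) : 0 < Real.sin t :=
  Real.sin_pos_of_pos_of_lt_pi h.1 (h.2.trans Real.pi_gt_three)

theorem simp_inj {s t : ℝ} (hs : 0 < s ∧ s < 3) (ht : 0 < t ∧ t < 3) (h : φ s = φ t) : s = t := by
  have h0 : Real.cos s = Real.cos t := congrFun h 0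
  exact Real.injOn_cos ⟨hs.1.le, (hs.2.trans Real.pi_gt_three).le⟩
    ⟨ht.1.le, (ht.2.trans Real.pi_gt_three).le⟩ h0

theorem simp_ne_neg {s t : ℝ} (hs : 0 < s ∧ s < 3) (ht : 0 < t ∧ t < 3) : φ s ≠ -φ t := by
  intro h
  have h1 : Real.sin s = -Real.sin t := congrFun h 1
  have := simp_sin_pos hs
  have := simp_sin_pos ht
  linarith

theorem simp_card (T : Finset ℝ) (hT : ∀ t ∈ T, 0 < t ∧ t < 3) : (VT T).card = 2 * T.card := by
  classical
  unfold VT
  rw [Finset.card_union_of_disjoint, Finset.card_image_of_injOn, Finset.card_image_of_injOn]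
  · ring
  · intro s hs t ht h
    exact simp_inj (hT s hs) (hT t ht) (neg_injective h)
  · intro s hs t ht h
    exact simp_inj (hT s hs) (hT t ht) h
  · rw [Finset.disjoint_left]
    intro v hv hv'
    obtain ⟨s, hs, rfl⟩ := Finset.mem_image.1 hv
    obtain ⟨t, ht, h⟩ := Finset.mem_image.1 hv'
    exact simp_ne_neg (hT s hs) (hT t ht) h.symm

/-- a strictly separated point is extreme -/
theorem simp_extreme (V : Finset (E 4)) (v : E 4) (hv : v ∈ V) (l : E 4 →ₗ[ℝ] ℝ) (h1 : l v = 1)
    (h2 : ∀ w ∈ V, w ≠ v → l w < 1) :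
    v ∈ (convexHull ℝ (V : Set (E 4))).extremePoints ℝ := by
  have key : ∀ y ∈ convexHull ℝ (V : Set (E 4)), l y ≤ 1 ∧ (1 ≤ l y → y = v) := by
    intro y hy
    rcases Set.eq_empty_or_nonempty ((V : Set (E 4)) \ {v}) with he | hne
    · have hV : (V : Set (E 4)) ⊆ {v} := by
        rw [Set.sdiff_eq_empty] at he
        exact he
      have : y ∈ ({v} : Set (E 4)) := by
        have := convexHull_mono hV hy
        rwa [convexHull_singleton] at this
      rw [Set.mem_singleton_iff] at this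
      rw [this]
      exact ⟨h1.le, fun _ => rfl⟩
    · have hins : (V : Set (E 4)) = insert v ((V : Set (E 4)) \ {v}) := by
        rw [Set.insert_sdiff_singleton, Set.insert_eq_of_mem]
        exact hv
      rw [hins, convexHull_insert hne, mem_convexJoin] at hy
      obtain ⟨a, ha, b, hb, hy⟩ := hy
      rw [Set.mem_singleton_iff] at ha
      subst ha
      have hlb : l b < 1 := by
        have hsub : convexHull ℝ ((V : Set (E 4)) \ {a}) ⊆ {x | l x < 1} := by
          apply convexHull_min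
          · intro w hw
            exact h2 w hw.1 hw.2
          · exact convex_halfSpace_lt l.isLinear 1
        exact hsub hb
      obtain ⟨p, q, hp, hq, hpq, rfl⟩ := hy
      have hl : l (p • a + q • b) = p + q * l b := by
        rw [map_add, map_smul, map_smul, h1]
        simp
      rw [hl]
      refine ⟨by nlinarith, fun h => ?_⟩
      have hq0 : q = 0 := by
        by_contra hne
        have hqpos : 0 < q := lt_of_le_of_ne hq (Ne.symm hne)
        nlinarith
      have hp1 : p = 1 := by linarith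
      rw [hq0, hp1]
      simp
  rw [mem_extremePoints]
  refine ⟨subset_convexHull ℝ _ hv, ?_⟩
  intro x₁ hx₁ x₂ hx₂ hseg
  obtain ⟨p, q, hp, hq, hpq, hx⟩ := hseg
  have hl : p * l x₁ + q * l x₂ = 1 := by
    have := congrArg l hx
    rw [map_add, map_smul, map_smul, h1] at this
    simpa using this
  obtain ⟨a1, b1⟩ := key x₁ hx₁
  obtain ⟨a2, b2⟩ := key x₂ hx₂
  constructor
  · apply b1
    by_contra hlt
    push Not at hlt
    nlinarith
  · apply b2
    by_contra hlt
    push Not at hlt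
    nlinarith

/-- five affinely independent points span -/
theorem simp_span {ι : Type} [Fintype ι] (p : ι → E 4) (hp : AffineIndependent ℝ p)
    (hc : Fintype.card ι = 5) : affineSpan ℝ (Set.range p) = ⊤ := by
  rw [hp.affineSpan_eq_top_iff_card_eq_finrank_add_one]
  simp [hc]

theorem simp_full (T : Finset ℝ) (h5 : 5 ≤ T.card) (hG : GenPos T) :
    (interior (convexHull ℝ (VT T : Set (E 4)))).Nonempty := by
  rw [interior_convexHull_nonempty_iff_affineSpan_eq_top]
  obtain ⟨S, hS, hc⟩ := Finset.exists_subset_card_eq h5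
  have hA := hG S hS hc.le (fun _ => 1) (fun _ => Or.inl rfl)
  have hspan := simp_span _ hA (by simp [hc])
  rw [eq_top_iff, ← hspan]
  apply affineSpan_mono
  rintro _ ⟨t, rfl⟩
  rw [Finset.mem_coe, simp_mem_VT]
  refine ⟨t.1, hS t.2, Or.inl ?_⟩
  simp

theorem simp_face (T : Finset ℝ) (hG : GenPos T)
    (F : Finset (E 4)) (hF : IsFace (VT T) F) (hne : F ≠ VT T) :
    AffineIndependent ℝ (fun v : {x // x ∈ F} => (v : E 4)) := by
  classical
  obtain ⟨hsub, l, c, hc1, hc2⟩ := hF
  have hsymm : ∀ v ∈ VT T, -v ∈ VT T := by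
    intro v hv
    rw [simp_mem_VT] at hv ⊢
    obtain ⟨t, ht, rfl | rfl⟩ := hv
    · exact ⟨t, ht, Or.inr rfl⟩
    · exact ⟨t, ht, Or.inl (neg_neg _)⟩
  have hle : ∀ v ∈ VT T, l v ≤ c := by
    intro v hv
    by_cases h : v ∈ F
    · exact (hc1 v h).le
    · exact (hc2 v hv h).le
  have hcpos : 0 < c := by
    by_contra hneg
    push Not at hneg
    apply hne
    apply Finset.Subset.antisymm hsub
    intro v hv
    by_contra hvF
    have e1 := hc2 v hv hvF
    have e2 := hle _ (hsymm v hv)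
    rw [map_neg] at e2
    linarith
  have hanti : ∀ v ∈ F, -v ∉ F := by
    intro v hv hv'
    have e1 := hc1 v hv
    have e2 := hc1 _ hv'
    rw [map_neg] at e2
    linarith
  let σ : ℝ → ℝ := fun t => if φ t ∈ F then 1 else -1
  have hσ : ∀ t, σ t = 1 ∨ σ t = -1 := by
    intro t
    by_cases h : φ t ∈ F
    · left
      exact if_pos h
    · right
      exact if_neg h
  let S : Finset ℝ := T.filter (fun t => σ t • φ t ∈ F)
  have hST : S ⊆ T := Finset.filter_subset _ _
  have hrep : ∀ v ∈ F, ∃ t ∈ S, σ t • φ t = v := by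
    intro v hv
    obtain ⟨t, ht, rfl | rfl⟩ := (simp_mem_VT T v).1 (hsub hv)
    · have hs : σ t = 1 := if_pos hv
      refine ⟨t, ?_, by rw [hs, one_smul]⟩
      rw [Finset.mem_filter]
      refine ⟨ht, ?_⟩
      rw [hs, one_smul]
      exact hv
    · have hn : φ t ∉ F := by
        intro h
        exact hanti _ h hv
      have hs : σ t = -1 := if_neg hn
      refine ⟨t, ?_, by rw [hs, neg_smul, one_smul]⟩
      rw [Finset.mem_filter]
      refine ⟨ht, ?_⟩
      rw [hs, neg_smul, one_smul]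
      exact hv
  have hcard : S.card ≤ 4 := by
    by_contra hgt
    push Not at hgt
    obtain ⟨S', hS', hc'⟩ := Finset.exists_subset_card_eq (Nat.succ_le_of_lt hgt)
    have hA := hG S' (hS'.trans hST) hc'.le σ hσ
    have hspan := simp_span _ hA (by simp [hc'])
    have hne' : S'.Nonempty := by
      rw [← Finset.card_pos, hc']
      norm_num
    obtain ⟨t0, ht0⟩ := hne'
    have hmem : ∀ t ∈ S', l (σ t • φ t) = c := fun t ht =>
      hc1 _ (Finset.mem_filter.1 (hS' ht)).2
    have hle2 : affineSpan ℝ (Set.range (fun t : {x // x ∈ S'} => σ t • φ t)) ≤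
        AffineSubspace.mk' (σ t0 • φ t0) (LinearMap.ker l) := by
      rw [affineSpan_le]
      rintro _ ⟨t, rfl⟩
      rw [SetLike.mem_coe, AffineSubspace.mem_mk']
      show σ t • φ t - σ t0 • φ t0 ∈ LinearMap.ker l
      rw [LinearMap.mem_ker, map_sub, hmem t.1 t.2, hmem t0 ht0, sub_self]
    rw [hspan] at hle2
    have h0 : (0 : E 4) ∈ AffineSubspace.mk' (σ t0 • φ t0) (LinearMap.ker l) :=
      hle2 (AffineSubspace.mem_top ℝ _ _)
    rw [AffineSubspace.mem_mk'] at h0
    have h1 : l ((0 : E 4) - σ t0 • φ t0) = 0 := h0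
    rw [map_sub, map_zero, hmem t0 ht0] at h1
    linarith
  have hA := hG S hST (by omega) σ hσ
  choose f hf1 hf2 using hrep
  let e : {x // x ∈ F} ↪ {x // x ∈ S} :=
    ⟨fun v => ⟨f v.1 v.2, hf1 v.1 v.2⟩, by
      intro v w hvw
      have h1 : f v.1 v.2 = f w.1 w.2 := congrArg Subtype.val hvw
      apply Subtype.ext
      rw [← hf2 v.1 v.2, ← hf2 w.1 w.2, h1]⟩
  have hB := hA.comp_embedding e
  have heq : ((fun t : {x // x ∈ S} => σ t • φ t) ∘ e) = fun v : {x // x ∈ F} => (v : E 4) := by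
    funext v
    exact hf2 v.1 v.2
  rw [heq] at hB
  exact hB

theorem simp_ (h : Stmt_Curve) : Stmt_Simp := by
  intro T hT h5 hG
  refine ⟨⟨?_, simp_full T h5 hG, ?_, simp_face T hG⟩, simp_card T hT⟩
  · apply Set.Subset.antisymm
    · exact extremePoints_convexHull_subset
    · intro v hv
      have hv' : v ∈ VT T := hv
      have hphi : ∀ w ∈ VT T, ∃ b, w = φ b := by
        intro w hw
        obtain ⟨t, ht, rfl | rfl⟩ := (simp_mem_VT T w).1 hw
        · exact ⟨t, rfl⟩
        · exact ⟨t + Real.pi, (simp_phi_pi t).symm⟩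
      obtain ⟨a, rfl⟩ := hphi v hv'
      obtain ⟨l, h1, -, h2⟩ := h a a (by simp; norm_num)
      apply simp_extreme (VT T) (φ a) hv' l h1
      intro w hw hne
      obtain ⟨b, rfl⟩ := hphi w hw
      exact h2 b hne hne
  · intro v hv
    rw [simp_mem_VT] at hv ⊢
    obtain ⟨t, ht, rfl | rfl⟩ := hv
    · exact ⟨t, ht, Or.inr rfl⟩
    · exact ⟨t, ht, Or.inl (neg_neg _)⟩

end Pool.CS4
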