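import Pool.Agent.CS4.Stmts

/-! Six vectors in three pairs (section 3 of the paper). -/

open Finset Matrix

noncomputable section

namespace Pool.CS4

/-- (a): a dependency of five vectors -/
lemma six_dep {W : Finset (E 4)} {u u' v v' w : E 4} (h : Dbl W u v)
    (hu' : u' ∈ W) (hv' : v' ∈ W) (hw : w ∈ W) (h1 : u' ≠ u) (h2 : u' ≠ v) (h3 : v' ≠ u)
    (h4 : v' ≠ v) (h5 : w ≠ u) (h6 : w ≠ v) {a a' b b' c : ℝ}
    (hs : a • u + a' • u' + b • v + b' • v' + c • w = 0) (hc : c ≠ 0 ∨ a' ≠ 0 ∨ b' ≠ 0) :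
    |a| + |b| < |a'| + |b'| + |c| := by
  have key : ∀ l : E 4 →ₗ[ℝ] ℝ, (∀ w ∈ W, w ≠ u → w ≠ v → |l w| < 1) →
      |a * l u + b * l v| < |a'| + |b'| + |c| := by
    intro l hl
    have e : a * l u + b * l v = -(a' * l u' + b' * l v' + c * l w) := by
      have := congrArg l hs
      simp only [map_add, map_smul, smul_eq_mul, map_zero] at this
      linarith
    rw [e, abs_neg]
    have i1 := hl u' hu' h1 h2
    have i2 := hl v' hv' h3 h4
    have i3 := hl w hw h5 h6
    have t := (abs_add_le (a' * l u' + b' * l v') (c * l w)).trans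
      (add_le_add_left (abs_add_le (a' * l u') (b' * l v')) _)
    rw [abs_mul, abs_mul, abs_mul] at t
    have j1 : |a'| * |l u'| ≤ |a'| := by nlinarith [abs_nonneg a']
    have j2 : |b'| * |l v'| ≤ |b'| := by nlinarith [abs_nonneg b']
    have j3 : |c| * |l w| ≤ |c| := by nlinarith [abs_nonneg c]
    rcases hc with hc | hc | hc
    · have : |c| * |l w| < |c| := by nlinarith [abs_pos.2 hc]
      linarith
    · have : |a'| * |l u'| < |a'| := by nlinarith [abs_pos.2 hc]
      linarith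
    · have : |b'| * |l v'| < |b'| := by nlinarith [abs_pos.2 hc]
      linarith
  obtain ⟨⟨l, hl1, hl2, hl⟩, l', hl1', hl2', hl'⟩ := h
  have k1 := key l hl
  have k2 := key l' hl'
  rw [hl1, hl2] at k1
  rw [hl1', hl2'] at k2
  rcases abs_cases a with ⟨ha, _⟩ | ⟨ha, _⟩ <;> rcases abs_cases b with ⟨hb, _⟩ | ⟨hb, _⟩ <;>
    rw [ha, hb]
  · have := le_abs_self (a * 1 + b * 1); linarith
  · have := le_abs_self (a * 1 + b * -1); linarith
  · have := neg_abs_le (a * 1 + b * -1); linarith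
  · have := neg_abs_le (a * 1 + b * 1); linarith

/-- (b): four vectors `u, u', v, v'` such that `(u, v)` and `(u', v')` are double are independent -/
lemma six_indep {W : Finset (E 4)} {u u' v v' : E 4} (h : Dbl W u v) (h' : Dbl W u' v')
    (hu : u ∈ W) (hv : v ∈ W) (hu' : u' ∈ W) (hv' : v' ∈ W) (h1 : u' ≠ u) (h2 : u' ≠ v)
    (h3 : v' ≠ u) (h4 : v' ≠ v) {a a' b b' : ℝ}
    (hs : a • u + a' • u' + b • v + b' • v' = 0) : a = 0 ∧ a' = 0 ∧ b = 0 ∧ b' = 0 := by
  by_cases hc : a' ≠ 0 ∨ b' ≠ 0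
  · have e1 := six_dep h hu' hv' hu' h1 h2 h3 h4 h1 h2 (a := a) (a' := a') (b := b) (b' := b')
      (c := 0) (by rw [zero_smul, add_zero]; exact hs) (Or.inr hc)
    rw [abs_zero, add_zero] at e1
    by_cases hc2 : a ≠ 0 ∨ b ≠ 0
    · have e2 := six_dep h' hu hv hu h1.symm h3.symm h2.symm h4.symm h1.symm h3.symm
        (a := a') (a' := a) (b := b') (b' := b) (c := 0)
        (by rw [zero_smul, add_zero, ← hs]; abel) (Or.inr hc2)
      rw [abs_zero, add_zero] at e2
      linarith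
    · push Not at hc2
      obtain ⟨rfl, rfl⟩ := hc2
      obtain ⟨⟨l, hl1, hl2, -⟩, l', hl1', hl2', -⟩ := h'
      have f1 := congrArg l hs
      have f2 := congrArg l' hs
      simp only [map_add, map_smul, smul_eq_mul, map_zero, hl1, hl2, hl1', hl2', zero_mul] at f1 f2
      refine ⟨rfl, ?_, rfl, ?_⟩ <;> linarith
  · push Not at hc
    obtain ⟨rfl, rfl⟩ := hc
    obtain ⟨⟨l, hl1, hl2, -⟩, l', hl1', hl2', -⟩ := h
    have f1 := congrArg l hs
    have f2 := congrArg l' hs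
    simp only [map_add, map_smul, smul_eq_mul, map_zero, hl1, hl2, hl1', hl2', zero_mul] at f1 f2
    refine ⟨?_, rfl, ?_, rfl⟩ <;> linarith

lemma six_det4 (a b c e : E 4) : Matrix.det (Matrix.of ![a, b, c, e]) =
    a 0 * (b 1 * (c 2 * e 3 - c 3 * e 2) - b 2 * (c 1 * e 3 - c 3 * e 1)
      + b 3 * (c 1 * e 2 - c 2 * e 1))
    - a 1 * (b 0 * (c 2 * e 3 - c 3 * e 2) - b 2 * (c 0 * e 3 - c 3 * e 0)
      + b 3 * (c 0 * e 2 - c 2 * e 0))
    + a 2 * (b 0 * (c 1 * e 3 - c 3 * e 1) - b 1 * (c 0 * e 3 - c 3 * e 0)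
      + b 3 * (c 0 * e 1 - c 1 * e 0))
    - a 3 * (b 0 * (c 1 * e 2 - c 2 * e 1) - b 1 * (c 0 * e 2 - c 2 * e 0)
      + b 2 * (c 0 * e 1 - c 1 * e 0)) := by
  rw [Matrix.det_succ_row_zero]
  simp [Fin.sum_univ_succ, Matrix.det_fin_three, Fin.succAbove, Matrix.submatrix]
  ring

/-- Cramer's rule in the form of a five term identity -/
lemma six_cramer (x u u' v v' : E 4) :
    (Matrix.det (Matrix.of ![u, u', v, v'])) • x
      = (Matrix.det (Matrix.of ![x, u', v, v'])) • u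
        + (-(Matrix.det (Matrix.of ![x, u, v, v']))) • u'
        + (Matrix.det (Matrix.of ![x, v', u, u'])) • v
        + (-(Matrix.det (Matrix.of ![x, v, u, u']))) • v' := by
  simp only [six_det4]
  ext i
  fin_cases i <;> simp <;> ring

/-- (b) in terms of determinants -/
lemma six_det_ne {W : Finset (E 4)} {u u' v v' : E 4} (h : Dbl W u v) (h' : Dbl W u' v')
    (hu : u ∈ W) (hv : v ∈ W) (hu' : u' ∈ W) (hv' : v' ∈ W) (h1 : u' ≠ u) (h2 : u' ≠ v)
    (h3 : v' ≠ u) (h4 : v' ≠ v) : Matrix.det (Matrix.of ![u, u', v, v']) ≠ 0 := by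
  intro h0
  obtain ⟨c, hc, hc0⟩ := Matrix.exists_vecMul_eq_zero_iff.2 h0
  apply hc
  have hs : c 0 • u + c 1 • u' + c 2 • v + c 3 • v' = 0 := by
    ext i
    have := congrFun hc0 i
    rw [Matrix.vecMul, dotProduct, Fin.sum_univ_four] at this
    simpa using this
  obtain ⟨e0, e1, e2, e3⟩ := six_indep h h' hu hv hu' hv' h1 h2 h3 h4 hs
  ext i
  fin_cases i
  · exact e0
  · exact e1
  · exact e2
  · exact e3

lemma six_same_sign {x y : ℝ} (hx : x ≠ 0) (hy : y ≠ 0) (h : 0 < x ↔ 0 < y) : 0 < x * y := by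
  rcases lt_or_gt_of_ne hx with h1 | h1
  · rcases lt_or_gt_of_ne hy with h2 | h2
    · exact mul_pos_of_neg_of_neg h1 h2
    · have := h.2 h2
      linarith
  · exact mul_pos h1 (h.1 h1)

lemma six_abs {a b : ℝ} (h : a * b ≤ 0) : |a + b| = |(|a| - |b|)| := by
  rcases le_total 0 a with ha | ha
  · rcases le_total 0 b with hb | hb
    · have : a * b = 0 := le_antisymm h (mul_nonneg ha hb)
      rcases mul_eq_zero.1 this with rfl | rfl
      · simp
      · simp
    · rw [abs_of_nonneg ha, abs_of_nonpos hb, sub_neg_eq_add]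
  · rcases le_total 0 b with hb | hb
    · rw [abs_of_nonpos ha, abs_of_nonneg hb, ← abs_neg]
      congr 1
      ring
    · have : a * b = 0 := le_antisymm h (mul_nonneg_of_nonpos_of_nonpos ha hb)
      rcases mul_eq_zero.1 this with rfl | rfl
      · simp
      · simp

/-- (c) -/
lemma six_row {W : Finset (E 4)} {x u u' v v' : E 4} (hx : x ∈ W) (hu : u ∈ W) (hu' : u' ∈ W)
    (hv : v ∈ W) (hv' : v' ∈ W) (xu : x ≠ u) (xu' : x ≠ u') (xv : x ≠ v) (xv' : x ≠ v')
    (uu' : u ≠ u') (vv' : v ≠ v') (uv : u ≠ v) (uv' : u ≠ v') (u'v : u' ≠ v) (u'v' : u' ≠ v')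
    (d1 : Dbl W u v) (d2 : Dbl W u v') (d3 : Dbl W u' v) (d4 : Dbl W u' v')
    (x1 : Dbl W x v) (x2 : Dbl W x v') (x3 : Dbl W x u) (x4 : Dbl W x u')
    (d1' : Dbl W v u) (d2' : Dbl W v' u) (d3' : Dbl W v u') (d4' : Dbl W v' u')
    (s1 : Pos x u' v v' ↔ Pos x u v v') (s2 : Pos x v' u u' ↔ Pos x v u u') :
    Matrix.det (Matrix.of ![u, u', v, v']) ≠ 0 ∧
    ∃ s s' : ℝ, |s| + |s'| < 1 ∧ ∀ L : E 4 →ₗ[ℝ] ℝ, L u = L u' → L v = L v' →
      L x = s * L u' + s' * L v' := by
  set D := Matrix.det (Matrix.of ![u, u', v, v']) with hD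
  have D0 : D ≠ 0 := six_det_ne d1 d4 hu hv hu' hv' uu'.symm u'v uv'.symm vv'.symm
  refine ⟨D0, ?_⟩
  set A := Matrix.det (Matrix.of ![x, u', v, v']) with hA
  set B := Matrix.det (Matrix.of ![x, u, v, v']) with hB
  set A' := Matrix.det (Matrix.of ![x, v', u, u']) with hA'
  set B' := Matrix.det (Matrix.of ![x, v, u, u']) with hB'
  have A0 : A ≠ 0 := six_det_ne x1 d4 hx hv hu' hv' xu'.symm u'v xv'.symm vv'.symm
  have B0 : B ≠ 0 := six_det_ne x1 d2 hx hv hu hv' xu.symm uv xv'.symm vv'.symm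
  have A'0 : A' ≠ 0 := six_det_ne x3 d4' hx hu hv' hu' xv'.symm uv'.symm xu'.symm uu'.symm
  have B'0 : B' ≠ 0 := six_det_ne x3 d3' hx hu hv hu' xv.symm uv.symm xu'.symm uu'.symm
  have AB : 0 < A * B := six_same_sign A0 B0 s1
  have AB' : 0 < A' * B' := six_same_sign A'0 B'0 s2
  have hc := six_cramer x u u' v v'
  rw [← hD, ← hA, ← hB, ← hA', ← hB'] at hc
  set a := A / D with ha
  set a' := -B / D with ha'
  set b := A' / D with hb
  set b' := -B' / D with hb'
  have hx2 : x = a • u + a' • u' + b • v + b' • v' := by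
    have := congrArg (fun y => D⁻¹ • y) hc
    simp only [smul_add, smul_smul, inv_mul_cancel₀ D0, one_smul] at this
    rw [this, ha, ha', hb, hb']
    congr 1
    · congr 1
      · congr 1
        · congr 1
          field_simp
        · congr 1
          field_simp
      · congr 1
        field_simp
    · congr 1
      field_simp
  have haa : a * a' ≤ 0 := by
    have : a * a' = -(A * B) / D ^ 2 := by
      rw [ha, ha']
      field_simp
    rw [this]
    exact div_nonpos_of_nonpos_of_nonneg (by linarith) (by positivity)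
  have hbb : b * b' ≤ 0 := by
    have : b * b' = -(A' * B') / D ^ 2 := by
      rw [hb, hb']
      field_simp
    rw [this]
    exact div_nonpos_of_nonpos_of_nonneg (by linarith) (by positivity)
  have m1 : (-1 : ℝ) ≠ 0 := by norm_num
  have hx3 : (a • u + a' • u' + b • v + b' • v') - x = 0 := by rw [← hx2, sub_self]
  have r1 := six_dep d1 hu' hv' hx uu'.symm u'v uv'.symm vv'.symm xu xv
    (a := a) (a' := a') (b := b) (b' := b') (c := -1)
    (by rw [← hx3]; module) (Or.inl m1)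
  have r2 := six_dep d2 hu' hv hx uu'.symm u'v' uv.symm vv' xu xv'
    (a := a) (a' := a') (b := b') (b' := b) (c := -1)
    (by rw [← hx3]; module) (Or.inl m1)
  have r3 := six_dep d3 hu hv' hx uu' uv u'v'.symm vv'.symm xu' xv
    (a := a') (a' := a) (b := b) (b' := b') (c := -1)
    (by rw [← hx3]; module) (Or.inl m1)
  have r4 := six_dep d4 hu hv hx uu' uv' u'v.symm vv' xu' xv'
    (a := a') (a' := a) (b := b') (b' := b) (c := -1)
    (by rw [← hx3]; module) (Or.inl m1)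
  rw [abs_neg, abs_one] at r1 r2 r3 r4
  refine ⟨a + a', b + b', ?_, ?_⟩
  · rw [six_abs haa, six_abs hbb]
    rcases abs_cases (|a| - |a'|) with ⟨h1, _⟩ | ⟨h1, _⟩ <;>
      rcases abs_cases (|b| - |b'|) with ⟨h2, _⟩ | ⟨h2, _⟩ <;> rw [h1, h2] <;> linarith
  · intro L h1 h2
    rw [hx2]
    simp only [map_add, map_smul, smul_eq_mul]
    rw [h1, h2]
    ring

theorem six : Stmt_Six := by
  intro W p q hW hne hd hs
  have row : ∀ k i j : Fin 3, k ≠ i → i ≠ j → k ≠ j →
      Matrix.det (Matrix.of ![p i, q i, p j, q j]) ≠ 0 ∧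
      ∃ s s' : ℝ, |s| + |s'| < 1 ∧ ∀ L : E 4 →ₗ[ℝ] ℝ, L (p i) = L (q i) → L (p j) = L (q j) →
        L (q k) = s * L (q i) + s' * L (q j) := by
    intro k i j h1 h2 h3
    obtain ⟨a1, a2, a3, a4⟩ := hd i j h2
    obtain ⟨b1, b2, b3, b4⟩ := hd j i h2.symm
    obtain ⟨c1, c2, c3, c4⟩ := hd k j h3
    obtain ⟨e1, e2, e3, e4⟩ := hd k i h1
    obtain ⟨n1, n2, n3⟩ := hne i j h2
    obtain ⟨n1', n2', n3'⟩ := hne j i h2.symm
    obtain ⟨k1, k2, k3⟩ := hne k i h1
    obtain ⟨l1, l2, l3⟩ := hne k j h3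
    obtain ⟨k1', k2', k3'⟩ := hne i k h1.symm
    obtain ⟨l1', l2', l3'⟩ := hne j k h3.symm
    have t1 : Pos (q k) (q i) (p j) (q j) ↔ Pos (q k) (p i) (p j) (q j) :=
      hs k i j h1 h2 h3 (q k) (by simp) (q k) (by simp) (q i) (by simp) (p i) (by simp)
    have t2 : Pos (q k) (q j) (p i) (q i) ↔ Pos (q k) (p j) (p i) (q i) :=
      hs k j i h3 h2.symm h1 (q k) (by simp) (q k) (by simp) (q j) (by simp) (p j) (by simp)
    exact six_row (hW k).2.1 (hW i).1 (hW i).2.1 (hW j).1 (hW j).2.1 k2'.symm k3 l2'.symm l3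
      (hW i).2.2 (hW j).2.2 n1 n2 n2'.symm n3 a1 a2 a3 a4 c3 c4 e3 e4 b1 b3 b2 b4 t1 t2
  -- the functional
  have hL : ∃ L : E 4 →ₗ[ℝ] ℝ, L ≠ 0 ∧ ∀ i, L (p i) = L (q i) := by
    have hlt : Submodule.span ℝ (Set.range fun i => p i - q i) < ⊤ := by
      rw [lt_top_iff_ne_top]
      intro ht
      have h1 := finrank_range_le_card (R := ℝ) (fun i => p i - q i)
      rw [Set.finrank, ht, finrank_top, Module.finrank_fin_fun, Fintype.card_fin] at h1
      omega
    obtain ⟨L, hL0, hL⟩ := Submodule.exists_le_ker_of_lt_top _ hlt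
    refine ⟨L, hL0, fun i => ?_⟩
    have : p i - q i ∈ LinearMap.ker L := hL (Submodule.subset_span ⟨i, rfl⟩)
    rw [LinearMap.mem_ker, map_sub, sub_eq_zero] at this
    exact this
  obtain ⟨L, hL0, hL⟩ := hL
  obtain ⟨k, -, hk⟩ := Finset.exists_max_image (Finset.univ : Finset (Fin 3))
    (fun i => |L (q i)|) ⟨0, Finset.mem_univ _⟩
  have hz : L (q k) = 0 := by
    have hij : ∃ i j : Fin 3, k ≠ i ∧ i ≠ j ∧ k ≠ j := by
      fin_cases k
      · exact ⟨1, 2, by decide, by decide, by decide⟩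
      · exact ⟨0, 2, by decide, by decide, by decide⟩
      · exact ⟨0, 1, by decide, by decide, by decide⟩
    obtain ⟨i, j, h1, h2, h3⟩ := hij
    obtain ⟨-, s, s', hss, hr⟩ := row k i j h1 h2 h3
    have e := hr L (hL i) (hL j)
    have e2 : |L (q k)| ≤ (|s| + |s'|) * |L (q k)| := by
      calc |L (q k)| = |s * L (q i) + s' * L (q j)| := by rw [← e]
        _ ≤ |s * L (q i)| + |s' * L (q j)| := abs_add_le _ _
        _ = |s| * |L (q i)| + |s'| * |L (q j)| := by rw [abs_mul, abs_mul]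
        _ ≤ |s| * |L (q k)| + |s'| * |L (q k)| := by
          have := hk i (Finset.mem_univ _)
          have := hk j (Finset.mem_univ _)
          gcongr
        _ = _ := by ring
    by_contra h0
    have h4 := abs_pos.2 h0
    nlinarith
  have hz2 : ∀ i, L (q i) = 0 := by
    intro i
    have := hk i (Finset.mem_univ _)
    rw [hz, abs_zero] at this
    exact abs_eq_zero.1 (le_antisymm this (abs_nonneg _))
  apply hL0
  obtain ⟨D0, -⟩ := row 2 0 1 (by decide) (by decide) (by decide)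
  ext x
  have hc := congrArg L (six_cramer (Pi.single x 1) (p 0) (q 0) (p 1) (q 1))
  simp only [map_add, map_smul, smul_eq_mul, hL, hz2, mul_zero, add_zero, mul_eq_zero] at hc
  simpa using hc.resolve_left D0

end Pool.CS4
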