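import Pool.Agent.CS4.Defs

/-!
Frozen statements of the modules. Paper: /team-store/CS4_paper.md
-/

open Finset Matrix

noncomputable section

namespace Pool.CS4

/-- `[u, v]` and `[u, -v]` are both edges of `conv (W ∪ -W)`, in terms of functionals. -/
def Dbl {d : ℕ} (W : Finset (E d)) (u v : E d) : Prop :=
  (∃ l : E d →ₗ[ℝ] ℝ, l u = 1 ∧ l v = 1 ∧ ∀ w ∈ W, w ≠ u → w ≠ v → |l w| < 1) ∧
  (∃ l : E d →ₗ[ℝ] ℝ, l u = 1 ∧ l v = -1 ∧ ∀ w ∈ W, w ≠ u → w ≠ v → |l w| < 1)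

/-- positive determinant -/
def Pos (a b c e : E 4) : Prop := 0 < Matrix.det (Matrix.of ![a, b, c, e])

/-- six vectors in three pairs -/
def Stmt_Six : Prop := ∀ (W : Finset (E 4)) (p q : Fin 3 → E 4),
  (∀ i, p i ∈ W ∧ q i ∈ W ∧ p i ≠ q i) →
  (∀ i j, i ≠ j → p i ≠ p j ∧ p i ≠ q j ∧ q i ≠ q j) →
  (∀ i j, i ≠ j → Dbl W (p i) (p j) ∧ Dbl W (p i) (q j) ∧ Dbl W (q i) (p j) ∧
    Dbl W (q i) (q j)) →
  (∀ i j k, i ≠ j → j ≠ k → i ≠ k → ∀ u ∈ ({p i, q i} : Set (E 4)), ∀ u' ∈ ({p i, q i} : Set (E 4)),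
    ∀ w ∈ ({p j, q j} : Set (E 4)), ∀ w' ∈ ({p j, q j} : Set (E 4)),
      (Pos u w (p k) (q k) ↔ Pos u' w' (p k) (q k))) → False

/-- pigeonhole -/
def Stmt_Pig : Prop := ∃ t : ℕ, ∀ (α : Type) (A : Fin 3 → Finset α) (χ : α → α → α → α → Prop),
  (∀ i, t ≤ (A i).card) → ∃ p q : Fin 3 → α, (∀ i, p i ∈ A i ∧ q i ∈ A i ∧ p i ≠ q i) ∧
    ∀ i j k, i ≠ j → j ≠ k → i ≠ k → ∀ u ∈ ({p i, q i} : Set α), ∀ u' ∈ ({p i, q i} : Set α),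
      ∀ w ∈ ({p j, q j} : Set α), ∀ w' ∈ ({p j, q j} : Set α),
        (χ u w (p k) (q k) ↔ χ u' w' (p k) (q k))

open Classical in
/-- Erdős-Stone for three classes -/
def Stmt_ES : Prop := ∀ (ε : ℝ) (t : ℕ), 0 < ε → ∃ N₀ : ℕ, ∀ (α : Type) (X : Finset α)
  (G : SimpleGraph α), N₀ ≤ X.card →
  (1 / 2 + ε) * (X.card : ℝ) ^ 2 ≤ (((X ×ˢ X).filter fun z => G.Adj z.1 z.2).card : ℝ) →
  ∃ A : Fin 3 → Finset α, (∀ i, A i ⊆ X ∧ (A i).card = t) ∧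
    ∀ i j, i ≠ j → ∀ x ∈ A i, ∀ y ∈ A j, G.Adj x y

open Classical in
/-- one representative of every antipodal pair of vertices; the number of edges -/
def Stmt_Cls : Prop := ∀ (d : ℕ) (V : Finset (E d)), IsCSSimplicial d V → 3 ≤ V.card →
  ∃ X : Finset (E d), X ⊆ V ∧ V.card = 2 * X.card ∧
    fv V 2 + X.card ≤ X.card ^ 2 + ((X ×ˢ X).filter fun z => z.1 ≠ z.2 ∧ Dbl X z.1 z.2).card

/-- upper bound for the number of edges -/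
def Stmt_Up : Prop := ∀ ε : ℝ, 0 < ε → ∃ n₀ : ℕ, ∀ V : Finset (E 4), IsCSSimplicial 4 V →
  n₀ ≤ V.card → (fv V 2 : ℝ) ≤ (3 / 8 + ε) * (V.card : ℝ) ^ 2

/-! ### The construction -/

/-- the symmetric moment curve of Barvinok and Novik -/
def φ (t : ℝ) : E 4 := ![Real.cos t, Real.sin t, Real.cos (3 * t), Real.sin (3 * t)]

/-- edges of the curve -/
def Stmt_Curve : Prop := ∀ a b : ℝ, 1 / 2 < Real.cos ((a - b) / 2) →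
  ∃ l : E 4 →ₗ[ℝ] ℝ, l (φ a) = 1 ∧ l (φ b) = 1 ∧
    ∀ t : ℝ, φ t ≠ φ a → φ t ≠ φ b → l (φ t) < 1

/-- general position, with signs -/
def GenPos (T : Finset ℝ) : Prop := ∀ S ⊆ T, S.card ≤ 5 → ∀ σ : ℝ → ℝ,
  (∀ t, σ t = 1 ∨ σ t = -1) → AffineIndependent ℝ (fun t : {x // x ∈ S} => σ t • φ t)

/-- points in general position on two short arcs -/
def Stmt_Gen : Prop := ∀ N₁ N₂ : ℕ, ∃ T₁ T₂ : Finset ℝ, T₁.card = N₁ ∧ T₂.card = N₂ ∧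
  (∀ t ∈ T₁, 0 < t ∧ t < 1 / 10) ∧ (∀ t ∈ T₂, Real.pi / 2 < t ∧ t < Real.pi / 2 + 1 / 10) ∧
  GenPos (T₁ ∪ T₂)

/-- the vertex set `{±φ t}` -/
def VT (T : Finset ℝ) : Finset (E 4) := by
  classical
  exact T.image φ ∪ T.image fun t => -φ t

/-- the polytope is simplicial -/
def Stmt_Simp : Prop := ∀ T : Finset ℝ, (∀ t ∈ T, 0 < t ∧ t < 3) → 5 ≤ T.card → GenPos T →
  IsCSSimplicial 4 (VT T) ∧ (VT T).card = 2 * T.card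

/-- number of edges -/
def Stmt_Cnt : Prop := ∀ T₁ T₂ : Finset ℝ, 5 ≤ (T₁ ∪ T₂).card →
  (∀ t ∈ T₁, 0 < t ∧ t < 1 / 10) → (∀ t ∈ T₂, Real.pi / 2 < t ∧ t < Real.pi / 2 + 1 / 10) →
  T₁.card * (T₁.card - 1) + T₂.card * (T₂.card - 1) + 4 * (T₁.card * T₂.card)
    ≤ fv (VT (T₁ ∪ T₂)) 2

/-- lower bound for the number of edges -/
def Stmt_Low : Prop := ∀ N : ℕ, 5 ≤ N → ∃ V : Finset (E 4), IsCSSimplicial 4 V ∧
  V.card = 2 * N ∧ 3 / 2 * (N : ℝ) ^ 2 - 2 * N ≤ (fv V 2 : ℝ)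

/-- `g_2` in dimension four (`f_{-1} = 1`, `f_0` is the number of vertices) -/
def Stmt_g2 : Prop := ∀ V : Finset (E 4), IsCSSimplicial 4 V → 3 ≤ V.card →
  gv 4 V 2 = (fv V 2 : ℤ) - 4 * (V.card : ℤ) + 10

end Pool.CS4
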