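import Pool.Agent.CS4.Stmts

/-!
# CS4: the upper bound for the number of edges from its four ingredients
-/

open Finset Matrix

noncomputable section

namespace Pool.CS4

/-- `Dbl` is symmetric -/
theorem up_dbl_symm {d : ℕ} {W : Finset (E d)} {u v : E d} (h : Dbl W u v) : Dbl W v u := by
  obtain ⟨⟨l, hu, hv, hl⟩, ⟨m, mu, mv, hm⟩⟩ := h
  refine ⟨⟨l, hv, hu, fun w hw h1 h2 => hl w hw h2 h1⟩, ⟨-m, ?_, ?_, ?_⟩⟩
  · simp [mv]
  · simp [mu]
  · intro w hw h1 h2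
    have := hm w hw h2 h1
    simpa using this

/-- the graph of the doubly joined pairs -/
def up_graph {d : ℕ} (W : Finset (E d)) : SimpleGraph (E d) where
  Adj u v := u ≠ v ∧ Dbl W u v
  symm := ⟨fun _ _ h => ⟨h.1.symm, up_dbl_symm h.2⟩⟩
  loopless := ⟨fun _ h => h.1 rfl⟩

/-- the upper bound -/
theorem up (h1 : Stmt_Six) (h2 : Stmt_Pig) (h3 : Stmt_ES) (h4 : Stmt_Cls) : Stmt_Up := by
  classical
  intro ε hε
  obtain ⟨t, ht⟩ := h2
  obtain ⟨N₀, hN⟩ := h3 ε t hε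
  refine ⟨2 * N₀ + 3, ?_⟩
  intro V hV hn
  obtain ⟨X, hXV, hcard, hle⟩ := h4 4 V hV (by omega)
  by_contra hcon
  push Not at hcon
  obtain ⟨D, hD⟩ : ∃ D : ℕ, D = ((X ×ˢ X).filter fun z => (up_graph X).Adj z.1 z.2).card :=
    ⟨_, rfl⟩
  have hD' : fv V 2 + X.card ≤ X.card ^ 2 + D := by
    rw [hD]
    refine hle.trans (le_of_eq ?_)
    congr 1
    congr 1
    ext z
    simp [up_graph]
  have hDr : (fv V 2 : ℝ) + X.card ≤ (X.card : ℝ) ^ 2 + D := by exact_mod_cast hD'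
  have hVr : (V.card : ℝ) = 2 * X.card := by exact_mod_cast hcard
  have hXr : (0 : ℝ) ≤ (X.card : ℝ) := Nat.cast_nonneg _
  have hkey : (1 / 2 + ε) * (X.card : ℝ) ^ 2 ≤
      (((X ×ˢ X).filter fun z => (up_graph X).Adj z.1 z.2).card : ℝ) := by
    rw [← hD]
    rw [hVr] at hcon
    nlinarith [mul_nonneg hε.le (sq_nonneg (X.card : ℝ))]
  obtain ⟨A, hA, hadj⟩ := hN (E 4) X (up_graph X) (by omega) (by convert hkey)
  obtain ⟨p, q, hpq, hχ⟩ := ht (E 4) A (fun a b c e => Pos a b c e) (fun i => (hA i).2.ge)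
  refine h1 X p q ?_ ?_ ?_ hχ
  · intro i
    exact ⟨(hA i).1 (hpq i).1, (hA i).1 (hpq i).2.1, (hpq i).2.2⟩
  · intro i j hij
    exact ⟨(hadj i j hij _ (hpq i).1 _ (hpq j).1).1, (hadj i j hij _ (hpq i).1 _ (hpq j).2.1).1,
      (hadj i j hij _ (hpq i).2.1 _ (hpq j).2.1).1⟩
  · intro i j hij
    exact ⟨(hadj i j hij _ (hpq i).1 _ (hpq j).1).2, (hadj i j hij _ (hpq i).1 _ (hpq j).2.1).2,
      (hadj i j hij _ (hpq i).2.1 _ (hpq j).1).2, (hadj i j hij _ (hpq i).2.1 _ (hpq j).2.1).2⟩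

end Pool.CS4
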